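import Pool.Agent.TH188.VT.Defs

/-!
# Tame towers over composita of function fields of surfaces: definitions
-/

set_option autoImplicit false

universe u

open Polynomial

namespace Pool.Agent.T6.H12

variable {k K : Type u} [Field k] [Field K] [Algebra k K]

/-- The set `B` is unimodular with respect to the field `F` and the group `G`: in every minimal
linear relation `∑ b ∈ C, c b * b = 0` over `F` between elements of `B` (the `c b` are not zero and
every proper subset of the finite set `C` is linearly independent over `F`) the ratios of the
coefficients belong to `G`. -/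
def IsUnimodular (F : IntermediateField k K) (G : Subgroup Kˣ) (B : Set K) : Prop :=
  ∀ (C : Finset K) (c : K → K), (C : Set K) ⊆ B → (∀ b ∈ C, c b ∈ F ∧ c b ≠ 0) →
    ∑ b ∈ C, c b * b = 0 → (∀ C' ⊂ C, LinearIndependent F fun b : C' => (b : K)) →
    ∀ a ∈ C, ∀ b ∈ C, ∃ u ∈ G, c a = u * c b

/-- The terms of the equation with the index `j` and their degrees in `(ℤ/p)^n`: products of
elements of `G`, of degree `0`, of elements of `B s`, of degree the `s`-th basis vector, of
the `f l ≠ 0` with `l < j`, of degree `deg l`, and of the inverses of these elements. -/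
def terms (p : ℕ) (G : Subgroup Kˣ) {n r : ℕ} (B : Fin n → Set K) (f : Fin r → K)
    (deg : Fin r → Fin n → ZMod p) (j : Fin r) : Subgroup (Kˣ × Multiplicative (Fin n → ZMod p)) :=
  Subgroup.closure {a | (a.1 ∈ G ∧ a.2 = 1) ∨
    (∃ s, (a.1 : K) ∈ B s ∧ a.2 = Multiplicative.ofAdd (Pi.single s 1)) ∨
    ∃ l, l < j ∧ f l = a.1 ∧ a.2 = Multiplicative.ofAdd (deg l)}

/-- The elements `f 0, ..., f (r - 1)` are a tame system over the field `F` with the group `G` and
the unimodular sets `B s`, which generate finite-dimensional spaces over `F`: each `f j` is a sum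
of terms `t j 0, ..., t j (q j)`, of degrees `δ j i`, such that the differences of the degrees of the
terms other than the first one and the degree of the first one, for all `j` together, are linearly
independent modulo `p`, and the transcendence degree over `F` of the field generated by the `B s`
is the sum of the dimensions of these spaces minus the number of indices `j` with `f j = 0`. -/
structure IsTameSystem (p : ℕ) (F : IntermediateField k K) (G : Subgroup Kˣ) {n r : ℕ}
    (B : Fin n → Set K) (f : Fin r → K) : Prop where
  finite : ∀ s, FiniteDimensional F (Submodule.span F (B s))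
  nonzero : ∀ s, 0 ∉ B s
  unimodular : ∀ s, IsUnimodular F G (B s)
  equations : ∃ (deg : Fin r → Fin n → ZMod p) (q : Fin r → ℕ) (t : ∀ j, Fin (q j + 1) → Kˣ)
    (δ : ∀ j, Fin (q j + 1) → Fin n → ZMod p),
    (∀ j i, (t j i, Multiplicative.ofAdd (δ j i)) ∈ terms p G B f deg j) ∧
    (∀ j, f j = ∑ i, (t j i : K)) ∧ (∀ j, deg j = δ j 0) ∧
    LinearIndependent (ZMod p) fun a : (j : Fin r) × {i : Fin (q j + 1) // i ≠ 0} =>
      δ a.1 a.2 - deg a.1
  complete : Algebra.trdeg F (IntermediateField.adjoin F (⋃ s, B s)) +
    (Nat.card {j // f j = 0} : Cardinal.{u}) =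
      ((∑ s, Module.finrank F (Submodule.span F (B s)) : ℕ) : Cardinal.{u})

/-- The differences `a - b` of elements of the group for which `a ^ N - b ^ N` belongs to the
group for some `N` which is prime to `p`. -/
def differences {K : Type u} [Field K] (p : ℕ) (G : Subgroup Kˣ) : Set Kˣ :=
  {u | ∃ (N : ℕ) (a b v : Kˣ), ¬ p ∣ N ∧ a ∈ G ∧ b ∈ G ∧ v ∈ G ∧ (u : K) = a - b ∧
    (v : K) = a ^ N - b ^ N}

/-- The fields `F` and groups `G` of functions obtained from the field generated by the subfields
`E i` and the group generated by their nonzero elements by finitely many steps of three kinds: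
(1) adjoin an element `x` transcendental over `F` to the field, and all values `P (x) ≠ 0` of
polynomials `P` of degree less than `p` over one of the fields `E i` to the group; (2) adjoin
unimodular sets `B s` to the field, and the elements of the `B s` and the nonzero elements `f l` of
a tame system to the group; (3) adjoin all differences `a - b` of elements of the group, such that
`a ^ N - b ^ N` belongs to the group for some `N` prime to `p`, to the group. -/
inductive IsTameTower (p : ℕ) {m : ℕ} (E : Fin m → IntermediateField k K) :
    IntermediateField k K → Subgroup Kˣ → Prop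
  | base : IsTameTower p E (IntermediateField.adjoin k (⋃ i, (E i : Set K)))
      (Subgroup.closure {u | ∃ i, (u : K) ∈ E i})
  | line {F : IntermediateField k K} {G : Subgroup Kˣ} (h : IsTameTower p E F G)
      (i : Fin m) (x : K) (hx : Transcendental F x) :
      IsTameTower p E ((IntermediateField.adjoin F {x}).restrictScalars k)
        (G ⊔ Subgroup.closure {u | ∃ P : (E i)[X], P.natDegree < p ∧ aeval x P = u})
  | system {F : IntermediateField k K} {G : Subgroup Kˣ} (h : IsTameTower p E F G)
      {n r : ℕ} (B : Fin n → Set K) (f : Fin r → K) (hf : IsTameSystem p F G B f) :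
      IsTameTower p E ((IntermediateField.adjoin F (⋃ s, B s)).restrictScalars k)
        (G ⊔ Subgroup.closure {u | (∃ s, (u : K) ∈ B s) ∨ ∃ l, f l = u})
  | difference {F : IntermediateField k K} {G : Subgroup Kˣ} (h : IsTameTower p E F G) :
      IsTameTower p E F (G ⊔ Subgroup.closure (differences p G))

end Pool.Agent.T6.H12
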