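import Pool.Agent.T6.H12.Good
import Pool.Agent.T6.H12.TowerDefs

/-!
# Adding differences
-/

set_option autoImplicit false
set_option linter.unusedSectionVars false

universe u

open Polynomial Pool.Agent.TH214.SD Pool.Agent.W558

namespace Pool.Agent.T6.H12

section rel

variable {K : Type u} [Field K] {n : ℕ} {Γ κ W : Type*} [AddCommGroup Γ] [LinearOrder Γ] [Field κ]
    [AddCommGroup W] [Module κ W] {A : Set K} {y : Fin n → K} {l : K → Γ} {z : K → κ}
    {w : Fin n → Γ} {ζ : Fin n → κ} {D : Fin n → W}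

open scoped Classical in
/-- The relations, indexed by a finite type. -/
lemma IniTop.relJ (h : IniTop A y l z w ζ D) {J : Type} [Fintype J] (c : J → K)
    (hc : ∀ j, c j ∈ A) (e : J → Fin n → ℤ) (h0 : ∑ j, c j * mon y (e j) = 0) (μ : Γ)
    (hμ : ∀ j, μ ≤ l (c j) + dm w (e j)) :
    (∑ j, if l (c j) + dm w (e j) = μ then z (c j) * mon ζ (e j) else 0) = 0 ∧
    (∑ j, if l (c j) + dm w (e j) = μ then (z (c j) * mon ζ (e j)) • dm D (e j) else 0) = 0 := by
  have h1 := h.rel (Finset.univ.toList.map fun j : J => (c j, e j))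
    (by
      intro q hq
      obtain ⟨j, -, rfl⟩ := List.mem_map.1 hq
      exact hc j) (by
      rw [List.map_map, Finset.sum_map_toList]
      exact h0) μ (by
      intro q hq
      obtain ⟨j, -, rfl⟩ := List.mem_map.1 hq
      exact hμ j)
  rw [List.map_map, List.map_map, Finset.sum_map_toList, Finset.sum_map_toList] at h1
  exact h1

/-- The relations between the terms of the lowest level. -/
lemma IniTop.relM (h : IniTop A y l z w ζ D) {J : Type} [Fintype J] [Nonempty J] (c : J → K)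
    (hc : ∀ j, c j ∈ A) (e : J → Fin n → ℤ) (h0 : ∑ j, c j * mon y (e j) = 0) :
    ∃ (μ : Γ) (mm : J → κ), (∀ j, (l (c j) + dm w (e j) = μ ∧ mm j = z (c j) * mon ζ (e j)) ∨
      (μ < l (c j) + dm w (e j) ∧ mm j = 0)) ∧ ∑ j, mm j = 0 ∧ ∑ j, mm j • dm D (e j) = 0 ∧
      ∃ j, l (c j) + dm w (e j) = μ := by
  classical
  obtain ⟨o, -, ho⟩ := Finset.exists_min_image (Finset.univ : Finset J)
    (fun o => l (c o) + dm w (e o)) Finset.univ_nonempty
  obtain ⟨h4, h5⟩ := h.relJ c hc e h0 _ fun o' => ho o' (Finset.mem_univ _)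
  refine ⟨l (c o) + dm w (e o), fun j => if l (c j) + dm w (e j) = l (c o) + dm w (e o) then
    z (c j) * mon ζ (e j) else 0, ?_, h4, ?_, o, rfl⟩
  · intro j
    by_cases hj : l (c j) + dm w (e j) = l (c o) + dm w (e o)
    · exact Or.inl ⟨hj, if_pos hj⟩
    · exact Or.inr ⟨lt_of_le_of_ne (ho j (Finset.mem_univ _)) (Ne.symm hj), if_neg hj⟩
  · rw [← h5]
    refine Finset.sum_congr rfl fun j _ => ?_
    dsimp only
    split_ifs
    · rfl
    · exact zero_smul _ _

variable [IsOrderedAddMonoid Γ]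

lemma IniTop.pow (h : IniTop A y l z w ζ D) (h1 : (1 : K) ∈ A)
    (hA : ∀ a ∈ A, ∀ b ∈ A, a * b ∈ A) {a : K} (ha : a ∈ A) (N : ℕ) :
    a ^ N ∈ A ∧ l (a ^ N) = N • l a ∧ z (a ^ N) = z a ^ N := by
  induction N with
  | zero =>
    rw [pow_zero, zero_smul, pow_zero]
    exact ⟨h1, h.l_one h1, h.z_one h1⟩
  | succ N ih =>
    obtain ⟨h2, h3, h4⟩ := ih
    rw [pow_succ, succ_nsmul, pow_succ]
    exact ⟨hA _ h2 _ ha, by rw [h.lmul _ h2 _ ha, h3], by rw [h.zmul _ h2 _ ha, h4]⟩

lemma dm_nsmul' {n : ℕ} {w : Fin n → Γ} (N : ℕ) (e : Fin n → ℤ) : dm w (N • e) = N • dm w e := by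
  induction N with
  | zero => rw [zero_smul, dm_zero, zero_smul]
  | succ N ih => rw [succ_nsmul, dm_add, ih, succ_nsmul]

/-- Two monomials which are equal have the same derivatives. -/
lemma IniTop.rel_two (h : IniTop A y l z w ζ D) (hneg : ∀ a ∈ A, -a ∈ A) {a b : K} (ha : a ∈ A)
    (hb : b ∈ A) {e e' : Fin n → ℤ} (h0 : a * mon y e = b * mon y e') :
    dm D e = dm D e' := by
  classical
  have key : ∀ μ, μ ≤ l a + dm w e → μ ≤ l (-b) + dm w e' → _ := fun μ hμ hμ' =>
    h.relJ (J := Bool) (fun x => bif x then a else -b) (by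
      rintro (_ | _)
      · exact hneg b hb
      · exact ha) (fun x => bif x then e else e') (by
      rw [Fintype.sum_bool]
      simp only [cond_true, cond_false]
      rw [h0]
      ring) μ (by
      rintro (_ | _)
      · exact hμ'
      · exact hμ)
  simp only [Fintype.sum_bool, cond_true, cond_false] at key
  have hz1 : z a * mon ζ e ≠ 0 := mul_ne_zero (h.z0 _ ha) (mon_ne h.ζ0 _)
  have hz2 : z (-b) * mon ζ e' ≠ 0 := mul_ne_zero (h.z0 _ (hneg b hb)) (mon_ne h.ζ0 _)
  have heq : l a + dm w e = l (-b) + dm w e' := by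
    rcases lt_trichotomy (l a + dm w e) (l (-b) + dm w e') with hlt | heq | hlt
    · have h2 := (key _ le_rfl hlt.le).1
      rw [if_pos rfl, if_neg hlt.ne', add_zero] at h2
      exact absurd h2 hz1
    · exact heq
    · have h2 := (key _ hlt.le le_rfl).1
      rw [if_pos rfl, if_neg hlt.ne', zero_add] at h2
      exact absurd h2 hz2
  obtain ⟨h2, h3⟩ := key _ le_rfl heq.le
  rw [if_pos rfl, if_pos heq.symm] at h2 h3
  rw [eq_neg_of_add_eq_zero_right h2, neg_smul, ← sub_eq_add_neg, ← smul_sub] at h3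
  exact sub_eq_zero.1 ((smul_eq_zero.1 h3).resolve_left hz1)

/-- The derivative of a difference. -/
lemma IniTop.diff (h : IniTop A y l z w ζ D) (hA1 : (1 : K) ∈ A)
    (hAm : ∀ a ∈ A, ∀ b ∈ A, a * b ∈ A) (hneg : ∀ a ∈ A, -a ∈ A) (hy0 : ∀ j, y j ≠ 0)
    (p : ℕ) [Fact p.Prime] [CharP K p] (N : ℕ) (hN : ¬ p ∣ N) (W0 : Submodule κ W)
    {ca cb cv : K} (hca : ca ∈ A) (hcb : cb ∈ A) (hcv : cv ∈ A) {ea eb ev eu eg : Fin n → ℤ}
    (hea : dm D ea ∈ W0) (heb : dm D eb ∈ W0) (hev : dm D ev ∈ W0)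
    (hu : mon y eu = ca * mon y ea - cb * mon y eb)
    (hv : cv * mon y ev = (ca * mon y ea) ^ N - (cb * mon y eb) ^ N)
    (hg : cv * mon y ev = mon y eu * mon y eg) : dm D eu ∈ W0 ∧ dm D eg ∈ W0 := by
  classical
  have hp : p.Prime := Fact.out
  have hmy : ∀ e, mon y e ≠ 0 := fun e => mon_ne hy0 e
  have hsum : dm D ev = dm D eu + dm D eg := by
    rw [← dm_add]
    refine h.rel_two hneg hcv hA1 ?_
    rw [hg, one_mul, mon_add hy0]
  suffices hsuff : dm D eu ∈ W0 ∨ dm D eg ∈ W0 by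
    rcases hsuff with h1 | h1
    · refine ⟨h1, ?_⟩
      have h2 : dm D eg = dm D ev - dm D eu := by rw [hsum]; abel
      rw [h2]
      exact Submodule.sub_mem _ hev h1
    · refine ⟨?_, h1⟩
      have h2 : dm D eu = dm D ev - dm D eg := by rw [hsum]; abel
      rw [h2]
      exact Submodule.sub_mem _ hev h1
  have hlneg : ∀ b ∈ A, l (-b) = l b ∧ z (-b) = -z b := by
    intro b hb
    have h1 : ∀ μ, μ ≤ l b + dm w 0 → μ ≤ l (-b) + dm w 0 → _ := fun μ hμ hμ' =>
      h.relJ (J := Bool) (fun x => bif x then b else -b) (by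
        rintro (_ | _)
        · exact hneg b hb
        · exact hb) (fun _ => 0) (by
        rw [Fintype.sum_bool]
        simp only [cond_true, cond_false]
        ring) μ (by
        rintro (_ | _)
        · exact hμ'
        · exact hμ)
    simp only [Fintype.sum_bool, cond_true, cond_false, dm_zero, add_zero, mon_zero,
      mul_one] at h1
    have hz1 : z b ≠ 0 := h.z0 _ hb
    have hz2 : z (-b) ≠ 0 := h.z0 _ (hneg b hb)
    rcases lt_trichotomy (l b) (l (-b)) with hlt | heq | hlt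
    · have h2 := (h1 _ le_rfl hlt.le).1
      rw [if_pos rfl, if_neg hlt.ne', add_zero] at h2
      exact absurd h2 hz1
    · have h2 := (h1 _ le_rfl heq.le).1
      rw [if_pos rfl, if_pos heq.symm] at h2
      exact ⟨heq.symm, eq_neg_of_add_eq_zero_right h2⟩
    · have h2 := (h1 _ hlt.le le_rfl).1
      rw [if_pos rfl, if_neg hlt.ne', zero_add] at h2
      exact absurd h2 hz2
  -- the relation between three terms
  have hza : z (-ca) * mon ζ ea ≠ 0 := mul_ne_zero (h.z0 _ (hneg _ hca)) (mon_ne h.ζ0 _)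
  have hzb : z cb * mon ζ eb ≠ 0 := mul_ne_zero (h.z0 _ hcb) (mon_ne h.ζ0 _)
  have hzu : z 1 * mon ζ eu ≠ 0 := mul_ne_zero (h.z0 _ hA1) (mon_ne h.ζ0 _)
  obtain ⟨μ, mm, hmm, h4, h5, h6⟩ := h.relM (J := Option Bool)
    (fun o => o.elim 1 fun x => bif x then -ca else cb) (by
      rintro (_ | _ | _)
      · exact hA1
      · exact hcb
      · exact hneg ca hca)
    (fun o => o.elim eu fun x => bif x then ea else eb) (by
      rw [Fintype.sum_option, Fintype.sum_bool]
      simp only [Option.elim_none, Option.elim_some, cond_true, cond_false]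
      rw [one_mul, hu]
      ring)
  have mu : (l 1 + dm w eu = μ ∧ mm none = z 1 * mon ζ eu) ∨
    (μ < l 1 + dm w eu ∧ mm none = 0) := hmm none
  have ma : (l (-ca) + dm w ea = μ ∧ mm (some true) = z (-ca) * mon ζ ea) ∨
    (μ < l (-ca) + dm w ea ∧ mm (some true) = 0) := hmm (some true)
  have mb : (l cb + dm w eb = μ ∧ mm (some false) = z cb * mon ζ eb) ∨
    (μ < l cb + dm w eb ∧ mm (some false) = 0) := hmm (some false)
  rw [Fintype.sum_option, Fintype.sum_bool] at h4 h5
  have h5' : mm none • dm D eu + (mm (some true) • dm D ea + mm (some false) • dm D eb) = 0 := h5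
  rcases mu with ⟨-, mu⟩ | ⟨hcu, mu⟩
  · left
    have h7 : mm none • dm D eu ∈ W0 := by
      rw [eq_neg_of_add_eq_zero_left h5']
      exact Submodule.neg_mem _ (Submodule.add_mem _ (Submodule.smul_mem _ _ hea)
        (Submodule.smul_mem _ _ heb))
    rw [mu] at h7
    exact (Submodule.smul_mem_iff _ hzu).1 h7
  · right
    rw [mu, zero_add] at h4
    have hlab : l (-ca) + dm w ea = μ ∧ l cb + dm w eb = μ ∧
        z (-ca) * mon ζ ea + z cb * mon ζ eb = 0 := by
      rcases ma with ⟨ma1, ma2⟩ | ⟨ma1, ma2⟩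
      · rcases mb with ⟨mb1, mb2⟩ | ⟨mb1, mb2⟩
        · exact ⟨ma1, mb1, by rw [← ma2, ← mb2, h4]⟩
        · rw [ma2, mb2, add_zero] at h4
          exact absurd h4 hza
      · rcases mb with ⟨mb1, mb2⟩ | ⟨mb1, mb2⟩
        · rw [ma2, mb2, zero_add] at h4
          exact absurd h4 hzb
        · obtain ⟨o, ho⟩ := h6
          rcases o with _ | _ | _
          · exact absurd ho hcu.ne'
          · exact absurd ho mb1.ne'
          · exact absurd ho ma1.ne'
    obtain ⟨hla, hlb, hz4⟩ := hlab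
    rw [(hlneg ca hca).1] at hla
    rw [(hlneg ca hca).2] at hz4
    have hzz : z ca * mon ζ ea = z cb * mon ζ eb := by
      have h7 : z cb * mon ζ eb - z ca * mon ζ ea = 0 := by
        rw [← hz4]
        ring
      exact (sub_eq_zero.1 h7).symm
    -- the cofactor
    have hgeom : mon y eg = ∑ i ∈ Finset.range N,
        (ca * mon y ea) ^ i * (cb * mon y eb) ^ (N - 1 - i) := by
      have h7 := (Commute.all (ca * mon y ea) (cb * mon y eb)).geom_sum₂_mul N
      rw [← hv, ← hu, hg, mul_comm (mon y eu)] at h7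
      exact (mul_right_cancel₀ (hmy eu) h7).symm
    let cN : Fin N → K := fun i => ca ^ (i : ℕ) * cb ^ (N - 1 - i)
    let eN : Fin N → Fin n → ℤ := fun i => (i : ℕ) • ea + (N - 1 - i) • eb
    have hcN : ∀ i, cN i ∈ A := fun i =>
      hAm _ (h.pow hA1 hAm hca _).1 _ (h.pow hA1 hAm hcb _).1
    have hlev : ∀ i : Fin N, l (cN i) + dm w (eN i) = (N - 1) • μ := by
      intro i
      change l (ca ^ (i : ℕ) * cb ^ (N - 1 - i)) + dm w ((i : ℕ) • ea + (N - 1 - i) • eb) = _
      rw [h.lmul _ (h.pow hA1 hAm hca _).1 _ (h.pow hA1 hAm hcb _).1,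
        (h.pow hA1 hAm hca _).2.1, (h.pow hA1 hAm hcb _).2.1, dm_add, dm_nsmul', dm_nsmul']
      have h7 : (i : ℕ) • l ca + (N - 1 - i) • l cb + ((i : ℕ) • dm w ea + (N - 1 - i) • dm w eb) =
          (i : ℕ) • (l ca + dm w ea) + (N - 1 - i) • (l cb + dm w eb) := by
        rw [smul_add, smul_add]
        abel
      rw [h7, hla, hlb, ← add_smul]
      congr 1
      have := i.2
      omega
    have hval : ∀ i : Fin N, z (cN i) * mon ζ (eN i) = (z ca * mon ζ ea) ^ (N - 1) := by
      intro i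
      change z (ca ^ (i : ℕ) * cb ^ (N - 1 - i)) * mon ζ ((i : ℕ) • ea + (N - 1 - i) • eb) = _
      rw [h.zmul _ (h.pow hA1 hAm hca _).1 _ (h.pow hA1 hAm hcb _).1,
        (h.pow hA1 hAm hca _).2.2, (h.pow hA1 hAm hcb _).2.2, mon_add h.ζ0, mon_nsmul h.ζ0,
        mon_nsmul h.ζ0]
      have h7 : z ca ^ (i : ℕ) * z cb ^ (N - 1 - i) *
          (mon ζ ea ^ (i : ℕ) * mon ζ eb ^ (N - 1 - i)) =
          (z ca * mon ζ ea) ^ (i : ℕ) * (z cb * mon ζ eb) ^ (N - 1 - i) := by
        rw [mul_pow, mul_pow]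
        ring
      rw [h7, ← hzz, ← pow_add]
      congr 1
      have := i.2
      omega
    have hNκ : (N : κ) ≠ 0 := by
      intro h0
      have hcop : Nat.Coprime N p := ((Nat.Prime.coprime_iff_not_dvd hp).2 hN).symm
      obtain ⟨a', b', hab⟩ := Nat.isCoprime_iff_coprime.2 hcop
      have h7 := congrArg (Int.cast : ℤ → κ) hab
      push_cast at h7
      rw [h0, h.char hA1 p, mul_zero, mul_zero, add_zero] at h7
      exact zero_ne_one h7
    have hzab : z ca * mon ζ ea ≠ 0 := mul_ne_zero (h.z0 _ hca) (mon_ne h.ζ0 _)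
    have hS : (∑ i : Fin N, z (cN i) * mon ζ (eN i)) ≠ 0 := by
      rw [Finset.sum_congr rfl fun i _ => hval i, Finset.sum_const, Finset.card_univ,
        Fintype.card_fin, nsmul_eq_mul]
      exact mul_ne_zero hNκ (pow_ne_zero _ hzab)
    have hg1 : z (-1) * mon ζ eg ≠ 0 := mul_ne_zero (h.z0 _ (hneg 1 hA1)) (mon_ne h.ζ0 _)
    obtain ⟨ν, nn, hnn, h8, h9, h10⟩ := h.relM (J := Option (Fin N))
      (fun o => o.elim (-1) cN) (by
        rintro (_ | i)
        · exact hneg 1 hA1
        · exact hcN i)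
      (fun o => o.elim eg eN) (by
        rw [Fintype.sum_option]
        simp only [Option.elim_none, Option.elim_some]
        rw [hgeom, Finset.sum_range, neg_one_mul, neg_add_eq_zero]
        refine Finset.sum_congr rfl fun i _ => ?_
        change (ca * mon y ea) ^ (i : ℕ) * (cb * mon y eb) ^ (N - 1 - i) =
          ca ^ (i : ℕ) * cb ^ (N - 1 - i) * mon y ((i : ℕ) • ea + (N - 1 - i) • eb)
        rw [mon_add hy0, mon_nsmul hy0, mon_nsmul hy0, mul_pow, mul_pow]
        ring)
    have ng : (l (-1) + dm w eg = ν ∧ nn none = z (-1) * mon ζ eg) ∨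
      (ν < l (-1) + dm w eg ∧ nn none = 0) := hnn none
    have ni : ∀ i : Fin N, (l (cN i) + dm w (eN i) = ν ∧ nn (some i) = z (cN i) * mon ζ (eN i)) ∨
      (ν < l (cN i) + dm w (eN i) ∧ nn (some i) = 0) := fun i => hnn (some i)
    rw [Fintype.sum_option] at h8 h9
    have h9' : nn none • dm D eg + ∑ i, nn (some i) • dm D (eN i) = 0 := h9
    rcases ng with ⟨-, ng⟩ | ⟨hng, ng⟩
    · have h11 : nn none • dm D eg ∈ W0 := by
        rw [eq_neg_of_add_eq_zero_left h9']
        refine Submodule.neg_mem _ (Submodule.sum_mem _ fun i _ => Submodule.smul_mem _ _ ?_)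
        change dm D ((i : ℕ) • ea + (N - 1 - i) • eb) ∈ W0
        rw [dm_add, dm_nsmul (κ := κ), dm_nsmul (κ := κ)]
        exact Submodule.add_mem _ (Submodule.smul_mem _ _ hea) (Submodule.smul_mem _ _ heb)
      rw [ng] at h11
      exact (Submodule.smul_mem_iff _ hg1).1 h11
    · exfalso
      obtain ⟨o, ho⟩ := h10
      rcases o with _ | i
      · exact absurd ho hng.ne'
      · have hν : (N - 1) • μ = ν := by
          rw [← hlev i]
          exact ho
        have h11 : ∀ i : Fin N, nn (some i) = z (cN i) * mon ζ (eN i) := by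
          intro i
          rcases ni i with ⟨-, h12⟩ | ⟨h12, -⟩
          · exact h12
          · rw [hlev i, hν] at h12
            exact absurd h12 (lt_irrefl _)
        rw [ng, zero_add, Finset.sum_congr rfl fun i _ => h11 i] at h8
        exact hS h8

end rel

section

variable {k K : Type u} [Field k] [Field K] [Algebra k K] {m : ℕ}
  {E : Fin m → IntermediateField k K}

/-- Adding differences. -/
theorem good_diff [NeZero m] {p : ℕ} [Fact p.Prime] [CharP k p] {G : Subgroup Kˣ} {d : ℕ}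
    (hG : Good E G d) : Good E (G ⊔ Subgroup.closure (differences p G)) d := by
  classical
  intro T' hT'
  have hcK : CharP K p := charP_of_injective_algebraMap (algebraMap k K).injective p
  rw [← Subgroup.closure_eq G, ← Subgroup.closure_union] at hT'
  obtain ⟨T1, hT1, hT1'⟩ := exists_finset_closure' _ T' hT'
  rw [Subgroup.closure_eq] at hT1
  have hch : ∀ u : Kˣ, ∃ (N : ℕ) (a b v : Kˣ), a ∈ G ∧ b ∈ G ∧ v ∈ G ∧
      (u ∈ differences p G → ¬ p ∣ N ∧ (u : K) = a - b ∧ (v : K) = a ^ N - b ^ N) := by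
    intro u
    by_cases hu : u ∈ differences p G
    · obtain ⟨N, a, b, v, h1, h2, h3, h4, h5, h6⟩ := hu
      exact ⟨N, a, b, v, h2, h3, h4, fun _ => ⟨h1, h5, h6⟩⟩
    · exact ⟨0, 1, 1, 1, one_mem G, one_mem G, one_mem G, fun h => absurd h hu⟩
  choose N a b v ha hb hv huv using hch
  let T2 : Finset Kˣ := T1.filter fun u => u ∈ differences p G
  obtain ⟨n, y, hy0, hy, hyT, hyB⟩ := hG ((T1.filter fun u => u ∈ G) ∪
      (T2.image a ∪ (T2.image b ∪ T2.image v))) (by
    intro u hu
    simp only [Finset.mem_union, Finset.mem_image, Finset.mem_filter] at hu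
    rcases hu with ⟨-, h⟩ | ⟨x, -, rfl⟩ | ⟨x, -, rfl⟩ | ⟨x, -, rfl⟩
    · exact h
    · exact ha x
    · exact hb x
    · exact hv x)
  obtain ⟨n', y', φ, hy', hy'0, hφ, hφy, hZ, hyZ⟩ := exists_ext hy hy0
    (T2.image (fun u : Kˣ => (u : K)) ∪ T2.image fun u : Kˣ => (v u : K) / u) (by
    intro c hc
    simp only [Finset.mem_union, Finset.mem_image] at hc
    rcases hc with ⟨x, -, rfl⟩ | ⟨x, -, rfl⟩
    · exact x.ne_zero
    · exact div_ne_zero (v x).ne_zero x.ne_zero)
  refine ⟨n', y', hy'0, hy', ?_, ?_⟩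
  · intro u hu
    refine (Subgroup.closure_le _).2 ?_ (hT1' u hu)
    intro x hx
    rcases hT1 hx with hxG | hxd
    · exact monoGrp_mono φ hφ hφy (hyT x (Finset.mem_union_left _
        (Finset.mem_filter.2 ⟨hx, hxG⟩)))
    · refine mem_monoGrp_of_range (hZ _ (Finset.mem_union_left _ ?_))
      exact Finset.mem_image_of_mem (fun u : Kˣ => (u : K)) (Finset.mem_filter.2 ⟨hx, hxd⟩)
  · intro Γ κ W _ _ _ _ _ _ _ l z w ζ D h
    have hr := h.restrict φ hφ
    rw [hφy] at hr
    have hd := hyB Γ κ W l z _ _ _ hr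
    let W0 : Submodule κ W := Submodule.span κ (Set.range (D ∘ φ))
    have hGr : ∀ u : Kˣ, u ∈ monoGrp E y hy0 → ∃ a ∈ Prods E, ∃ e : Fin n' → ℤ,
        (u : K) = a * mon y' e ∧ dm D e ∈ W0 := by
      rintro u ⟨a, ha, e, hu⟩
      refine ⟨a, ha, Function.extend φ e 0, ?_, ?_⟩
      · rw [mon_ext hφ, hφy, hu]
      · rw [dm_ext hφ]
        refine Submodule.sum_mem _ fun j _ => ?_
        have h1 : (D ∘ φ) j ∈ W0 := Submodule.subset_span ⟨j, rfl⟩
        exact zsmul_mem h1 _
    have key : ∀ u ∈ T2, dm D (ex y' (u : K)) ∈ W0 ∧ dm D (ex y' ((v u : K) / u)) ∈ W0 := by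
      intro u hu
      obtain ⟨hN, huab, hvab⟩ := huv u (Finset.mem_filter.1 hu).2
      obtain ⟨ca, hca, ea, h1, h2⟩ := hGr (a u) (hyT _ (Finset.mem_union_right _
        (Finset.mem_union_left _ (Finset.mem_image_of_mem a hu))))
      obtain ⟨cb, hcb, eb, h3, h4⟩ := hGr (b u) (hyT _ (Finset.mem_union_right _
        (Finset.mem_union_right _ (Finset.mem_union_left _ (Finset.mem_image_of_mem b hu)))))
      obtain ⟨cv, hcv, ev, h5, h6⟩ := hGr (v u) (hyT _ (Finset.mem_union_right _
        (Finset.mem_union_right _ (Finset.mem_union_right _ (Finset.mem_image_of_mem v hu)))))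
      have hru : (u : K) ∈ Set.range y' := hZ _ (Finset.mem_union_left _
        (Finset.mem_image_of_mem (fun u : Kˣ => (u : K)) hu))
      have hrg : (v u : K) / u ∈ Set.range y' := hZ _ (Finset.mem_union_right _
        (Finset.mem_image_of_mem (fun u : Kˣ => (v u : K) / u) hu))
      refine h.diff prods_one (fun a ha b hb => prods_mul ha hb) (fun a ha => prods_neg ha) hy'0
        p (N u) hN W0 hca hcb hcv h2 h4 h6 ?_ ?_ ?_
      · rw [mon_ex hy' hru, ← h1, ← h3, huab]
      · rw [← h5, ← h1, ← h3, hvab]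
      · rw [mon_ex hy' hru, mon_ex hy' hrg, ← h5]
        field_simp
    have hle : Submodule.span κ (Set.range D) ≤ W0 := by
      rw [Submodule.span_le]
      rintro _ ⟨j, rfl⟩
      rcases hyZ j with ⟨j', rfl⟩ | hj
      · exact Submodule.subset_span ⟨j', rfl⟩
      · simp only [Finset.mem_union, Finset.mem_image] at hj
        rcases hj with ⟨x, hx, hxj⟩ | ⟨x, hx, hxj⟩
        · have h1 := (key x hx).1
          rw [hxj, dm_ex hy'] at h1
          exact h1
        · have h1 := (key x hx).2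
          rw [hxj, dm_ex hy'] at h1
          exact h1
    have hf1 : FiniteDimensional κ W0 := FiniteDimensional.span_of_finite κ (Set.finite_range _)
    exact (Submodule.finrank_mono hle).trans hd

end

end Pool.Agent.T6.H12
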