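import Pool.Agent.T6.H12.Compact

/-!
# Schön equations by compactness
-/

set_option autoImplicit false

universe u

open Pool.Agent.TH214.SD Filter

namespace Pool.Agent.T6.H12

variable {k K : Type u} [Field k] [Field K] [Algebra k K] {n : ℕ}

/-- Schön equations by compactness. -/
theorem exists_schon {c d : ℕ} (hcd : c + d = n) (A : Set K) (hA0 : ∀ a ∈ A, a ≠ 0)
    (hAm : ∀ a ∈ A, ∀ b ∈ A, a * b ∈ A) (y : Fin n → K)
    (H : ∀ (Γ κ : Type u) [AddCommGroup Γ] [LinearOrder Γ] [IsOrderedAddMonoid Γ] [Field κ]
      [IsAlgClosed κ] (l : K → Γ) (z : K → κ) (w : Fin n → Γ) (ζ : Fin n → κ)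
      (D : Fin n → Fin (d + 1) → κ), IniTop A y l z w ζ D →
      Module.finrank κ (Submodule.span κ (Set.range D)) ≤ d) :
    ∃ (h : ℕ) (u : Fin h → K) (q : ℕ) (G : Fin q → (Fin h ⊕ Fin n → ℤ) →₀ k),
      (∀ b, u b ∈ A) ∧ (∀ i, value (G i) u y = 0) ∧ SchonEquations G c := by
  classical
  by_contra hcon
  have lev := level hcd A hA0 hAm y (fun h u q G h1 h2 h3 => hcon ⟨h, u, q, G, h1, h2, h3⟩)
  choose l z w ζ D R hz hζ hR hsat using lev
  let U : Ultrafilter (Finset (Item A y)) := Ultrafilter.of atTop
  have hU : (U : Filter (Finset (Item A y))) ≤ atTop := Ultrafilter.of_le atTop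
  have hev : ∀ r : Item A y, ∀ᶠ S in (U : Filter (Finset (Item A y))), r ∈ S := by
    intro r
    apply hU
    filter_upwards [eventually_ge_atTop ({r} : Finset (Item A y))] with S hS
    exact hS (Finset.mem_singleton_self r)
  let Γ := Germ (U : Filter (Finset (Item A y))) ℤ
  let κ := Germ (U : Filter (Finset (Item A y))) (AlgebraicClosure k)
  have hac : IsAlgClosed κ := germ_isAlgClosed U
  let l' : K → Γ := fun a => ((fun S => l S a : _ → ℤ) : Γ)
  let z' : K → κ := fun a => ((fun S => z S a : _ → AlgebraicClosure k) : κ)
  let w' : Fin n → Γ := fun j => ((fun S => w S j : _ → ℤ) : Γ)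
  let ζ' : Fin n → κ := fun j => ((fun S => ζ S j : _ → AlgebraicClosure k) : κ)
  let D' : Fin n → Fin (d + 1) → κ := fun j a =>
    ((fun S => D S j a : _ → AlgebraicClosure k) : κ)
  have hne : ∀ f : Finset (Item A y) → AlgebraicClosure k, (∀ S, f S ≠ 0) →
      (f : κ) ≠ 0 := by
    intro f hf h
    have h1 : (f : κ) = ((0 : Finset (Item A y) → AlgebraicClosure k) : κ) := h
    rw [Germ.coe_eq] at h1
    obtain ⟨S, hS⟩ := h1.exists
    exact hf S hS
  have hIni : IniTop A y l' z' w' ζ' D' := by
    refine ⟨fun a _ => hne _ fun S => hz S a, fun j => hne _ fun S => hζ S j, ?_, ?_, ?_⟩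
    · intro a ha b hb
      change ((fun S => l S (a * b) : _ → ℤ) : Γ) = ((fun S => l S a + l S b : _ → ℤ) : Γ)
      rw [Germ.coe_eq]
      filter_upwards [hev (Sum.inr ⟨(a, b), ha, hb⟩)] with S hS
      exact (hsat S _ hS).1
    · intro a ha b hb
      change ((fun S => z S (a * b) : _ → AlgebraicClosure k) : κ) =
        ((fun S => z S a * z S b : _ → AlgebraicClosure k) : κ)
      rw [Germ.coe_eq]
      filter_upwards [hev (Sum.inr ⟨(a, b), ha, hb⟩)] with S hS
      exact (hsat S _ hS).2
    · intro L hLA hL0 μ
      induction μ using Germ.inductionOn with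
      | _ m =>
      intro hμ
      have hwt : ∀ q : K × (Fin n → ℤ), l' q.1 + dm w' q.2 =
          ((fun S => l S q.1 + dm (w S) q.2 : _ → ℤ) : Γ) := by
        intro q
        have h1 := germ_dm U (fun S => w S) q.2
        rw [show dm w' q.2 = _ from h1]
        rfl
      have hmon : ∀ q : K × (Fin n → ℤ), z' q.1 * mon ζ' q.2 =
          ((fun S => z S q.1 * mon (ζ S) q.2 : _ → AlgebraicClosure k) : κ) := by
        intro q
        have h1 := germ_mon U (fun S => ζ S) q.2
        rw [show mon ζ' q.2 = _ from h1]
        rfl
      have hμ' : ∀ᶠ S in (U : Filter (Finset (Item A y))), ∀ q ∈ L,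
          m S ≤ l S q.1 + dm (w S) q.2 := by
        have h1 : ∀ᶠ S in (U : Filter (Finset (Item A y))), ∀ q ∈ L.toFinset,
            m S ≤ l S q.1 + dm (w S) q.2 := by
          rw [Filter.eventually_all_finset]
          intro q hq
          have h2 := hμ q (List.mem_toFinset.1 hq)
          rw [hwt, Germ.coe_le] at h2
          exact h2
        filter_upwards [h1] with S hS q hq
        exact hS q (List.mem_toFinset.2 hq)
      have hall : ∀ᶠ S in (U : Filter (Finset (Item A y))),
          (L.map fun q => if l S q.1 + dm (w S) q.2 = m S then z S q.1 * mon (ζ S) q.2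
            else 0).sum = 0 ∧
          (L.map fun q => if l S q.1 + dm (w S) q.2 = m S then
            (z S q.1 * mon (ζ S) q.2) • dm (D S) q.2 else 0).sum = 0 := by
        filter_upwards [hev (Sum.inl ⟨L, hLA, hL0⟩), hμ'] with S hS hS'
        exact hsat S _ hS (m S) hS'
      constructor
      · have h1 : (L.map fun q => if l' q.1 + dm w' q.2 = (m : Γ) then z' q.1 * mon ζ' q.2
            else 0).sum = ((fun S => (L.map fun q => if l S q.1 + dm (w S) q.2 = m S then
              z S q.1 * mon (ζ S) q.2 else 0).sum : _ → AlgebraicClosure k) : κ) := by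
          rw [← germ_list_sum U L]
          refine congrArg List.sum (List.map_congr_left fun q hq => ?_)
          rw [hwt, hmon, germ_ite]
        rw [h1]
        change _ = ((0 : Finset (Item A y) → AlgebraicClosure k) : κ)
        rw [Germ.coe_eq]
        filter_upwards [hall] with S hS
        exact hS.1
      · funext a
        have h0 : ∀ (V : Type u) [AddCommMonoid V] (f : K × (Fin n → ℤ) → Fin (d + 1) → V),
            (L.map f).sum a = (L.map fun q => f q a).sum := by
          intro V _ f
          have h1 := map_list_sum (Pi.evalAddMonoidHom (fun _ : Fin (d + 1) => V) a) (L.map f)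
          rw [List.map_map] at h1
          exact h1
        rw [h0]
        have h1 : (L.map fun q => (if l' q.1 + dm w' q.2 = (m : Γ) then
            (z' q.1 * mon ζ' q.2) • dm D' q.2 else 0) a).sum =
            ((fun S => (L.map fun q => (if l S q.1 + dm (w S) q.2 = m S then
              (z S q.1 * mon (ζ S) q.2) • dm (D S) q.2 else 0) a).sum :
                _ → AlgebraicClosure k) : κ) := by
          rw [← germ_list_sum U L]
          refine congrArg List.sum (List.map_congr_left fun q hq => ?_)
          have h2 : (dm D' q.2) a = ((fun S => (dm (D S) q.2) a : _ → AlgebraicClosure k) : κ) := by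
            have h3 := germ_dm U (fun S j => D S j a) q.2
            have h4 : (dm D' q.2) a = dm (fun j => D' j a) q.2 := by
              unfold dm
              rw [Finset.sum_apply]
              rfl
            have h5 : (fun S => (dm (D S) q.2) a : _ → AlgebraicClosure k) =
                fun S => dm (fun j => D S j a) q.2 := by
              funext S
              unfold dm
              rw [Finset.sum_apply]
              rfl
            rw [h4, h5]
            exact h3
          have h6 : (if l' q.1 + dm w' q.2 = (m : Γ) then
              (z' q.1 * mon ζ' q.2) • dm D' q.2 else 0) a =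
              if l' q.1 + dm w' q.2 = (m : Γ) then
              (z' q.1 * mon ζ' q.2) * (dm D' q.2) a else 0 := by
            split_ifs <;> rfl
          rw [h6, h2, hwt, hmon]
          have h7 := germ_ite U (fun S => l S q.1 + dm (w S) q.2) m
            (fun S => (z S q.1 * mon (ζ S) q.2) * (dm (D S) q.2) a)
          refine h7.trans ?_
          congr 1
          funext S
          split_ifs <;> rfl
        rw [h1]
        change _ = ((0 : Finset (Item A y) → AlgebraicClosure k) : κ)
        rw [Germ.coe_eq]
        filter_upwards [hall] with S hS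
        have h2 := congrFun hS.2 a
        rw [h0] at h2
        exact h2
  have hfin := H Γ κ l' z' w' ζ' D' hIni
  have htop : Submodule.span κ (Set.range D') = ⊤ := by
    rw [eq_top_iff]
    intro v _
    have h1 : v = ∑ a, v a • (Pi.single a 1 : Fin (d + 1) → κ) := by
      conv_lhs => rw [← Finset.univ_sum_single v]
      refine Finset.sum_congr rfl fun j _ => ?_
      rw [← Pi.single_smul, smul_eq_mul, mul_one]
    rw [h1]
    refine Submodule.sum_mem _ fun a _ => Submodule.smul_mem _ _ ?_
    have h2 : (Pi.single a 1 : Fin (d + 1) → κ) =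
        ∑ j, ((fun S => R S a j : _ → AlgebraicClosure k) : κ) • D' j := by
      funext b
      rw [Finset.sum_apply]
      have h3 : (∑ j, (((fun S => R S a j : _ → AlgebraicClosure k) : κ) • D' j) b) =
          ((fun S => ∑ j, R S a j * D S j b : _ → AlgebraicClosure k) : κ) := by
        have h4 : (fun S => ∑ j, R S a j * D S j b : _ → AlgebraicClosure k) =
            ∑ j, (fun S => R S a j * D S j b : _ → AlgebraicClosure k) := by
          funext S
          rw [Finset.sum_apply]
        rw [h4]
        exact (map_sum (Germ.coeRingHom (U : Filter (Finset (Item A y))))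
          (fun j => (fun S => R S a j * D S j b : _ → AlgebraicClosure k)) Finset.univ).symm
      rw [h3]
      have h5 : (fun S => ∑ j, R S a j * D S j b : _ → AlgebraicClosure k) =
          fun _ => (Pi.single a 1 : Fin (d + 1) → AlgebraicClosure k) b := by
        funext S
        rw [← hR S a, Finset.sum_apply]
        rfl
      rw [h5]
      by_cases hab : b = a
      · subst hab
        rw [Pi.single_eq_same, Pi.single_eq_same]
        rfl
      · rw [Pi.single_eq_of_ne hab, Pi.single_eq_of_ne hab]
        rfl
    rw [h2]
    exact Submodule.sum_mem _ fun j _ => Submodule.smul_mem _ _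
      (Submodule.subset_span ⟨j, rfl⟩)
  rw [htop, finrank_top, Module.finrank_fin_fun] at hfin
  omega

end Pool.Agent.T6.H12
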