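import Pool.Agent.T6.H12.Indep
import Pool.Agent.T6.H12.Ultra

/-!
# The criterion for the existence of resolutions
-/

set_option autoImplicit false

universe u

open Pool.Agent.TH214.SD Pool.Agent.TH188.VT Pool.Agent.W558 AlgebraicGeometry
  CategoryTheory

namespace Pool.Agent.T6.H12

variable {k K : Type u} [Field k] [Field K] [Algebra k K] {m n d : ℕ}
  {E : Fin m → IntermediateField k K}

/-- The valuative criterion for the existence of resolutions. -/
theorem resolvable_of_bound {p : ℕ} [Fact p.Prime] [PerfectField k] [CharP k p]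
    (hE : AreIndependentSurfaceFields E) {y : Fin n → K} (hy0 : ∀ j, y j ≠ 0)
    (hgen : IntermediateField.adjoin k (Set.range y ∪ ⋃ i, (E i : Set K)) = ⊤)
    (htr : Algebra.trdeg (IntermediateField.adjoin k (⋃ i, (E i : Set K))) K = (d : Cardinal.{u}))
    (H : ∀ (Γ κ : Type u) [AddCommGroup Γ] [LinearOrder Γ] [IsOrderedAddMonoid Γ] [Field κ]
      [IsAlgClosed κ] (l : K → Γ) (z : K → κ) (w : Fin n → Γ) (ζ : Fin n → κ)
      (D : Fin n → Fin (d + 1) → κ), IniTop (Prods E) y l z w ζ D →
      Module.finrank κ (Submodule.span κ (Set.range D)) ≤ d)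
    (A : Type u) [CommRing A] [IsDomain A] [Algebra k A] [Algebra.FiniteType k A] [Algebra A K]
    [IsScalarTower k A K] [IsFractionRing A K] (S : Finset A)
    (hS : ∀ a ∈ S, IsProduct E y (algebraMap A K a))
    (hA : ∀ a : A, IsIntegral (Algebra.adjoin k (S : Set A)) a) :
    IsResolvableVariety (X := Spec (CommRingCat.of A))
      (Spec.map (CommRingCat.ofHom (algebraMap k A))) := by
  classical
  let F := IntermediateField.adjoin k (⋃ i, (E i : Set K))
  have hgenF : IntermediateField.adjoin F (Set.range y) = ⊤ := by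
    rw [eq_top_iff]
    intro b _
    have h1 : IntermediateField.adjoin k (Set.range y ∪ ⋃ i, (E i : Set K)) ≤
        (IntermediateField.adjoin F (Set.range y)).restrictScalars k := by
      rw [IntermediateField.adjoin_le_iff]
      rintro c (hc | hc)
      · exact IntermediateField.subset_adjoin F _ hc
      · have h2 : c ∈ F := IntermediateField.subset_adjoin k _ hc
        exact (IntermediateField.adjoin F (Set.range y)).algebraMap_mem ⟨c, h2⟩
    rw [hgen] at h1
    exact h1 (show b ∈ (⊤ : IntermediateField k K) from trivial)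
  obtain ⟨hdn, ρ, hρ⟩ := exists_rho (d := d) y hgenF htr
  obtain ⟨h, u, q, G, hu, hG1, hG2⟩ := exists_schon (k := k) (c := n - d) (d := d) (by omega)
    (Prods E) (fun a ha => prods_ne ha) (fun a ha b hb => prods_mul ha hb) y H
  have hK : IsInseparableCover (r := 0) (s := 0) (o := 0) E p (n - d) u y G ρ
      (fun t => Fin.elim0 t) (fun t => Fin.elim0 t) (fun t => Fin.elim0 t) := by
    refine ⟨⟨hE, ?_, hy0, hG1, hG2, by omega, hρ⟩, ?_, ?_, ?_, ?_⟩
    · intro a
      refine ⟨prods_ne (hu a), ?_⟩
      obtain ⟨v, -, hv⟩ := hu a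
      exact ⟨v, hv⟩
    · intro l z hz hv t
      exact Fin.elim0 t
    · intro i t
      exact Fin.elim0 t
    · intro j
      exact Fin.elim0 j
    · rw [← hgen]
      congr 1
      rw [Set.range_eq_empty, Set.empty_union]
  exact resolvable (fun S _ v hv => insep_models hK S v hv) A S hS hA

end Pool.Agent.T6.H12
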