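import Pool.Agent.T6.H12.Bound

/-!
# Relations between the derivatives
-/

set_option autoImplicit false
set_option linter.unusedSectionVars false

universe u

namespace Pool.Agent.T6.H12

section rel

variable {K : Type u} [Field K] {n : ℕ} {Γ κ W : Type*} [AddCommGroup Γ] [LinearOrder Γ] [Field κ]
    [AddCommGroup W] [Module κ W] {A : Set K} {y : Fin n → K} {l : K → Γ} {z : K → κ}
    {w : Fin n → Γ} {ζ : Fin n → κ} {D : Fin n → W}

/-- A relation between monomials gives a relation between derivatives. -/
lemma IniTop.exists_rel (h : IniTop A y l z w ζ D) {J : Type} [Fintype J] [Nonempty J] (c : J → K)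
    (hc : ∀ j, c j ∈ A) (e : J → Fin n → ℤ) (h0 : ∑ j, c j * mon y (e j) = 0) :
    ∃ m : J → κ, ∑ j, m j = 0 ∧ ∑ j, m j • dm D (e j) = 0 ∧ ∃ j, m j ≠ 0 := by
  classical
  obtain ⟨jm, -, hjm⟩ := Finset.exists_min_image (Finset.univ : Finset J)
    (fun j => l (c j) + dm w (e j)) Finset.univ_nonempty
  have h1 := h.rel (Finset.univ.toList.map fun j : J => (c j, e j))
    (by
      intro q hq
      obtain ⟨j, -, rfl⟩ := List.mem_map.1 hq
      exact hc j) (by
      rw [List.map_map, Finset.sum_map_toList]
      exact h0) (l (c jm) + dm w (e jm)) (by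
      intro q hq
      obtain ⟨j, -, rfl⟩ := List.mem_map.1 hq
      exact hjm j (Finset.mem_univ j))
  rw [List.map_map, List.map_map, Finset.sum_map_toList, Finset.sum_map_toList] at h1
  refine ⟨fun j => if l (c j) + dm w (e j) = l (c jm) + dm w (e jm) then
    z (c j) * mon ζ (e j) else 0, h1.1, ?_, jm, ?_⟩
  · rw [← h1.2]
    refine Finset.sum_congr rfl fun j _ => ?_
    simp only [Function.comp_apply]
    split_ifs
    · rfl
    · exact zero_smul _ _
  · dsimp only
    rw [if_pos rfl]
    exact mul_ne_zero (h.z0 _ (hc jm)) (mon_ne h.ζ0 _)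

end rel

section block

variable {E K κ Γ W : Type*} {ι : Type} [Field E] [Field K] [Algebra E K] [Field κ]
  [AddCommGroup Γ] [LinearOrder Γ] [IsOrderedAddMonoid Γ] [AddCommGroup W] [Module κ W]
  [Fintype ι] {y : ι → K} {l : E → Γ} {z : E → κ} {w : ι → Γ} {ζ : ι → κ} {D : ι → W}

lemma block_aux (h : Ini y l z w ζ D) (T : Finset ι) :
    ∃ B : Finset ι, B ⊆ T ∧
      B.card ≤ Module.finrank E (Submodule.span E (y '' (T : Set _))) ∧
      ∀ i ∈ T, ∃ γ : ι → κ, (∀ j, γ j ≠ 0 → j ∈ B) ∧ ∑ j, γ j = 1 ∧ D i = ∑ j, γ j • D j := by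
  classical
  induction T using Finset.strongInduction with
  | H T ih =>
    by_cases hli : LinearIndependent E (fun j : T => y j)
    · refine ⟨T, subset_rfl, ?_, fun i hi => ⟨Pi.single i 1, ?_, ?_, ?_⟩⟩
      · have h1 := finrank_span_eq_card hli
        rw [Fintype.card_coe] at h1
        rw [Set.image_eq_range]
        exact h1.ge
      · intro j hj
        by_cases hji : j = i
        · exact hji ▸ hi
        · exact absurd (Pi.single_eq_of_ne hji _) hj
      · exact Fintype.sum_pi_single' i 1
      · rw [Finset.sum_eq_single i]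
        · rw [Pi.single_eq_same, one_smul]
        · intro j _ hj
          rw [Pi.single_eq_of_ne hj, zero_smul]
        · intro h; exact absurd (Finset.mem_univ _) h
    · rw [Fintype.not_linearIndependent_iff] at hli
      obtain ⟨g, hg, j0, hj0⟩ := hli
      let J : Type := {x : T // g x ≠ 0}
      let e : ι → ι → ℤ := fun i => Pi.single i 1
      have hme : ∀ j, mon y (e j) = y j := fun j => mon_single j
      have hrel : ∑ j : J, algebraMap E K (g j.1) * mon y (e j.1) = 0 := by
        rw [← hg]
        have h1 : ∑ x : T, g x • y x = ∑ x ∈ Finset.univ.filter (fun x => g x ≠ 0), g x • y x := by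
          symm
          refine Finset.sum_filter_of_ne fun x _ hx h0 => hx ?_
          rw [h0, zero_smul]
        rw [h1, Finset.sum_subtype (Finset.univ.filter fun x => g x ≠ 0)
          (p := fun x => g x ≠ 0) (F := inferInstance) (by simp)]
        refine Finset.sum_congr rfl fun j _ => ?_
        rw [hme, Algebra.smul_def]
      obtain ⟨jm, -, hjm⟩ := Finset.exists_min_image (Finset.univ : Finset J)
        (fun j => l (g j.1) + dm w (e j.1)) ⟨⟨j0, hj0⟩, Finset.mem_univ _⟩
      obtain ⟨h1, h2⟩ := h.rel J (fun j => g j.1) (fun j => e j.1) (fun j => j.2) hrel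
        (l (g jm.1) + dm w (e jm.1)) (fun j => hjm j (Finset.mem_univ _))
      let i1 : ι := jm.1.1
      have hi1T : i1 ∈ T := jm.1.2
      obtain ⟨B, hB1, hB2, hB3⟩ := ih (T.erase i1) (Finset.erase_ssubset hi1T)
      refine ⟨B, hB1.trans (Finset.erase_subset _ _), hB2.trans ?_, ?_⟩
      · have hfin : FiniteDimensional E (Submodule.span E (y '' (T : Set ι))) :=
          FiniteDimensional.span_of_finite E ((Finset.finite_toSet _).image _)
        refine Submodule.finrank_mono (Submodule.span_mono (Set.image_mono ?_))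
        intro j hj
        exact (Finset.mem_erase.1 (Finset.mem_coe.1 hj)).2
      · -- coefficients
        let mm : J → κ := fun j => if l (g j.1) + dm w (e j.1) = l (g jm.1) + dm w (e jm.1) then
          z (g j.1) * mon ζ (e j.1) else 0
        have hmm : mm jm ≠ 0 := by
          change (if l (g jm.1) + dm w (e jm.1) = l (g jm.1) + dm w (e jm.1) then
            z (g jm.1) * mon ζ (e jm.1) else 0) ≠ 0
          rw [if_pos rfl]
          exact mul_ne_zero (h.z0 _ jm.2) (mon_ne h.ζ0 _)
        have h1' : mm jm + ∑ j ∈ Finset.univ.erase jm, mm j = 0 := by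
          rw [Finset.add_sum_erase _ _ (Finset.mem_univ jm)]
          exact h1
        have h2' : mm jm • D i1 + ∑ j ∈ Finset.univ.erase jm, mm j • D j.1.1 = 0 := by
          have h3 : mm jm • D i1 = (fun j : J => mm j • D j.1.1) jm := rfl
          rw [h3, Finset.add_sum_erase _ (fun j : J => mm j • D j.1.1) (Finset.mem_univ jm)]
          rw [← h2]
          refine Finset.sum_congr rfl fun j _ => ?_
          have h4 : dm D (e j.1) = D j.1.1 := dm_single _
          rw [h4]
          change (if l (g j.1) + dm w (e j.1) = l (g jm.1) + dm w (e jm.1) then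
            z (g j.1) * mon ζ (e j.1) else 0) • D j.1.1 = _
          split_ifs
          · rfl
          · exact zero_smul _ _
        intro i hi
        by_cases hii : i = i1
        · have hJ : ∀ j : J, j ≠ jm → (j.1.1 : ι) ∈ T.erase i1 := fun j hj =>
            Finset.mem_erase.2 ⟨fun h0 => hj (Subtype.ext (Subtype.ext h0)), j.1.2⟩
          have hch : ∀ j : J, ∃ γ : ι → κ, j ≠ jm → (∀ j, γ j ≠ 0 → j ∈ B) ∧ ∑ j, γ j = 1 ∧
              D j.1.1 = ∑ j, γ j • D j := by
            intro j
            by_cases hj : j = jm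
            · exact ⟨0, fun h0 => absurd hj h0⟩
            · obtain ⟨γ, hγ⟩ := hB3 _ (hJ j hj)
              exact ⟨γ, fun _ => hγ⟩
          choose γ hγ using hch
          refine ⟨fun b => ∑ j ∈ Finset.univ.erase jm, (-(mm jm)⁻¹ * mm j) * γ j b, ?_, ?_, ?_⟩
          · intro b hb
            obtain ⟨j, hj, hne⟩ := Finset.exists_ne_zero_of_sum_ne_zero hb
            exact (hγ j (Finset.mem_erase.1 hj).1).1 b (right_ne_zero_of_mul hne)
          · rw [Finset.sum_comm]
            have h3 : ∑ j ∈ Finset.univ.erase jm, ∑ b, (-(mm jm)⁻¹ * mm j) * γ j b =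
                ∑ j ∈ Finset.univ.erase jm, (-(mm jm)⁻¹ * mm j) := by
              refine Finset.sum_congr rfl fun j hj => ?_
              rw [← Finset.mul_sum, (hγ j (Finset.mem_erase.1 hj).1).2.1, mul_one]
            rw [h3, ← Finset.mul_sum, (eq_neg_of_add_eq_zero_right h1'), neg_mul_neg,
              inv_mul_cancel₀ hmm]
          · rw [hii]
            have h3 : ∑ b, (∑ j ∈ Finset.univ.erase jm, (-(mm jm)⁻¹ * mm j) * γ j b) • D b =
                -(mm jm)⁻¹ • ∑ j ∈ Finset.univ.erase jm, mm j • D j.1.1 := by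
              rw [Finset.smul_sum]
              simp_rw [Finset.sum_smul]
              rw [Finset.sum_comm]
              refine Finset.sum_congr rfl fun j hj => ?_
              rw [(hγ j (Finset.mem_erase.1 hj).1).2.2, Finset.smul_sum, Finset.smul_sum]
              refine Finset.sum_congr rfl fun b _ => ?_
              rw [smul_smul, smul_smul, mul_assoc]
            rw [h3, eq_neg_of_add_eq_zero_right h2', smul_neg, neg_smul, neg_neg,
              inv_smul_smul₀ hmm]
        · exact hB3 i (Finset.mem_erase.2 ⟨hii, hi⟩)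

lemma sum_supp {ι N : Type*} [Fintype ι] [AddCommMonoid N] (B : Finset ι) (F : ι → N)
    (hF : ∀ j, F j ≠ 0 → j ∈ B) : ∑ j, F j = ∑ j : B, F j := by
  rw [Finset.sum_coe_sort B F]
  exact (Finset.sum_subset (Finset.subset_univ B) fun j _ hj => by
    by_contra h0
    exact hj (hF j h0)).symm

/-- The derivatives of the elements of a linear space. -/
theorem block_ini (h : Ini y l z w ζ D) {M : Submodule E K} [FiniteDimensional E M]
    (hy : ∀ i, y i ∈ M) :
    ∃ δ : Fin (Module.finrank E M) → W, ∀ i, ∃ γ : Fin (Module.finrank E M) → κ,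
      ∑ b, γ b = 1 ∧ D i = ∑ b, γ b • δ b := by
  classical
  obtain ⟨B, -, hB2, hB3⟩ := block_aux h Finset.univ
  have h2 : Submodule.span E (y '' ((Finset.univ : Finset ι) : Set ι)) ≤ M := by
    rw [Submodule.span_le]
    rintro _ ⟨j, -, rfl⟩
    exact hy j
  have h3 := hB2.trans (Submodule.finrank_mono h2)
  obtain ⟨f⟩ : Nonempty (B ↪ Fin (Module.finrank E M)) := by
    rw [Function.Embedding.nonempty_iff_card_le, Fintype.card_coe, Fintype.card_fin]
    exact h3
  refine ⟨Function.extend f (fun b => D b) 0, fun i => ?_⟩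
  obtain ⟨γ, hγ1, hγ2, hγ3⟩ := hB3 i (Finset.mem_univ i)
  refine ⟨Function.extend f (fun b => γ b) 0, ?_, ?_⟩
  · rw [← hγ2, sum_supp B γ hγ1]
    refine (Fintype.sum_of_injective f f.injective _ _ ?_ ?_).symm
    · intro q hq
      rw [Function.extend_apply' _ _ _ (fun ⟨i, hi⟩ => hq ⟨i, hi⟩), Pi.zero_apply]
    · intro b
      rw [f.injective.extend_apply]
  · rw [hγ3, sum_supp B (fun j => γ j • D j) fun j hj => hγ1 j fun h0 => hj (by
      simp only [h0, zero_smul])]
    refine Fintype.sum_of_injective f f.injective _ _ ?_ ?_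
    · intro q hq
      rw [Function.extend_apply' _ _ _ (fun ⟨i, hi⟩ => hq ⟨i, hi⟩), Pi.zero_apply, zero_smul]
    · intro b
      rw [f.injective.extend_apply, f.injective.extend_apply]

end block

end Pool.Agent.T6.H12
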