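import Pool.Agent.T6.H12.Ini

/-!
# Initial data of linear forms
-/

set_option autoImplicit false
set_option linter.unusedSectionVars false

namespace Pool.Agent.T6.H12

section

variable {E K κ Γ W : Type*} {ι : Type} [Field E] [Field K] [Algebra E K] [Field κ]
  [AddCommGroup Γ] [LinearOrder Γ] [IsOrderedAddMonoid Γ] [AddCommGroup W] [Module κ W]
  [Fintype ι] {y : ι → K} {l : E → Γ} {z : E → κ} {w : ι → Γ} {ζ : ι → κ} {D : ι → W}

/-- The vectors `1` and `y i`. -/
def ov (y : ι → K) : Option ι → K := fun j => j.elim 1 y

lemma lin_aux (h : Ini y l z w ζ D) (T : Finset ι) :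
    ∃ B : Finset ι, B ⊆ T ∧
      B.card + 1 ≤ Module.finrank E (Submodule.span E (ov y '' (Finset.insertNone T : Set _))) ∧
      ∀ i ∈ T, D i ∈ Submodule.span κ (D '' (B : Set ι)) := by
  classical
  induction T using Finset.strongInduction with
  | H T ih =>
    by_cases hli : LinearIndependent E (fun j : (Finset.insertNone T : Finset (Option ι)) => ov y j)
    · refine ⟨T, subset_rfl, ?_, fun i hi => Submodule.subset_span ⟨i, hi, rfl⟩⟩
      have h1 := finrank_span_eq_card hli
      rw [Fintype.card_coe, Finset.card_insertNone] at h1
      rw [Set.image_eq_range]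
      exact h1.ge
    · rw [Fintype.not_linearIndependent_iff] at hli
      obtain ⟨g, hg, j0, hj0⟩ := hli
      let J : Type := {x : (Finset.insertNone T : Finset (Option ι)) // g x ≠ 0}
      let e : Option ι → ι → ℤ := fun j => j.elim 0 fun i => Pi.single i 1
      have hme : ∀ j, mon y (e j) = ov y j := by
        rintro (_ | i)
        · exact mon_zero
        · exact mon_single i
      have hrel : ∑ j : J, algebraMap E K (g j.1) * mon y (e j.1) = 0 := by
        rw [← hg]
        have h1 : ∑ x : (Finset.insertNone T : Finset (Option ι)), g x • ov y x =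
            ∑ x ∈ Finset.univ.filter (fun x => g x ≠ 0), g x • ov y x := by
          symm
          refine Finset.sum_filter_of_ne fun x _ hx h0 => hx ?_
          rw [h0, zero_smul]
        rw [h1, Finset.sum_subtype (Finset.univ.filter fun x => g x ≠ 0)
          (p := fun x => g x ≠ 0) (F := inferInstance) (by simp)]
        refine Finset.sum_congr rfl fun j _ => ?_
        rw [hme, Algebra.smul_def]
      obtain ⟨jm, -, hjm⟩ := Finset.exists_min_image (Finset.univ : Finset J)
        (fun j => l (g j.1) + dm w (e j.1)) ⟨⟨j0, hj0⟩, Finset.mem_univ _⟩
      obtain ⟨h1, h2⟩ := h.rel J (fun j => g j.1) (fun j => e j.1) (fun j => j.2) hrel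
        (l (g jm.1) + dm w (e jm.1)) (fun j => hjm j (Finset.mem_univ _))
      obtain ⟨j1, hj1, i1, hi1⟩ : ∃ j1 : J, l (g j1.1) + dm w (e j1.1) =
          l (g jm.1) + dm w (e jm.1) ∧ ∃ i1, (j1.1 : Option ι) = some i1 := by
        by_contra hcon
        push Not at hcon
        have h3 : ∀ j : J, l (g j.1) + dm w (e j.1) = l (g jm.1) + dm w (e jm.1) → j = jm := by
          intro j hj
          have h4 : (j.1 : Option ι) = none := by
            rcases hh : (j.1 : Option ι) with _ | i
            · rfl
            · exact absurd hh (hcon j hj i)
          have h5 : (jm.1 : Option ι) = none := by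
            rcases hh : (jm.1 : Option ι) with _ | i
            · rfl
            · exact absurd hh (hcon jm rfl i)
          exact Subtype.ext (Subtype.ext (h4.trans h5.symm))
        rw [Finset.sum_eq_single jm] at h1
        · rw [if_pos rfl] at h1
          exact mul_ne_zero (h.z0 _ jm.2) (mon_ne h.ζ0 _) h1
        · intro j _ hj
          exact if_neg fun h4 => hj (h3 j h4)
        · intro h4; exact absurd (Finset.mem_univ _) h4
      have hi1T : i1 ∈ T := by
        have h3 := j1.1.2
        rw [hi1, Finset.some_mem_insertNone] at h3
        exact h3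
      obtain ⟨B, hB1, hB2, hB3⟩ := ih (T.erase i1) (Finset.erase_ssubset hi1T)
      refine ⟨B, hB1.trans (Finset.erase_subset _ _), hB2.trans ?_, ?_⟩
      · have hfin : FiniteDimensional E
            (Submodule.span E (ov y '' (Finset.insertNone T : Set (Option ι)))) :=
          FiniteDimensional.span_of_finite E ((Finset.finite_toSet _).image _)
        refine Submodule.finrank_mono (Submodule.span_mono (Set.image_mono ?_))
        intro j hj
        rcases j with _ | i
        · simp
        · simp only [Finset.mem_coe, Finset.some_mem_insertNone, Finset.mem_erase] at hj ⊢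
          exact hj.2
      · have hS : ∀ i ∈ T, i ≠ i1 → D i ∈ Submodule.span κ (D '' (B : Set ι)) := fun i hi hne =>
          hB3 i (Finset.mem_erase.2 ⟨hne, hi⟩)
        intro i hi
        by_cases hii : i = i1
        · subst hii
          rw [← Finset.add_sum_erase _ _ (Finset.mem_univ j1), if_pos hj1] at h2
          have h3 : dm D (e j1.1) = D i := by
            rw [hi1]
            exact dm_single i
          rw [h3] at h2
          have h4 : (z (g j1.1) * mon ζ (e j1.1)) • D i ∈
              Submodule.span κ (D '' (B : Set ι)) := by
            rw [eq_neg_of_add_eq_zero_left h2]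
            refine Submodule.neg_mem _ (Submodule.sum_mem _ fun j hj => ?_)
            split_ifs with h5
            · refine Submodule.smul_mem _ _ ?_
              rcases hh : (j.1 : Option ι) with _ | i'
              · have h6 : dm D (e none) = 0 := dm_zero
                rw [h6]
                exact Submodule.zero_mem _
              · have h6 : dm D (e (some i')) = D i' := dm_single i'
                rw [h6]
                have h7 := j.1.2
                rw [hh, Finset.some_mem_insertNone] at h7
                refine hS i' h7 ?_
                rintro rfl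
                refine (Finset.mem_erase.1 hj).1 (Subtype.ext (Subtype.ext ?_))
                rw [hh, hi1]
            · exact Submodule.zero_mem _
          exact (Submodule.smul_mem_iff _ (mul_ne_zero (h.z0 _ j1.2) (mon_ne h.ζ0 _))).1 h4
        · exact hS i hi hii

/-- The bound for the derivatives of linear forms. -/
theorem lin_ini (h : Ini y l z w ζ D) {d : ℕ} {M : Submodule E K} [FiniteDimensional E M]
    (hM : Module.finrank E M ≤ d + 1) (h1 : 1 ∈ M) (hy : ∀ i, y i ∈ M) :
    Module.finrank κ (Submodule.span κ (Set.range D)) ≤ d := by
  classical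
  obtain ⟨B, -, hB2, hB3⟩ := lin_aux h Finset.univ
  have h2 : Submodule.span E (ov y '' (Finset.insertNone (Finset.univ : Finset ι) :
      Set (Option ι))) ≤ M := by
    rw [Submodule.span_le]
    rintro _ ⟨j, -, rfl⟩
    rcases j with _ | i
    · exact h1
    · exact hy i
  have h3 := hB2.trans ((Submodule.finrank_mono h2).trans hM)
  have h4 : Submodule.span κ (Set.range D) ≤ Submodule.span κ (D '' (B : Set ι)) := by
    rw [Submodule.span_le]
    rintro _ ⟨i, rfl⟩
    exact hB3 i (Finset.mem_univ i)
  have hfin : FiniteDimensional κ (Submodule.span κ (D '' (B : Set ι))) :=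
    FiniteDimensional.span_of_finite κ ((Finset.finite_toSet _).image _)
  refine (Submodule.finrank_mono h4).trans ?_
  have h5 := finrank_span_finset_le_card (R := κ) (B.image D)
  rw [Finset.coe_image] at h5
  have h6 : Module.finrank κ (Submodule.span κ (D '' (B : Set ι))) ≤ (B.image D).card := h5
  have h7 := Finset.card_image_le (s := B) (f := D)
  omega

end

end Pool.Agent.T6.H12
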