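import Mathlib

/-!
# A non-archimedean theorem of Rolle
-/

set_option autoImplicit false

open Polynomial

namespace Pool.Agent.T6.H12

section

variable {L : Type*} [Field L] {Γ : Type*} [LinearOrderedCommGroupWithZero Γ] (v : Valuation L Γ)

/-- Polynomials congruent to one. -/
def Small (P : L[X]) : Prop := P.coeff 0 = 1 ∧ ∀ i, 0 < i → v (P.coeff i) < 1

variable {v}

lemma small_le {P : L[X]} (hP : Small v P) (i : ℕ) : v (P.coeff i) ≤ 1 := by
  rcases Nat.eq_zero_or_pos i with rfl | h
  · rw [hP.1, map_one]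
  · exact (hP.2 i h).le

lemma Small.one : Small v (1 : L[X]) := by
  refine ⟨by simp, fun i hi => ?_⟩
  rw [coeff_one, if_neg hi.ne', map_zero]
  exact zero_lt_one

lemma Small.mul {P Q : L[X]} (hP : Small v P) (hQ : Small v Q) : Small v (P * Q) := by
  refine ⟨by rw [mul_coeff_zero, hP.1, hQ.1, one_mul], fun i hi => ?_⟩
  rw [coeff_mul]
  refine Valuation.map_sum_lt _ one_ne_zero ?_
  rintro ⟨a, b⟩ hab
  rw [Finset.HasAntidiagonal.mem_antidiagonal] at hab
  simp only at hab ⊢
  rw [map_mul]
  rcases Nat.eq_zero_or_pos a with rfl | ha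
  · rw [hP.1, map_one, one_mul]
    exact hQ.2 b (by omega)
  · exact mul_lt_one_of_lt_of_le (hP.2 a ha) (small_le hQ b)

lemma Small.lin {m : L} (hm : v m < 1) : Small v (1 + C m * X) := by
  refine ⟨by simp, fun i hi => ?_⟩
  rw [coeff_add, coeff_one, if_neg hi.ne', zero_add, coeff_C_mul, coeff_X, map_mul]
  split_ifs with h
  · rw [map_one, mul_one]
    exact hm
  · rw [map_zero, mul_zero]
    exact zero_lt_one

lemma Small.prod (s : Multiset L) (hs : ∀ m ∈ s, v m < 1) :
    Small v (s.map fun m => 1 + C m * X).prod := by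
  induction s using Multiset.induction_on with
  | empty => simpa using Small.one
  | cons a s ih =>
    rw [Multiset.map_cons, Multiset.prod_cons]
    exact (Small.lin (hs a (Multiset.mem_cons_self a s))).mul
      (ih fun m hm => hs m (Multiset.mem_cons_of_mem hm))

lemma eval_ne_of_small {G : L[X]} (hG : Small v (derivative G))
    (hn : ∀ j : ℕ, 0 < j → j ≤ G.natDegree → v (j : L) = 1) : G.eval 1 ≠ G.eval 0 := by
  intro h
  have h1 : G.eval 1 - G.coeff 0 = ∑ i ∈ Finset.range G.natDegree, G.coeff (i + 1) := by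
    rw [eval_eq_sum_range, Finset.sum_range_succ']
    simp
  rw [h, coeff_zero_eq_eval_zero, sub_self] at h1
  have hc : ∀ i, i < G.natDegree → v (G.coeff (i + 1)) = v ((derivative G).coeff i) := by
    intro i hi
    rw [coeff_derivative, map_mul]
    have h2 := hn (i + 1) (Nat.succ_pos i) hi
    push_cast at h2
    rw [h2, mul_one]
  have hpos : 0 < G.natDegree := by
    by_contra h0
    have h2 : derivative G = 0 := by
      rw [natDegree_eq_zero.1 (Nat.eq_zero_of_not_pos h0) |>.choose_spec.symm]
      simp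
    have h3 := hG.1
    rw [h2] at h3
    simp at h3
  obtain ⟨n, hn'⟩ : ∃ n, G.natDegree = n + 1 := ⟨G.natDegree - 1, by omega⟩
  rw [hn', Finset.sum_range_succ', zero_add] at h1
  have h2 : v (∑ i ∈ Finset.range n, G.coeff (i + 1 + 1)) < 1 := by
    refine Valuation.map_sum_lt _ one_ne_zero ?_
    intro i hi
    rw [hc (i + 1) (by rw [hn']; exact Nat.succ_lt_succ (Finset.mem_range.1 hi))]
    exact hG.2 _ (Nat.succ_pos i)
  have h3 : v (G.coeff 1) = 1 := by
    have := hc 0 hpos
    rw [zero_add] at this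
    rw [this, hG.1, map_one]
  have h4 : v (G.coeff 1) < 1 := by
    have h5 : G.coeff 1 = -∑ i ∈ Finset.range n, G.coeff (i + 1 + 1) := by
      rw [eq_neg_iff_add_eq_zero, add_comm]
      exact h1.symm
    rw [h5, Valuation.map_neg]
    exact h2
  rw [h3] at h4
  exact lt_irrefl _ h4

/-- The theorem of Rolle. -/
theorem rolle {f : L[X]} (hn : ∀ j : ℕ, 0 < j → j ≤ f.natDegree → v (j : L) = 1)
    (hs : (derivative f).Splits) (h0 : derivative f ≠ 0) {a b : L} (hab : a ≠ b)
    (ha : f.eval a = 0) (hb : f.eval b = 0)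
    (hγ : ∀ γ, (derivative f).eval γ = 0 → v (b - a) < v (a - γ)) : False := by
  have hT : b - a ≠ 0 := sub_ne_zero.2 hab.symm
  let Q : L[X] := C a + C (b - a) * X
  let s := (derivative f).roots
  have hsp : derivative f = C (derivative f).leadingCoeff * (s.map fun γ => X - C γ).prod :=
    hs.eq_prod_roots
  have hs0 : ∀ γ ∈ s, a - γ ≠ 0 := by
    intro γ hγs h
    have h1 := hγ γ ((mem_roots h0).1 hγs)
    rw [h, map_zero] at h1
    exact not_lt_zero h1
  have hcomp : (derivative f).comp Q = C ((derivative f).leadingCoeff *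
      (s.map fun γ => a - γ).prod) * (s.map fun γ => 1 + C ((b - a) / (a - γ)) * X).prod := by
    rw [hsp, mul_comp, C_comp, leadingCoeff_mul, leadingCoeff_C, C_mul, mul_assoc]
    have h1 : (s.map fun γ => X - C γ).prod.leadingCoeff = 1 :=
      (monic_multiset_prod_of_monic _ _ fun γ _ => monic_X_sub_C γ).leadingCoeff
    rw [h1, mul_one]
    congr 1
    rw [multiset_prod_comp, Multiset.map_map, ← Multiset.prod_hom' _ (C : L →+* L[X]),
      ← Multiset.prod_map_mul]
    refine congrArg Multiset.prod (Multiset.map_congr rfl fun γ hγs => ?_)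
    simp only [Function.comp_apply, sub_comp, X_comp, C_comp, Q]
    rw [mul_add, mul_one, ← mul_assoc, ← C_mul, mul_div_cancel₀ _ (hs0 γ hγs)]
    simp only [C_sub]
    ring
  set d : L := (b - a) * ((derivative f).leadingCoeff * (s.map fun γ => a - γ).prod) with hd
  have hd0 : d ≠ 0 := by
    refine mul_ne_zero hT (mul_ne_zero (leadingCoeff_ne_zero.2 h0) ?_)
    rw [Ne, Multiset.prod_eq_zero_iff, Multiset.mem_map]
    rintro ⟨γ, hγs, h⟩
    exact hs0 γ hγs h
  let G : L[X] := C d⁻¹ * f.comp Q
  have hdG : derivative G = (s.map fun γ => 1 + C ((b - a) / (a - γ)) * X).prod := by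
    have h1 : derivative Q = C (b - a) := by simp [Q]
    rw [derivative_C_mul, derivative_comp, hcomp, h1, ← mul_assoc, ← mul_assoc, ← C_mul, ← C_mul,
      mul_assoc d⁻¹, ← hd, inv_mul_cancel₀ hd0, C_1, one_mul]
  have hsm : Small v (derivative G) := by
    rw [hdG]
    have h1 := Small.prod (v := v) (s.map fun γ => (b - a) / (a - γ)) (by
      intro m hm
      obtain ⟨γ, hγs, rfl⟩ := Multiset.mem_map.1 hm
      rw [map_div₀]
      have h2 := hγ γ ((mem_roots h0).1 hγs)
      exact (div_lt_one₀ (lt_of_le_of_lt zero_le h2)).2 h2)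
    rw [Multiset.map_map] at h1
    exact h1
  have hQn : Q.natDegree ≤ 1 := by
    refine (natDegree_add_le _ _).trans (max_le (by simp) ?_)
    exact (natDegree_C_mul_le _ _).trans natDegree_X_le
  have hGn : G.natDegree ≤ f.natDegree := by
    refine (natDegree_C_mul_le _ _).trans ?_
    rw [natDegree_comp]
    calc f.natDegree * Q.natDegree ≤ f.natDegree * 1 := Nat.mul_le_mul_left _ hQn
      _ = f.natDegree := mul_one _
  refine eval_ne_of_small hsm (fun j h1 h2 => hn j h1 (h2.trans hGn)) ?_
  have h1 : G.eval 1 = 0 := by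
    simp only [G, eval_mul, eval_C, eval_comp, Q, eval_add, eval_X, mul_one]
    rw [add_sub_cancel, hb, mul_zero]
  have h2 : G.eval 0 = 0 := by
    simp only [G, eval_mul, eval_C, eval_comp, Q, eval_add, eval_X, mul_zero, add_zero]
    rw [ha, mul_zero]
  rw [h1, h2]

end

end Pool.Agent.T6.H12
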