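import Pool.Agent.T6.H12.Log
import Pool.Agent.T6.H12.Rolle

/-!
# Polynomials of small degree in one variable
-/

set_option autoImplicit false

open Polynomial

namespace Pool.Agent.T6.H12

section line

variable {Ω κ W : Type*} [Field Ω] [Field κ] [AddCommGroup W] [Module κ W] {ι : Type*} [Fintype ι]
  {P : Pl Ω κ} {y : ι → Ω} {D : ι → W} {L : Type*} [Field L] [Algebra L Ω]

lemma RD_prod (hy : ∀ i, y i ≠ 0) (x : Ω) (τ : W) (s : Multiset L)
    (hs : ∀ β ∈ s, ∃ c : κ, RD P y D L (x - algebraMap L Ω β) (c • τ)) :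
    ∃ c : κ, RD P y D L (s.map fun β => x - algebraMap L Ω β).prod (c • τ) := by
  induction s using Multiset.induction_on with
  | empty =>
    refine ⟨0, ?_⟩
    rw [Multiset.map_zero, Multiset.prod_zero, zero_smul, ← map_one (algebraMap L Ω)]
    exact RD_const one_ne_zero
  | cons a s ih =>
    obtain ⟨c, hc⟩ := hs a (Multiset.mem_cons_self a s)
    obtain ⟨c', hc'⟩ := ih fun β hβ => hs β (Multiset.mem_cons_of_mem hβ)
    refine ⟨c + c', ?_⟩
    rw [Multiset.map_cons, Multiset.prod_cons, add_smul]
    exact RD_mul hy hc hc'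

lemma RD_prod' (hy : ∀ i, y i ≠ 0) (x : Ω) (s : Multiset L)
    (hs : ∀ β ∈ s, ∃ δ, RD P y D L (x - algebraMap L Ω β) δ) :
    ∃ δ, RD P y D L (s.map fun β => x - algebraMap L Ω β).prod δ := by
  induction s using Multiset.induction_on with
  | empty =>
    refine ⟨0, ?_⟩
    rw [Multiset.map_zero, Multiset.prod_zero, ← map_one (algebraMap L Ω)]
    exact RD_const one_ne_zero
  | cons a s ih =>
    obtain ⟨c, hc⟩ := hs a (Multiset.mem_cons_self a s)
    obtain ⟨c', hc'⟩ := ih fun β hβ => hs β (Multiset.mem_cons_of_mem hβ)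
    refine ⟨c + c', ?_⟩
    rw [Multiset.map_cons, Multiset.prod_cons]
    exact RD_mul hy hc hc'

variable [IsAlgClosed L] {x : Ω} {f : ι → L[X]}

lemma aeval_split (g : L[X]) : aeval x g = algebraMap L Ω g.leadingCoeff *
    (g.roots.map fun β => x - algebraMap L Ω β).prod := by
  conv_lhs => rw [(IsAlgClosed.splits g).eq_prod_roots]
  rw [map_mul, aeval_C, map_multiset_prod, Multiset.map_map]
  congr 2
  refine Multiset.map_congr rfl fun β _ => ?_
  rw [Function.comp_apply, map_sub, aeval_X, aeval_C]

/-- The roots of the polynomials. -/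
theorem line_claim [DecidableEq ι] (hy : ∀ i, y i ≠ 0) (hyf : ∀ i, y i = aeval x (f i))
    (hn : ∀ i (j : ℕ), 0 < j → j ≤ (f i).natDegree → P.V (j : Ω) = 1)
    (hcl : ∀ i, 1 < (f i).natDegree → ∃ (i' : ι) (c : L), derivative (f i) = C c * f i') :
    ∀ (i : ι) (β : L), (f i).eval β = 0 → ∃ δ, RD P y D L (x - algebraMap L Ω β) δ := by
  classical
  have hf0 : ∀ i, f i ≠ 0 := by
    intro i h
    apply hy i
    rw [hyf i, h, map_zero]
  let Z : Finset L := Finset.univ.biUnion fun i => (f i).roots.toFinset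
  have hZ : ∀ β, β ∈ Z ↔ ∃ i, (f i).eval β = 0 := by
    intro β
    simp only [Z, Finset.mem_biUnion, Finset.mem_univ, true_and, Multiset.mem_toFinset]
    exact exists_congr fun i => mem_roots (hf0 i)
  suffices h : ∀ (N : ℕ) (β : L), (∃ i, (f i).eval β = 0) →
      (Z.filter fun β' => P.V (x - algebraMap L Ω β) < P.V (x - algebraMap L Ω β')).card = N →
      ∃ δ, RD P y D L (x - algebraMap L Ω β) δ from
    fun i β hβ => h _ β ⟨i, hβ⟩ rfl
  intro N
  induction N using Nat.strong_induction_on with
  | _ N ih =>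
    intro β hβ hN
    set r := P.V (x - algebraMap L Ω β) with hr
    obtain ⟨i1, hi1⟩ := hβ
    let S : Finset ι := Finset.univ.filter fun i => ∃ β', (f i).eval β' = 0 ∧
      P.V (x - algebraMap L Ω β') ≤ r
    obtain ⟨i0, hi0, hmin⟩ := Finset.exists_min_image S (fun i => (f i).natDegree)
      ⟨i1, Finset.mem_filter.2 ⟨Finset.mem_univ _, β, hi1, le_rfl⟩⟩
    obtain ⟨-, β0, hβ0, hβ0r⟩ := Finset.mem_filter.1 hi0
    have hdeg : 0 < (f i0).natDegree := by
      by_contra h0
      obtain ⟨c, hc⟩ := natDegree_eq_zero.1 (Nat.eq_zero_of_not_pos h0)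
      rw [← hc, eval_C] at hβ0
      apply hf0 i0
      rw [← hc, hβ0, C_0]
    have hnL : ∀ j : ℕ, 0 < j → j ≤ (f i0).natDegree → (j : L) ≠ 0 := by
      intro j h1 h2 h3
      have h4 := hn i0 j h1 h2
      rw [← map_natCast (algebraMap L Ω) j, h3, map_zero, map_zero] at h4
      exact zero_ne_one h4
    have hd0 : derivative (f i0) ≠ 0 := by
      intro h0
      have h1 : (derivative (f i0)).coeff ((f i0).natDegree - 1) = 0 := by
        rw [h0, coeff_zero]
      rw [coeff_derivative, Nat.sub_add_cancel hdeg] at h1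
      rcases mul_eq_zero.1 h1 with h2 | h2
      · exact hf0 i0 (leadingCoeff_eq_zero.1 h2)
      · refine hnL _ hdeg le_rfl ?_
        rw [← h2]
        have : (f i0).natDegree = ((f i0).natDegree - 1) + 1 := by omega
        conv_lhs => rw [this]
        push_cast
        rfl
    have hH : ∀ γ, (derivative (f i0)).eval γ = 0 → r < P.V (x - algebraMap L Ω γ) := by
      intro γ hγ
      by_cases h1 : 1 < (f i0).natDegree
      · obtain ⟨i', c, hc⟩ := hcl i0 h1
        have hc0 : c ≠ 0 := by
          rintro rfl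
          rw [C_0, zero_mul] at hc
          exact hd0 hc
        by_contra h2
        rw [not_lt] at h2
        rw [hc, eval_mul, eval_C] at hγ
        have h3 : (f i').eval γ = 0 := (mul_eq_zero.1 hγ).resolve_left hc0
        have h4 := hmin i' (Finset.mem_filter.2 ⟨Finset.mem_univ _, γ, h3, h2⟩)
        have h5 : (derivative (f i0)).natDegree = (f i').natDegree := by
          rw [hc, natDegree_C_mul hc0]
        have h6 := natDegree_derivative_lt (p := f i0) hdeg.ne'
        omega
      · have h2 : (derivative (f i0)).natDegree = 0 := by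
          have := natDegree_derivative_lt (p := f i0) hdeg.ne'
          omega
        obtain ⟨c, hc⟩ := natDegree_eq_zero.1 h2
        rw [← hc, eval_C] at hγ
        exact absurd (by rw [← hc, hγ, C_0]) hd0
    have hother : ∀ β' ∈ (f i0).roots.erase β0, r < P.V (x - algebraMap L Ω β') := by
      intro β' hβ'
      by_contra hcon
      rw [not_lt] at hcon
      by_cases heq : β' = β0
      · subst heq
        have h1 : 1 < (f i0).roots.count β' := by
          have h2 := Multiset.one_le_count_iff_mem.2 hβ'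
          rw [Multiset.count_erase_self] at h2
          omega
        rw [count_roots] at h1
        have h2 := (one_lt_rootMultiplicity_iff_isRoot (hf0 i0)).1 h1
        exact absurd (hH β' h2.2) (not_lt.2 hβ0r)
      · have hβ'r : (f i0).eval β' = 0 := (mem_roots (hf0 i0)).1 (Multiset.mem_of_mem_erase hβ')
        refine rolle (v := P.V.comap (algebraMap L Ω)) (f := f i0) (a := β0) (b := β') ?_
          (IsAlgClosed.splits _) hd0 (Ne.symm heq) hβ0 hβ'r ?_
        · intro j h1 h2
          rw [Valuation.comap_apply, map_natCast]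
          exact hn i0 j h1 h2
        · intro γ hγ
          rw [Valuation.comap_apply, Valuation.comap_apply]
          have h1 := hH γ hγ
          have h2 : P.V (algebraMap L Ω (β0 - γ)) = P.V (x - algebraMap L Ω γ) := by
            have h3 : algebraMap L Ω (β0 - γ) = (x - algebraMap L Ω γ) -
                (x - algebraMap L Ω β0) := by
              rw [map_sub]; ring
            rw [h3]
            exact Valuation.map_sub_eq_of_lt_left _ (lt_of_le_of_lt hβ0r h1)
          rw [h2]
          refine lt_of_le_of_lt ?_ h1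
          have h3 : algebraMap L Ω (β' - β0) = (x - algebraMap L Ω β0) -
                (x - algebraMap L Ω β') := by
              rw [map_sub]; ring
          rw [h3]
          exact (Valuation.map_sub _ _ _).trans (max_le hβ0r hcon)
    have hpr : ∃ δ, RD P y D L (((f i0).roots.erase β0).map
        fun β => x - algebraMap L Ω β).prod δ := by
      refine RD_prod' hy x _ fun β' hβ' => ?_
      have h1 := hother β' hβ'
      have hβ'r : (f i0).eval β' = 0 := (mem_roots (hf0 i0)).1 (Multiset.mem_of_mem_erase hβ')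
      refine ih _ ?_ β' ⟨i0, hβ'r⟩ rfl
      rw [← hN]
      refine Finset.card_lt_card ?_
      rw [Finset.ssubset_iff_of_subset]
      · refine ⟨β', Finset.mem_filter.2 ⟨(hZ β').2 ⟨i0, hβ'r⟩, h1⟩, ?_⟩
        rw [Finset.mem_filter, not_and]
        exact fun _ => lt_irrefl _
      · intro β'' hβ''
        rw [Finset.mem_filter] at hβ'' ⊢
        exact ⟨hβ''.1, h1.trans hβ''.2⟩
    obtain ⟨δ1, hδ1⟩ := hpr
    have hβ0' : RD P y D L (x - algebraMap L Ω β0) (D i0 - (0 + δ1)) := by
      have h1 : y i0 = (x - algebraMap L Ω β0) * (algebraMap L Ω (f i0).leadingCoeff *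
          (((f i0).roots.erase β0).map fun β => x - algebraMap L Ω β).prod) := by
        rw [hyf i0, aeval_split]
        conv_lhs => rw [← Multiset.cons_erase ((mem_roots (hf0 i0)).2 hβ0)]
        rw [Multiset.map_cons, Multiset.prod_cons]
        ring
      have h2 : RD P y D L (algebraMap L Ω (f i0).leadingCoeff *
          (((f i0).roots.erase β0).map fun β => x - algebraMap L Ω β).prod) (0 + δ1) :=
        RD_mul hy (RD_const (leadingCoeff_ne_zero.2 (hf0 i0))) hδ1
      have h3 := RD_div hy (RD_y (P := P) (y := y) (D := D) (L := L) i0) h2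
      rw [h1, mul_div_cancel_right₀ _ (RD_ne hy h2)] at h3
      exact h3
    have hxβ : x - algebraMap L Ω β ≠ 0 := by
      intro h0
      apply hy i1
      rw [hyf i1, sub_eq_zero.1 h0, aeval_algebraMap_apply_eq_algebraMap_eval, hi1, map_zero]
    have h4 : x - algebraMap L Ω β = (x - algebraMap L Ω β0) + algebraMap L Ω (β0 - β) := by
      rw [map_sub]; ring
    have h5 := RD_add_const hy hβ0' (β0 - β) (by rw [← h4]; exact hxβ) (by rw [← h4]; exact hβ0r) (by
      rw [← h4]
      have h6 : algebraMap L Ω (β0 - β) = (x - algebraMap L Ω β) - (x - algebraMap L Ω β0) := by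
        rw [map_sub]; ring
      rw [h6]
      exact (Valuation.map_sub _ _ _).trans (max_le le_rfl hβ0r))
    rw [← h4] at h5
    exact ⟨_, h5⟩

/-- The derivatives are determined by one of them. -/
theorem line [DecidableEq ι] (hR : RP1 P y D L) (hy : ∀ i, y i ≠ 0)
    (hyf : ∀ i, y i = aeval x (f i))
    (hn : ∀ i (j : ℕ), 0 < j → j ≤ (f i).natDegree → P.V (j : Ω) = 1)
    (hcl : ∀ i, 1 < (f i).natDegree → ∃ (i' : ι) (c : L), derivative (f i) = C c * f i') :
    ∃ τ : W, ∀ i, ∃ c : κ, D i = c • τ := by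
  classical
  have hf0 : ∀ i, f i ≠ 0 := by
    intro i h
    apply hy i
    rw [hyf i, h, map_zero]
  have hcl' := line_claim (D := D) hy hyf hn hcl
  let Z : Finset L := Finset.univ.biUnion fun i => (f i).roots.toFinset
  have hZ : ∀ β, β ∈ Z ↔ ∃ i, (f i).eval β = 0 := by
    intro β
    simp only [Z, Finset.mem_biUnion, Finset.mem_univ, true_and, Multiset.mem_toFinset]
    exact exists_congr fun i => mem_roots (hf0 i)
  have hfin : ∃ τ : W, ∀ β ∈ Z, ∃ c : κ, RD P y D L (x - algebraMap L Ω β) (c • τ) := by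
    rcases Z.eq_empty_or_nonempty with h | h
    · refine ⟨0, fun β hβ => ?_⟩
      rw [h] at hβ
      exact absurd hβ (Finset.notMem_empty β)
    · obtain ⟨β1, hβ1, hmin⟩ := Finset.exists_min_image Z
        (fun β => P.V (x - algebraMap L Ω β)) h
      obtain ⟨i1, hi1⟩ := (hZ β1).1 hβ1
      obtain ⟨τ, hτ⟩ := hcl' i1 β1 hi1
      refine ⟨τ, fun β hβ => ?_⟩
      obtain ⟨i, hi⟩ := (hZ β).1 hβ
      have hxβ : x - algebraMap L Ω β ≠ 0 := by
        intro h0
        apply hy i
        rw [hyf i, sub_eq_zero.1 h0, aeval_algebraMap_apply_eq_algebraMap_eval, hi, map_zero]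
      have h4 : x - algebraMap L Ω β = (x - algebraMap L Ω β1) + algebraMap L Ω (β1 - β) := by
        rw [map_sub]; ring
      have h5 := RD_add_const hy hτ (β1 - β) (by rw [← h4]; exact hxβ)
        (by rw [← h4]; exact hmin β hβ) (by
        rw [← h4]
        have h6 : algebraMap L Ω (β1 - β) = (x - algebraMap L Ω β) -
            (x - algebraMap L Ω β1) := by
          rw [map_sub]; ring
        rw [h6]
        exact (Valuation.map_sub _ _ _).trans (max_le le_rfl (hmin β hβ)))
      rw [← h4] at h5
      exact ⟨_, h5⟩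
  obtain ⟨τ, hτ⟩ := hfin
  refine ⟨τ, fun i => ?_⟩
  obtain ⟨c, hc⟩ := RD_prod hy x τ (f i).roots fun β hβ => hτ β
    ((hZ β).2 ⟨i, (mem_roots (hf0 i)).1 hβ⟩)
  refine ⟨c, ?_⟩
  have h1 := RD_mul hy (RD_const (P := P) (y := y) (D := D)
    (leadingCoeff_ne_zero.2 (hf0 i))) hc
  rw [← aeval_split, ← hyf, zero_add] at h1
  exact RD_fun hy hR (RD_y i) h1

end line

end Pool.Agent.T6.H12
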