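import Pool.Agent.T6.H12.Ini
import Pool.Agent.T6.H12.Line

/-!
# Initial data of polynomials of small degree
-/

set_option autoImplicit false

open Polynomial

namespace Pool.Agent.T6.H12

section shift

variable {E F : Type*} [Field E] [Field F] [Algebra E F] {ι : Type*} [Fintype ι]

lemma mon_toNat {y : ι → F} (hy : ∀ i, y i ≠ 0) (e : ι → ℤ) (N : ι → ℕ)
    (h : ∀ i, 0 ≤ e i + N i) :
    mon y e * mon y (fun i => (N i : ℤ)) = ∏ i, y i ^ (e i + N i).toNat := by
  rw [← mon_add hy]
  unfold mon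
  refine Finset.prod_congr rfl fun i _ => ?_
  rw [← zpow_natCast, Int.toNat_of_nonneg (h i)]
  rfl

lemma rel_iff {x : F} (hx : Transcendental E x) {f : ι → E[X]} (hf : ∀ i, f i ≠ 0)
    {J : Type*} (s : Finset J) (c : J → E) (e : J → ι → ℤ) (N : ι → ℕ)
    (h : ∀ j ∈ s, ∀ i, 0 ≤ e j i + N i) :
    ∑ j ∈ s, algebraMap E F (c j) * mon (fun i => aeval x (f i)) (e j) = 0 ↔
      ∑ j ∈ s, C (c j) * ∏ i, f i ^ (e j i + N i).toNat = 0 := by
  have hy : ∀ i, aeval x (f i) ≠ 0 := fun i h0 => hf i (transcendental_iff.1 hx _ h0)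
  have h1 : aeval x (∑ j ∈ s, C (c j) * ∏ i, f i ^ (e j i + N i).toNat) =
      (∑ j ∈ s, algebraMap E F (c j) * mon (fun i => aeval x (f i)) (e j)) *
        mon (fun i => aeval x (f i)) (fun i => (N i : ℤ)) := by
    rw [map_sum, Finset.sum_mul]
    refine Finset.sum_congr rfl fun j hj => ?_
    rw [map_mul, aeval_C, map_prod, mul_assoc, mon_toNat hy _ _ (h j hj)]
    simp_rw [map_pow]
  constructor
  · intro h2
    rw [h2, zero_mul] at h1
    exact transcendental_iff.1 hx _ h1
  · intro h2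
    rw [h2, map_zero] at h1
    exact (mul_eq_zero.1 h1.symm).resolve_right (mon_ne hy _)

lemma exists_shift {J : Type*} (s : Finset J) (e : J → ι → ℤ) :
    ∃ N : ι → ℕ, ∀ j ∈ s, ∀ i, 0 ≤ e j i + N i := by
  refine ⟨fun i => ∑ j ∈ s, (e j i).natAbs, fun j hj i => ?_⟩
  change 0 ≤ e j i + ((∑ j ∈ s, (e j i).natAbs : ℕ) : ℤ)
  have h1 : (e j i).natAbs ≤ ∑ j ∈ s, (e j i).natAbs :=
    Finset.single_le_sum (f := fun j => (e j i).natAbs) (fun _ _ => Nat.zero_le _) hj
  have h2 : -((e j i).natAbs : ℤ) ≤ e j i := by omega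
  have h3 : ((e j i).natAbs : ℤ) ≤ ((∑ j ∈ s, (e j i).natAbs : ℕ) : ℤ) := by exact_mod_cast h1
  omega

end shift

section

variable {E K κ Γ W : Type*} {ι : Type} [Field E] [Field K] [Algebra E K] [Field κ]
  [AddCommGroup Γ] [LinearOrder Γ] [IsOrderedAddMonoid Γ] [AddCommGroup W] [Module κ W]
  [Fintype ι] {l : E → Γ} {z : E → κ} {w : ι → Γ} {ζ : ι → κ} {D : ι → W}

/-- Initial data for another transcendental element. -/
lemma Ini.change {Ω : Type*} [Field Ω] [Algebra E Ω] {x : K} (hx : Transcendental E x)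
    {x' : Ω} (hx' : Transcendental E x') {f : ι → E[X]} (hf : ∀ i, f i ≠ 0)
    (h : Ini (fun i => aeval x (f i)) l z w ζ D) : Ini (fun i => aeval x' (f i)) l z w ζ D where
  z0 := h.z0
  ζ0 := h.ζ0
  lmul := h.lmul
  zmul := h.zmul
  rel := by
    intro J _ c e hc h0 μ hμ
    obtain ⟨N, hN⟩ := exists_shift Finset.univ e
    exact h.rel J c e hc ((rel_iff hx hf Finset.univ c e N hN).2
      ((rel_iff hx' hf Finset.univ c e N hN).1 h0)) μ hμ

lemma V_nat {Ω : Type*} [Field Ω] (P : Pl Ω κ) (p : ℕ) [Fact p.Prime] [CharP Ω p] {j : ℕ}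
    (h0 : 0 < j) (hj : j < p) : P.V (j : Ω) = 1 := by
  have hcop : Nat.Coprime j p := (Nat.coprime_of_lt_prime h0.ne' hj (Fact.out : p.Prime)).symm
  have hp : 1 < p := (Fact.out : p.Prime).one_lt
  obtain ⟨m, -, hm⟩ := Nat.exists_mul_mod_eq_one_of_coprime hcop hp
  have h1 : (j : Ω) * (m : Ω) = 1 := by
    have h2 : ((j * m % p : ℕ) : Ω) = ((j * m : ℕ) : Ω) := by
      rw [← Nat.div_add_mod (j * m) p]
      push_cast
      rw [CharP.cast_eq_zero Ω p]
      simp
    rw [hm] at h2
    push_cast at h2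
    exact h2.symm
  have h3 : ∀ n : ℕ, P.V (n : Ω) ≤ 1 := fun n => P.mem_iff.1 (natCast_mem P.O n)
  have h4 : P.V (j : Ω) * P.V (m : Ω) = 1 := by rw [← map_mul, h1, map_one]
  refine le_antisymm (h3 j) ?_
  rw [← h4]
  exact mul_le_of_le_one_right' (h3 m)

/-- The bound for the derivatives of polynomials of degree less than `p`. -/
theorem line_ini [IsAlgClosed κ] {p : ℕ} [Fact p.Prime] [CharP E p] {x : K}
    (hx : Transcendental E x) {f : ι → E[X]} (hf : ∀ i, f i ≠ 0)
    (hdeg : ∀ i, (f i).natDegree < p)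
    (hcl : ∀ i, 1 < (f i).natDegree → ∃ (i' : ι) (c : E), derivative (f i) = C c * f i')
    (h : Ini (fun i => aeval x (f i)) l z w ζ D) : ∃ τ : W, ∀ i, ∃ c : κ, D i = c • τ := by
  classical
  let L := AlgebraicClosure E
  let Ω := FractionRing L[X]
  let x' : Ω := algebraMap L[X] Ω X
  have hinj : Function.Injective (algebraMap L[X] Ω) := IsFractionRing.injective _ _
  have haev : ∀ g : L[X], aeval x' g = algebraMap L[X] Ω g := by
    intro g
    have h1 : aeval x' g = algebraMap L[X] Ω (aeval (X : L[X]) g) := by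
      rw [aeval_algebraMap_apply]
    rw [h1, aeval_X_left, AlgHom.id_apply]
  have hxL : Transcendental L x' := by
    rw [transcendental_iff]
    intro g hg
    rw [haev] at hg
    exact (map_eq_zero_iff _ hinj).1 hg
  have hxE : Transcendental E x' := by
    rw [transcendental_iff]
    intro g hg
    have h1 : aeval x' (g.map (algebraMap E L)) = 0 := by
      rw [aeval_map_algebraMap]
      exact hg
    exact (Polynomial.map_eq_zero _).1 (transcendental_iff.1 hxL _ h1)
  have h' := h.change hx hxE hf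
  have hy : ∀ i, aeval x' (f i) ≠ 0 := fun i h0 => hf i (transcendental_iff.1 hxE _ h0)
  obtain ⟨P, hP⟩ := exists_rp hy h'
  have hchar : CharP Ω p := charP_of_injective_algebraMap (algebraMap E Ω).injective p
  have hyL : ∀ i, aeval x' (f i) = aeval x' ((f i).map (algebraMap E L)) := fun i =>
    (aeval_map_algebraMap L x' (f i)).symm
  have hfL : ∀ i, (f i).map (algebraMap E L) ≠ 0 := fun i =>
    (Polynomial.map_ne_zero_iff (algebraMap E L).injective).2 (hf i)
  have hRL : RP1 P (fun i => aeval x' (f i)) D L := by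
    refine rp_bc (E := E) hy hP ?_
    intro s C0 h0 hne
    obtain ⟨e0, he0, he0'⟩ := hne
    obtain ⟨φ, hφ⟩ : ∃ φ : Module.Dual E L, φ (C0 e0) ≠ 0 := by
      by_contra hcon
      push Not at hcon
      exact he0' ((Module.forall_dual_apply_eq_zero_iff E _).1 hcon)
    obtain ⟨N, hN⟩ := exists_shift s (fun e : ι → ℤ => e)
    refine ⟨fun e => φ (C0 e), fun e he => by simp only [he, map_zero], ⟨e0, he0, hφ⟩, ?_⟩
    rw [rel_iff hxE hf s (fun e => φ (C0 e)) (fun e => e) N hN]
    have h1 : ∑ e ∈ s, algebraMap L Ω (C0 e) *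
        mon (fun i => aeval x' ((f i).map (algebraMap E L))) e = 0 := by
      rw [← h0]
      refine Finset.sum_congr rfl fun e _ => ?_
      congr 2
      funext i
      exact (hyL i).symm
    rw [rel_iff hxL hfL s C0 (fun e => e) N hN] at h1
    ext n
    rw [finsetSum_coeff, coeff_zero]
    have h2 := congrArg (fun g => φ (g.coeff n)) h1
    simp only [finsetSum_coeff, coeff_zero, map_zero, map_sum] at h2
    rw [← h2]
    refine Finset.sum_congr rfl fun e _ => ?_
    rw [coeff_C_mul, coeff_C_mul]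
    have h3 : ∏ i, (f i).map (algebraMap E L) ^ (e i + N i).toNat =
        (∏ i, f i ^ (e i + N i).toNat).map (algebraMap E L) := by
      rw [Polynomial.map_prod]
      exact Finset.prod_congr rfl fun i _ => (Polynomial.map_pow _ _).symm
    rw [h3, coeff_map, mul_comm (C0 e), ← Algebra.smul_def, map_smul, smul_eq_mul, mul_comm]
  refine line (L := L) (x := x') (f := fun i => (f i).map (algebraMap E L)) hRL hy hyL ?_ ?_
  · intro i j h1 h2
    rw [natDegree_map] at h2
    exact V_nat P p h1 (lt_of_le_of_lt h2 (hdeg i))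
  · intro i h1
    rw [natDegree_map] at h1
    obtain ⟨i', c, hc⟩ := hcl i h1
    refine ⟨i', algebraMap E L c, ?_⟩
    rw [derivative_map, hc, Polynomial.map_mul, map_C]

end

end Pool.Agent.T6.H12
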