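import Pool.Agent.T6.H12.Ultra
import Pool.Agent.T6.H12.LinIni
import Pool.Agent.T6.H12.LineIni

/-!
# The bound for the derivatives
-/

set_option autoImplicit false

universe u

open Polynomial

namespace Pool.Agent.T6.H12

variable {k K : Type u} [Field k] [Field K] [Algebra k K] {n : ℕ}

section ext

variable {ι : Type} [Fintype ι] {φ : ι → Fin n}

lemma mon_ext (hφ : Function.Injective φ) {F : Type*} [Field F] (y : Fin n → F) (e : ι → ℤ) :
    mon y (Function.extend φ e 0) = mon (y ∘ φ) e := by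
  unfold mon
  refine (Fintype.prod_of_injective φ hφ _ _ ?_ ?_).symm
  · intro q hq
    rw [Function.extend_apply' _ _ _ (fun ⟨i, hi⟩ => hq ⟨i, hi⟩), Pi.zero_apply, zpow_zero]
  · intro i
    rw [hφ.extend_apply]
    rfl

lemma dm_ext (hφ : Function.Injective φ) {V : Type*} [AddCommGroup V] (D : Fin n → V)
    (e : ι → ℤ) : dm D (Function.extend φ e 0) = dm (D ∘ φ) e := by
  unfold dm
  refine (Fintype.sum_of_injective φ hφ _ _ ?_ ?_).symm
  · intro q hq
    rw [Function.extend_apply' _ _ _ (fun ⟨i, hi⟩ => hq ⟨i, hi⟩), Pi.zero_apply, zero_smul]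
  · intro i
    rw [hφ.extend_apply]
    rfl

end ext

section ini

variable {Γ κ W : Type*} [AddCommGroup Γ] [LinearOrder Γ] [Field κ] [AddCommGroup W]
    [Module κ W] {A : Set K} {y : Fin n → K} {l : K → Γ} {z : K → κ} {w : Fin n → Γ}
    {ζ : Fin n → κ} {D : Fin n → W}

/-- Restriction of the initial data. -/
lemma IniTop.toIni (h : IniTop A y l z w ζ D) (F : IntermediateField k K)
    (hF : ∀ a ∈ F, a ≠ 0 → a ∈ A) {ι : Type} [Fintype ι] (φ : ι → Fin n)
    (hφ : Function.Injective φ) :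
    Ini (E := F) (Ω := K) (y ∘ φ) (fun a => l a) (fun a => z a) (w ∘ φ) (ζ ∘ φ) (D ∘ φ) where
  z0 := fun a ha => h.z0 _ (hF a a.2 fun h0 => ha (Subtype.ext h0))
  ζ0 := fun i => h.ζ0 _
  lmul := fun a b ha hb => h.lmul _ (hF a a.2 fun h0 => ha (Subtype.ext h0)) _
    (hF b b.2 fun h0 => hb (Subtype.ext h0))
  zmul := fun a b ha hb => h.zmul _ (hF a a.2 fun h0 => ha (Subtype.ext h0)) _
    (hF b b.2 fun h0 => hb (Subtype.ext h0))
  rel := by
    classical
    intro J _ c e hc h0 μ hμ
    have h1 := h.rel (Finset.univ.toList.map fun j : J => ((c j : K), Function.extend φ (e j) 0))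
      (by
        intro q hq
        obtain ⟨j, -, rfl⟩ := List.mem_map.1 hq
        exact hF _ (c j).2 fun h0 => hc j (Subtype.ext h0)) (by
        rw [List.map_map, Finset.sum_map_toList]
        rw [← h0]
        refine Finset.sum_congr rfl fun j _ => ?_
        rw [Function.comp_apply, mon_ext hφ]
        rfl) μ (by
        intro q hq
        obtain ⟨j, -, rfl⟩ := List.mem_map.1 hq
        rw [dm_ext hφ]
        exact hμ j)
    rw [List.map_map, List.map_map, Finset.sum_map_toList, Finset.sum_map_toList] at h1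
    obtain ⟨h2, h3⟩ := h1
    constructor
    · refine Eq.trans ?_ h2
      refine Finset.sum_congr rfl fun j _ => ?_
      rw [Function.comp_apply, dm_ext hφ, mon_ext hφ]
    · refine Eq.trans ?_ h3
      refine Finset.sum_congr rfl fun j _ => ?_
      rw [Function.comp_apply, dm_ext hφ, mon_ext hφ, dm_ext hφ]

variable [IsOrderedAddMonoid Γ]

lemma IniTop.l_one (h : IniTop A y l z w ζ D) (h1 : (1 : K) ∈ A) : l 1 = 0 := by
  have h2 := h.lmul 1 h1 1 h1
  rw [mul_one] at h2
  exact left_eq_add.1 h2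

lemma IniTop.z_one (h : IniTop A y l z w ζ D) (h1 : (1 : K) ∈ A) : z 1 = 1 := by
  have h2 := h.zmul 1 h1 1 h1
  rw [mul_one] at h2
  exact (mul_eq_left₀ (h.z0 1 h1)).1 h2.symm

/-- The characteristic. -/
lemma IniTop.char (h : IniTop A y l z w ζ D) (h1 : (1 : K) ∈ A) (p : ℕ) [Fact p.Prime]
    [CharP K p] : (p : κ) = 0 := by
  classical
  have h2 := (h.rel (List.replicate p ((1 : K), (0 : Fin n → ℤ))) (by
    intro q hq
    rw [List.eq_of_mem_replicate hq]
    exact h1) (by
    rw [List.map_replicate, List.sum_replicate, mon_zero, mul_one, nsmul_one,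
      CharP.cast_eq_zero]) 0 (by
    intro q hq
    rw [List.eq_of_mem_replicate hq, h.l_one h1, dm_zero, add_zero])).1
  rw [List.map_replicate, List.sum_replicate, h.l_one h1, dm_zero, add_zero, if_pos rfl,
    h.z_one h1, mon_zero, mul_one, nsmul_one] at h2
  exact h2

/-- Radicals. -/
lemma IniTop.radical (h : IniTop A y l z w ζ D) (h1 : (1 : K) ∈ A) (hneg : ∀ a ∈ A, -a ∈ A)
    (p : ℕ) [Fact p.Prime] [CharP K p] (j : Fin n) (N : ℕ) (hN : ¬ p ∣ N) (a : K) (ha : a ∈ A)
    (e : Fin n → ℤ) (hj : y j ^ N = a * mon y e) : ∃ c : κ, D j = c • dm D e := by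
  classical
  have hp : p.Prime := Fact.out
  have e1 : mon y (Pi.single j (N : ℤ)) = y j ^ N := by
    unfold mon
    rw [Finset.prod_eq_single j]
    · rw [Pi.single_eq_same, zpow_natCast]
    · intro i _ hi
      rw [Pi.single_eq_of_ne hi, zpow_zero]
    · intro h; exact absurd (Finset.mem_univ _) h
  have e2 : dm D (Pi.single j (N : ℤ)) = (N : κ) • D j := by
    unfold dm
    rw [Finset.sum_eq_single j]
    · rw [Pi.single_eq_same, natCast_zsmul, Nat.cast_smul_eq_nsmul]
    · intro i _ hi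
      rw [Pi.single_eq_of_ne hi, zero_smul]
    · intro h; exact absurd (Finset.mem_univ _) h
  have key : ∀ μ, μ ≤ l 1 + dm w (Pi.single j (N : ℤ)) → μ ≤ l (-a) + dm w e → _ :=
    fun μ hμ hμ' => h.rel [((1 : K), Pi.single j (N : ℤ)), (-a, e)] (by
      intro q hq
      simp only [List.mem_cons, List.not_mem_nil, or_false] at hq
      rcases hq with rfl | rfl
      · exact h1
      · exact hneg a ha) (by
      simp only [List.map_cons, List.map_nil, List.sum_cons, List.sum_nil, add_zero]
      rw [e1, hj]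
      ring) μ (by
      intro q hq
      simp only [List.mem_cons, List.not_mem_nil, or_false] at hq
      rcases hq with rfl | rfl
      · exact hμ
      · exact hμ')
  simp only [List.map_cons, List.map_nil, List.sum_cons, List.sum_nil, add_zero] at key
  have hz1 : z 1 * mon ζ (Pi.single j (N : ℤ)) ≠ 0 := mul_ne_zero (h.z0 _ h1) (mon_ne h.ζ0 _)
  have hz2 : z (-a) * mon ζ e ≠ 0 := mul_ne_zero (h.z0 _ (hneg a ha)) (mon_ne h.ζ0 _)
  have heq : l 1 + dm w (Pi.single j (N : ℤ)) = l (-a) + dm w e := by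
    rcases lt_trichotomy (l 1 + dm w (Pi.single j (N : ℤ))) (l (-a) + dm w e) with hlt | heq | hlt
    · have h2 := (key _ le_rfl hlt.le).1
      rw [if_pos rfl, if_neg hlt.ne', add_zero] at h2
      exact absurd h2 hz1
    · exact heq
    · have h2 := (key _ hlt.le le_rfl).1
      rw [if_pos rfl, if_neg hlt.ne', zero_add] at h2
      exact absurd h2 hz2
  obtain ⟨h2, h3⟩ := key _ le_rfl heq.le
  rw [if_pos rfl, if_pos heq.symm] at h2 h3
  rw [eq_neg_of_add_eq_zero_right h2, neg_smul, ← sub_eq_add_neg, ← smul_sub, e2] at h3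
  have h4 := (smul_eq_zero.1 h3).resolve_left hz1
  have hNκ : (N : κ) ≠ 0 := by
    intro h0
    have hcop : Nat.Coprime N p := ((Nat.Prime.coprime_iff_not_dvd hp).2 hN).symm
    have h5 := Nat.isCoprime_iff_coprime.2 hcop
    obtain ⟨a', b', hab⟩ := h5
    have h6 := congrArg (Int.cast : ℤ → κ) hab
    push_cast at h6
    rw [h0, h.char h1 p, mul_zero, mul_zero, add_zero] at h6
    exact zero_ne_one h6
  refine ⟨(N : κ)⁻¹, ?_⟩
  rw [← sub_eq_zero.1 h4, inv_smul_smul₀ hNκ]

end ini

end Pool.Agent.T6.H12
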