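import Pool.Agent.T6.H12.Parts

/-!
# The bound with equations
-/

set_option autoImplicit false
set_option linter.unusedSectionVars false

universe u

open Polynomial

namespace Pool.Agent.T6.H12

section

variable {k K : Type u} [Field k] [Field K] [Algebra k K] {p : ℕ} [Fact p.Prime] [CharP k p]
  {m N n r n' : ℕ} {E : Fin m → IntermediateField k K} {σ : Fin N → Fin m} {x : Fin N → K}
  {τ : Fin n → Fin m} {V : ∀ s, Submodule (E (τ s)) K}
  {ι : Fin r → Type} [∀ j, Fintype (ι j)]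

/-- The bound. -/
theorem bound_eq (hx : ∀ a, Transcendental (E (σ a)) (x a))
    [∀ s, FiniteDimensional (E (τ s)) (V s)]
    (Px : ∀ a, Finset (E (σ a))[X]) (hPx : ∀ a, ∀ P ∈ Px a, P ≠ 0 ∧ P.natDegree < p)
    (hPx' : ∀ a, ∀ P ∈ Px a, 1 < P.natDegree → derivative P ∈ Px a)
    (Vx : Fin n → Finset K) (hVx : ∀ s, ∀ b ∈ Vx s, b ∈ V s) (f : Fin r → K)
    (y : Fin n' → K) (hy : Function.Injective y) (hy0 : ∀ j, y j ≠ 0)
    (hy1 : ∀ a, ∀ P ∈ Px a, aeval (x a) P ∈ Set.range y) (hy2 : ∀ s, ∀ b ∈ Vx s, b ∈ Set.range y)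
    (hy3 : ∀ j, f j ≠ 0 → f j ∈ Set.range y)
    (hy4 : ∀ j, (∃ a, ∃ P ∈ Px a, y j = aeval (x a) P) ∨ (∃ s, y j ∈ Vx s) ∨ ∃ l, f l = y j)
    (A : Set K) (hAE : ∀ i, ∀ a ∈ E i, a ≠ 0 → a ∈ A) (hAn : ∀ a ∈ A, -a ∈ A) (hA1 : 1 ∈ A)
    (i₀ : ∀ j, ι j) (cA : ∀ j, ι j → K) (hcA : ∀ j i, cA j i ∈ A)
    (cE : ∀ j, ι j → Fin n' → ℤ)
    (hcE : ∀ j i q, cE j i q ≠ 0 → ∃ a, ∃ P ∈ Px a, y q = aeval (x a) P)
    (d : ∀ j, ι j → Fin n → ℕ) (g : ∀ j i s, Fin (d j i s) → K)
    (hg : ∀ j i s t, g j i s t ∈ Vx s) (e : ∀ j, ι j → Fin r → ℕ)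
    (he : ∀ j i l, e j i l ≠ 0 → l < j ∧ f l ≠ 0)
    (hf : ∀ j, f j = ∑ i, cA j i * mon y (cE j i) * ((∏ s, ∏ t, g j i s t) * ∏ l, f l ^ e j i l))
    (deg : Fin r → Fin n → ZMod p)
    (hdeg : ∀ j s, deg j s = d j (i₀ j) s + ∑ l, e j (i₀ j) l * deg l s)
    (hind : LinearIndependent (ZMod p) fun q : (j : Fin r) × {i : ι j // i ≠ i₀ j} =>
      fun s => ((d q.1 q.2 s : ZMod p) + ∑ l, e q.1 q.2 l * deg l s) - deg q.1 s)
    {Γ κ W : Type*} [AddCommGroup Γ] [LinearOrder Γ] [IsOrderedAddMonoid Γ] [Field κ]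
    [IsAlgClosed κ] [AddCommGroup W] [Module κ W] {l : K → Γ} {z : K → κ} {w : Fin n' → Γ}
    {ζ : Fin n' → κ} {D : Fin n' → W} (h : IniTop A y l z w ζ D) :
    Module.finrank κ (Submodule.span κ (Set.range D)) + Nat.card {j // f j = 0} ≤
      N + ∑ s, Module.finrank (E (τ s)) (V s) := by
  classical
  have hchar : ∀ i, CharP (E i) p := fun i =>
    charP_of_injective_algebraMap (algebraMap k (E i)).injective p
  have hcK : CharP K p := charP_of_injective_algebraMap (algebraMap k K).injective p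
  have hcκ : CharP κ p := (CharP.charP_iff_prime_eq_zero Fact.out).2 (h.char hA1 p)
  choose τx hτx using fun a => line_part (p := p) h hy (E (σ a)) (hAE (σ a)) (hx a) (Px a)
    (hPx a) (hPx' a) (hy1 a)
  choose δ hδ using fun s => block_part h hy (E (τ s)) (hAE (τ s)) (V s) (Vx s) (hVx s) (hy2 s)
  let co : ZMod p →+* κ := ZMod.castHom (dvd_refl p) κ
  choose b hb using fun q => exists_dual' hind fun q' => if q = q' then (1 : ZMod p) else 0
  let G : Type := Fin N ⊕ ((s : Fin n) × Fin (Module.finrank (E (τ s)) (V s)))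
  let Φ0 : G → W := Sum.elim τx fun q => δ q.1 q.2
  let DD : K → W := fun b => dm D (ex y b)
  let B : ((j : Fin r) × {i : ι j // i ≠ i₀ j}) → G → κ := fun q =>
    Sum.elim 0 fun q' => co (b q q'.1)
  let T : ∀ j, ι j → W := fun j i => dm D (cE j i) + ∑ s, ∑ t, DD (g j i s t)
  let tt : ((j : Fin r) × {i : ι j // i ≠ i₀ j}) → ∀ j, ι j → κ := fun q j i =>
    ∑ s, (d j i s : κ) * co (b q s)
  let δδ : ((j : Fin r) × {i : ι j // i ≠ i₀ j}) → Fin r → κ := fun q l =>
    ∑ s, co (deg l s) * co (b q s)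
  have hlin : ∀ e : Fin n' → ℤ, (∀ q, e q ≠ 0 → ∃ a, ∃ P ∈ Px a, y q = aeval (x a) P) →
      ∃ c : Fin N → κ, dm D e = ∑ a, c a • τx a := by
    intro e he
    have hq : ∀ q, ∃ c : Fin N → κ, e q • D q = ∑ a, c a • τx a := by
      intro q
      by_cases h0 : e q = 0
      · exact ⟨0, by rw [h0, zero_smul]; simp⟩
      · obtain ⟨a, P, hP, hP'⟩ := he q h0
        obtain ⟨c, hc⟩ := hτx a P hP q hP'
        refine ⟨Pi.single a ((e q : κ) * c), ?_⟩
        rw [Finset.sum_eq_single a]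
        · rw [Pi.single_eq_same, hc, ← Int.cast_smul_eq_zsmul κ, smul_smul]
        · intro a' _ ha'
          rw [Pi.single_eq_of_ne ha', zero_smul]
        · intro h; exact absurd (Finset.mem_univ _) h
    choose c hc using hq
    refine ⟨fun a => ∑ q, c q a, ?_⟩
    unfold dm
    rw [Finset.sum_congr rfl fun q _ => hc q, Finset.sum_comm]
    exact Finset.sum_congr rfl fun a _ => (Finset.sum_smul).symm
  have hblk : ∀ s, ∀ v ∈ Vx s, ∃ γ : Fin (Module.finrank (E (τ s)) (V s)) → κ,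
      ∑ a, γ a = 1 ∧ DD v = ∑ a, γ a • δ s a := by
    intro s v hv
    obtain ⟨j, rfl⟩ := hy2 s v hv
    obtain ⟨γ, h1, h2⟩ := hδ s _ hv j rfl
    refine ⟨γ, h1, ?_⟩
    rw [← h2]
    exact dm_ex hy D j
  have hT : ∀ j i, ∃ c : G → κ, T j i = ∑ g, c g • Φ0 g ∧ ∀ q, ∑ g, c g * B q g = tt q j i := by
    intro j i
    obtain ⟨c, hc⟩ := hlin (cE j i) (hcE j i)
    choose γ hγ1 hγ2 using fun s t => hblk s (g j i s t) (hg j i s t)
    refine ⟨Sum.elim c fun q => ∑ t, γ q.1 t q.2, ?_, ?_⟩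
    · change dm D (cE j i) + ∑ s, ∑ t, DD (g j i s t) = _
      rw [Fintype.sum_sum_type, hc]
      congr 1
      rw [Fintype.sum_sigma]
      refine Finset.sum_congr rfl fun s _ => ?_
      rw [Finset.sum_congr rfl fun t _ => hγ2 s t, Finset.sum_comm]
      refine Finset.sum_congr rfl fun a _ => ?_
      rw [Sum.elim_inr, Finset.sum_smul]
      rfl
    · intro q
      rw [Fintype.sum_sum_type]
      have h1 : ∑ a, Sum.elim c (fun q : (s : Fin n) × Fin (Module.finrank (E (τ s)) (V s)) =>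
          ∑ t, γ q.1 t q.2) (Sum.inl a) * B q (Sum.inl a) = 0 := by
        refine Finset.sum_eq_zero fun a _ => ?_
        change _ * (0 : κ) = 0
        rw [mul_zero]
      rw [h1, zero_add, Fintype.sum_sigma]
      refine Finset.sum_congr rfl fun s _ => ?_
      change ∑ a, (∑ t, γ s t a) * co (b q s) = _
      rw [← Finset.sum_mul, Finset.sum_comm, Finset.sum_congr rfl fun t _ => hγ1 s t]
      simp
  -- the degrees
  have hδ' : ∀ q j i, tt q j i + ∑ l, (e j i l : κ) * δδ q l =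
      ∑ s, co ((d j i s : ZMod p) + ∑ l, e j i l * deg l s) * co (b q s) := by
    intro q j i
    have h1 : ∀ s, co ((d j i s : ZMod p) + ∑ l, e j i l * deg l s) * co (b q s) =
        (d j i s : κ) * co (b q s) + ∑ l, (e j i l : κ) * (co (deg l s) * co (b q s)) := by
      intro s
      rw [map_add, map_natCast, map_sum, add_mul, Finset.sum_mul]
      congr 1
      refine Finset.sum_congr rfl fun l _ => ?_
      rw [map_mul, map_natCast, mul_assoc]
    rw [Finset.sum_congr rfl fun s _ => h1 s, Finset.sum_add_distrib, Finset.sum_comm]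
    congr 1
    exact Finset.sum_congr rfl fun l _ => Finset.mul_sum _ _ _
  have hδ0 : ∀ q j, tt q j (i₀ j) + ∑ l, (e j (i₀ j) l : κ) * δδ q l = δδ q j := by
    intro q j
    rw [hδ']
    exact Finset.sum_congr rfl fun s _ => by rw [← hdeg]
  have hδ3 : ∀ q (q' : (j : Fin r) × {i : ι j // i ≠ i₀ j}),
      tt q q'.1 q'.2 + ∑ l, (e q'.1 q'.2 l : κ) * δδ q l =
        δδ q q'.1 + if q = q' then 1 else 0 := by
    intro q q'
    have h1 := congrArg co (hb q q')
    rw [map_sum] at h1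
    have h2 : co (if q = q' then (1 : ZMod p) else 0) = if q = q' then (1 : κ) else 0 := by
      split_ifs
      · exact map_one _
      · exact map_zero _
    rw [h2] at h1
    rw [hδ', ← h1]
    change _ = ∑ s, _ + _
    rw [← Finset.sum_add_distrib]
    refine Finset.sum_congr rfl fun s _ => ?_
    rw [map_mul, map_sub]
    ring
  -- the relations
  let ee : ∀ j, ι j → Fin n' → ℤ := fun j i =>
    cE j i + ∑ s, ∑ t, ex y (g j i s t) + ∑ l, e j i l • ex y (f l)
  have hmon : ∀ j i, cA j i * mon y (ee j i) =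
      cA j i * mon y (cE j i) * ((∏ s, ∏ t, g j i s t) * ∏ l, f l ^ e j i l) := by
    intro j i
    change cA j i * mon y (cE j i + ∑ s, ∑ t, ex y (g j i s t) + ∑ l, e j i l • ex y (f l)) = _
    rw [mon_add hy0, mon_add hy0, mon_sum hy0, mon_sum hy0, mul_assoc (cA j i) (mon y (cE j i)),
      mul_assoc (mon y (cE j i))]
    congr 3
    · refine Finset.prod_congr rfl fun s _ => ?_
      rw [mon_sum hy0]
      exact Finset.prod_congr rfl fun t _ => mon_ex hy (hy2 s _ (hg j i s t))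
    · refine Finset.prod_congr rfl fun l _ => ?_
      rw [mon_nsmul hy0]
      by_cases h0 : e j i l = 0
      · rw [h0, pow_zero, pow_zero]
      · rw [mon_ex hy (hy3 l (he j i l h0).2)]
  have hdm : ∀ j i, dm D (ee j i) = T j i + ∑ l, (e j i l : κ) • DD (f l) := by
    intro j i
    change dm D (cE j i + ∑ s, ∑ t, ex y (g j i s t) + ∑ l, e j i l • ex y (f l)) = _
    rw [dm_add, dm_add, dm_sum, dm_sum]
    congr 1
    · change _ = dm D (cE j i) + ∑ s, ∑ t, DD (g j i s t)
      congr 1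
      exact Finset.sum_congr rfl fun s _ => dm_sum _ _
    · exact Finset.sum_congr rfl fun l _ => dm_nsmul _ _
  have hm : ∀ j, ∃ (m : ι j → κ) (m0 : κ), (m0 = 0 → ∃ i, m i ≠ 0) ∧ m0 + ∑ i, m i = 0 ∧
      m0 • DD (f j) + ∑ i, m i • (T j i + ∑ l, (e j i l : κ) • DD (f l)) = 0 ∧
      (¬ f j ≠ 0 → m0 = 0) := by
    intro j
    by_cases hj : f j = 0
    · have : Nonempty (ι j) := ⟨i₀ j⟩
      obtain ⟨mm, h1, h2, h3⟩ := h.exists_rel (cA j) (hcA j) (ee j) (by
        rw [Finset.sum_congr rfl fun i _ => hmon j i, ← hf j, hj])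
      refine ⟨mm, 0, fun _ => h3, by rw [zero_add, h1], ?_, fun _ => rfl⟩
      rw [zero_smul, zero_add, ← h2]
      exact Finset.sum_congr rfl fun i _ => by rw [hdm]
    · obtain ⟨mm, h1, h2, h3⟩ := h.exists_rel (J := Option (ι j))
        (fun o => o.elim (-1) (cA j)) (by
          rintro (_ | i)
          · exact hAn 1 hA1
          · exact hcA j i) (fun o => o.elim (ex y (f j)) (ee j)) (by
          rw [Fintype.sum_option]
          simp only [Option.elim_none, Option.elim_some]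
          rw [Finset.sum_congr rfl fun i _ => hmon j i, ← hf j, mon_ex hy (hy3 j hj)]
          ring)
      rw [Fintype.sum_option] at h1 h2
      refine ⟨fun i => mm (some i), mm none, ?_, h1, ?_, fun h0 => absurd hj h0⟩
      · intro h0
        obtain ⟨o, ho⟩ := h3
        rcases o with _ | i
        · exact absurd h0 ho
        · exact ⟨i, ho⟩
      · rw [← h2]
        congr 1
        exact Finset.sum_congr rfl fun i _ => by rw [Option.elim_some, hdm]
  have key := count Φ0 i₀ (fun j => f j ≠ 0) (fun j => DD (f j)) T e he B tt δδ hT hδ0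
    (fun q j i hq => by
      have h1 := hδ3 q ⟨j, i⟩
      rwa [if_neg hq, add_zero] at h1)
    (fun q => by
      have h1 := hδ3 q q
      rwa [if_pos rfl] at h1) hm
  have hG : Fintype.card G = N + ∑ s, Module.finrank (E (τ s)) (V s) := by
    rw [Fintype.card_sum, Fintype.card_fin, Fintype.card_sigma]
    simp only [Fintype.card_fin]
  rw [hG] at key
  have hsp : Submodule.span κ (Set.range D) ≤
      Submodule.span κ (Set.range Φ0 ∪ (fun j => DD (f j)) '' {j | f j ≠ 0}) := by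
    rw [Submodule.span_le]
    rintro _ ⟨j, rfl⟩
    rcases hy4 j with ⟨a, P, hP, hj⟩ | ⟨s, hs⟩ | ⟨l', hl'⟩
    · obtain ⟨c, hc⟩ := hτx a P hP j hj
      rw [hc]
      exact Submodule.smul_mem _ _ (Submodule.subset_span (Or.inl ⟨Sum.inl a, rfl⟩))
    · obtain ⟨γ, -, hγ⟩ := hδ s _ hs j rfl
      rw [hγ]
      exact Submodule.sum_mem _ fun a _ => Submodule.smul_mem _ _
        (Submodule.subset_span (Or.inl ⟨Sum.inr ⟨s, a⟩, rfl⟩))
    · refine Submodule.subset_span (Or.inr ⟨l', ?_, ?_⟩)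
      · change f l' ≠ 0
        rw [hl']
        exact hy0 j
      · change dm D (ex y (f l')) = D j
        rw [hl', dm_ex hy]
  have hfin : FiniteDimensional κ
      (Submodule.span κ (Set.range Φ0 ∪ (fun j => DD (f j)) '' {j | f j ≠ 0})) :=
    FiniteDimensional.span_of_finite κ ((Set.finite_range _).union (Set.toFinite _))
  have h1 := Submodule.finrank_mono hsp
  have h2 : Nat.card {j // ¬ f j ≠ 0} = Nat.card {j // f j = 0} :=
    Nat.card_congr (Equiv.subtypeEquivRight fun j => not_not)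
  omega

end

end Pool.Agent.T6.H12
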