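import Pool.Agent.T6.H12.Good
import Pool.Agent.T6.H12.TowerDefs

/-!
# Unimodular sets
-/

set_option autoImplicit false
set_option linter.unusedSectionVars false

universe u

open Polynomial Pool.Agent.TH214.SD Pool.Agent.W558

namespace Pool.Agent.T6.H12

section circ

variable {k K : Type u} [Field k] [Field K] [Algebra k K]

lemma exists_circuit (F : IntermediateField k K) (G : Subgroup Kˣ) {B : Set K}
    (hB : IsUnimodular F G B) (T : Finset K) (hT : (T : Set K) ⊆ B)
    (hdep : ¬ LinearIndependent F fun b : T => (b : K)) :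
    ∃ g : K → K, (∃ b ∈ T, g b ≠ 0) ∧ (∀ b ∈ T, g b ≠ 0 → ∃ u ∈ G, (u : K) = g b) ∧
      ∑ b ∈ T, g b * b = 0 := by
  classical
  -- a minimal dependent subset
  obtain ⟨C, hC, hmin⟩ : ∃ C ⊆ T, (¬ LinearIndependent F fun b : C => (b : K)) ∧
      ∀ C' ⊂ C, LinearIndependent F fun b : C' => (b : K) := by
    obtain ⟨C, hC, hCmin⟩ := Finset.exists_minimal
      (s := T.powerset.filter fun C : Finset K => ¬ LinearIndependent F fun b : C => (b : K))
      ⟨T, Finset.mem_filter.2 ⟨Finset.mem_powerset_self T, hdep⟩⟩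
    obtain ⟨h1, h2⟩ := Finset.mem_filter.1 hC
    refine ⟨C, Finset.mem_powerset.1 h1, h2, fun C' hC' => ?_⟩
    by_contra h3
    have h4 := hCmin (Finset.mem_filter.2 ⟨Finset.mem_powerset.2
      (hC'.1.trans (Finset.mem_powerset.1 h1)), h3⟩) hC'.1
    exact hC'.2 h4
  obtain ⟨hCdep, hCmin⟩ := hmin
  rw [Fintype.not_linearIndependent_iff] at hCdep
  obtain ⟨g, hg, ⟨b0, hb0⟩, hgb0⟩ := hCdep
  let c : K → K := fun b => if h : b ∈ C then (g ⟨b, h⟩ : K) else 0
  have hcC : ∀ b : C, c b = g b := fun b => dif_pos b.2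
  have hsum : ∑ b ∈ C, c b * b = 0 := by
    rw [← Finset.sum_coe_sort, ← hg]
    refine Finset.sum_congr rfl fun b _ => ?_
    rw [hcC]
    rfl
  have hne : ∀ b ∈ C, c b ≠ 0 := by
    intro b hb h0
    have h1 := hCmin (C.erase b) (Finset.erase_ssubset hb)
    rw [Fintype.linearIndependent_iff] at h1
    have h2 : ∑ a : (C.erase b : Finset K), g ⟨a, Finset.mem_of_mem_erase a.2⟩ • (a : K) = 0 := by
      have h3 : ∑ a ∈ C.erase b, c a * a = 0 := by
        rw [← Finset.add_sum_erase _ _ hb, h0, zero_mul, zero_add] at hsum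
        exact hsum
      rw [← Finset.sum_coe_sort] at h3
      rw [← h3]
      refine Finset.sum_congr rfl fun a _ => ?_
      have h4 : c a = g ⟨a, Finset.mem_of_mem_erase a.2⟩ := dif_pos (Finset.mem_of_mem_erase a.2)
      rw [h4]
      rfl
    have h3 := h1 (fun a => g ⟨a, Finset.mem_of_mem_erase a.2⟩) h2
    by_cases hb0b : b0 = b
    · subst hb0b
      have h4 : c b0 = g ⟨b0, hb⟩ := dif_pos hb
      rw [h4] at h0
      exact hgb0 (Subtype.ext h0)
    · exact hgb0 (h3 ⟨b0, Finset.mem_erase.2 ⟨hb0b, hb0⟩⟩)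
  have hcF : ∀ b ∈ C, c b ∈ F ∧ c b ≠ 0 := fun b hb => ⟨by
    have h4 : c b = g ⟨b, hb⟩ := dif_pos hb
    rw [h4]
    exact (g ⟨b, hb⟩).2, hne b hb⟩
  have hrat := hB C c (fun b hb => hT (hC hb)) hcF hsum hCmin
  refine ⟨fun b => if b ∈ C then c b / c b0 else 0, ⟨b0, hC hb0, ?_⟩, ?_, ?_⟩
  · dsimp only
    rw [if_pos hb0]
    exact div_ne_zero (hne b0 hb0) (hne b0 hb0)
  · intro b _ hb
    dsimp only at hb ⊢
    by_cases hbC : b ∈ C
    · rw [if_pos hbC]
      obtain ⟨u, hu, h1⟩ := hrat b hbC b0 hb0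
      exact ⟨u, hu, by rw [h1, mul_div_cancel_right₀ _ (hne b0 hb0)]⟩
    · rw [if_neg hbC] at hb
      exact absurd rfl hb
  · have h1 : ∑ b ∈ T, (if b ∈ C then c b / c b0 else 0) * b = ∑ b ∈ C, c b / c b0 * b := by
      rw [← Finset.sum_subset hC]
      · exact Finset.sum_congr rfl fun b hb => by rw [if_pos hb]
      · intro b _ hb
        rw [if_neg hb, zero_mul]
    rw [h1]
    have h2 : ∀ b ∈ C, c b / c b0 * b = (c b0)⁻¹ * (c b * b) := fun b _ => by
      rw [div_eq_mul_inv]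
      ring
    rw [Finset.sum_congr rfl h2, ← Finset.mul_sum, hsum, mul_zero]

/-- Finitely many coefficients suffice for the relations in a finite set. -/
lemma exists_circuits (F : IntermediateField k K) (G : Subgroup Kˣ) {B : Set K}
    (hB : IsUnimodular F G B) (Bf : Finset K) (hBf : (Bf : Set K) ⊆ B) :
    ∃ TG : Finset Kˣ, (∀ u ∈ TG, u ∈ G) ∧ ∀ T ⊆ Bf,
      (¬ LinearIndependent F fun b : T => (b : K)) →
      ∃ g : K → K, (∃ b ∈ T, g b ≠ 0) ∧ (∀ b ∈ T, g b ≠ 0 → ∃ u ∈ TG, (u : K) = g b) ∧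
        ∑ b ∈ T, g b * b = 0 := by
  classical
  have h : ∀ T : Finset K, ∃ (TG : Finset Kˣ), (∀ u ∈ TG, u ∈ G) ∧ (T ⊆ Bf →
      (¬ LinearIndependent F fun b : T => (b : K)) →
      ∃ g : K → K, (∃ b ∈ T, g b ≠ 0) ∧ (∀ b ∈ T, g b ≠ 0 → ∃ u ∈ TG, (u : K) = g b) ∧
        ∑ b ∈ T, g b * b = 0) := by
    intro T
    by_cases hT : T ⊆ Bf ∧ ¬ LinearIndependent F fun b : T => (b : K)
    · obtain ⟨g, hg1, hg2, hg3⟩ := exists_circuit F G hB T
        ((Finset.coe_subset.2 hT.1).trans hBf) hT.2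
      have h1 : ∀ b : K, ∃ u : Kˣ, u ∈ G ∧ (b ∈ T → g b ≠ 0 → (u : K) = g b) := by
        intro b
        by_cases hb : b ∈ T ∧ g b ≠ 0
        · obtain ⟨u, hu, h2⟩ := hg2 b hb.1 hb.2
          exact ⟨u, hu, fun _ _ => h2⟩
        · exact ⟨1, one_mem G, fun h3 h4 => absurd ⟨h3, h4⟩ hb⟩
      choose uu huu1 huu2 using h1
      refine ⟨T.image uu, ?_, fun _ _ => ⟨g, hg1, fun b hb hb' => ⟨uu b,
        Finset.mem_image_of_mem uu hb, huu2 b hb hb'⟩, hg3⟩⟩
      intro u hu
      obtain ⟨b, -, rfl⟩ := Finset.mem_image.1 hu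
      exact huu1 b
    · exact ⟨∅, fun u hu => absurd hu (Finset.notMem_empty u), fun h1 h2 => absurd ⟨h1, h2⟩ hT⟩
  choose TG hTG1 hTG2 using h
  refine ⟨Bf.powerset.biUnion TG, ?_, ?_⟩
  · intro u hu
    obtain ⟨T, -, h1⟩ := Finset.mem_biUnion.1 hu
    exact hTG1 T u h1
  · intro T hT hdep
    obtain ⟨g, h1, h2, h3⟩ := hTG2 T hT hdep
    refine ⟨g, h1, fun b hb hb' => ?_, h3⟩
    obtain ⟨u, hu, h4⟩ := h2 b hb hb'
    exact ⟨u, Finset.mem_biUnion.2 ⟨T, Finset.mem_powerset.2 hT, hu⟩, h4⟩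

end circ

section block

variable {k K : Type u} [Field k] [Field K] [Algebra k K] {m n : ℕ} {A : Set K}
  {Γ κ W : Type*} [AddCommGroup Γ] [LinearOrder Γ] [IsOrderedAddMonoid Γ] [Field κ]
  [AddCommGroup W] [Module κ W] {y : Fin n → K} {l : K → Γ} {z : K → κ} {w : Fin n → Γ}
  {ζ : Fin n → κ} {D : Fin n → W}

lemma mono_aux (h : IniTop A y l z w ζ D) (hy : Function.Injective y) (hy0 : ∀ j, y j ≠ 0)
    (F : IntermediateField k K) (W0 : Submodule κ W) (Bf : Finset K)
    (hBf : ∀ b ∈ Bf, b ∈ Set.range y)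
    (H : ∀ T ⊆ Bf, (¬ LinearIndependent F fun b : T => (b : K)) →
      ∃ g : K → K, (∃ b ∈ T, g b ≠ 0) ∧ (∀ b ∈ T, g b ≠ 0 →
        ∃ a ∈ A, ∃ e : Fin n → ℤ, g b = a * mon y e ∧ dm D e ∈ W0) ∧ ∑ b ∈ T, g b * b = 0)
    (T : Finset K) (hT : T ⊆ Bf) :
    ∃ C ⊆ T, C.card ≤ Module.finrank F (Submodule.span F (T : Set K)) ∧
      ∀ b ∈ T, ∃ γ : K → κ, ∑ c ∈ C, γ c = 1 ∧
        dm D (ex y b) - ∑ c ∈ C, γ c • dm D (ex y c) ∈ W0 := by
  classical
  induction T using Finset.strongInduction with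
  | H T ih =>
    by_cases hli : LinearIndependent F (fun b : T => (b : K))
    · refine ⟨T, subset_rfl, ?_, fun b hb => ⟨fun c => if c = b then 1 else 0, ?_, ?_⟩⟩
      · have h1 := finrank_span_eq_card hli
        rw [Fintype.card_coe, Subtype.range_coe_subtype] at h1
        exact h1.ge
      · rw [Finset.sum_ite_eq' T b fun _ => (1 : κ), if_pos hb]
      · have h1 : ∑ c ∈ T, (if c = b then (1 : κ) else 0) • dm D (ex y c) = dm D (ex y b) := by
          rw [Finset.sum_eq_single b]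
          · rw [if_pos rfl, one_smul]
          · intro c _ hc
            rw [if_neg hc, zero_smul]
          · intro h2; exact absurd hb h2
        rw [h1, sub_self]
        exact zero_mem _
    · obtain ⟨g, hg1, hg2, hg3⟩ := H T hT hli
      let J : Finset K := T.filter fun b => g b ≠ 0
      have hJ : ∀ b ∈ J, b ∈ T ∧ g b ≠ 0 := fun b hb => Finset.mem_filter.1 hb
      have hch : ∀ b : K, ∃ (a : K) (e : Fin n → ℤ), b ∈ T → g b ≠ 0 →
          a ∈ A ∧ g b = a * mon y e ∧ dm D e ∈ W0 := by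
        intro b
        by_cases hb : b ∈ T ∧ g b ≠ 0
        · obtain ⟨a, ha, e, h1, h2⟩ := hg2 b hb.1 hb.2
          exact ⟨a, e, fun _ _ => ⟨ha, h1, h2⟩⟩
        · exact ⟨0, 0, fun h1 h2 => absurd ⟨h1, h2⟩ hb⟩
      choose a e hae using hch
      -- the relation, indexed by a type in the lowest universe
      let ψ : Fin J.card → K := fun i => (J.equivFin.symm i).1
      have hψ : ∀ i, ψ i ∈ J := fun i => (J.equivFin.symm i).2
      have hψi : Function.Injective ψ := fun i j hij =>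
        J.equivFin.symm.injective (Subtype.ext hij)
      have hψK : ∀ (Q : K → K), ∑ i, Q (ψ i) = ∑ b ∈ J, Q b := by
        intro Q
        rw [← Finset.sum_coe_sort J Q]
        exact Fintype.sum_equiv J.equivFin.symm _ _ fun i => rfl
      have hψκ : ∀ (Q : K → κ), ∑ i, Q (ψ i) = ∑ b ∈ J, Q b := by
        intro Q
        rw [← Finset.sum_coe_sort J Q]
        exact Fintype.sum_equiv J.equivFin.symm _ _ fun i => rfl
      have hψW : ∀ (Q : K → W), ∑ i, Q (ψ i) = ∑ b ∈ J, Q b := by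
        intro Q
        rw [← Finset.sum_coe_sort J Q]
        exact Fintype.sum_equiv J.equivFin.symm _ _ fun i => rfl
      have hrel : ∑ i, a (ψ i) * mon y (e (ψ i) + ex y (ψ i)) = 0 := by
        rw [hψK fun b => a b * mon y (e b + ex y b), ← hg3]
        rw [← Finset.sum_filter_of_ne (s := T) (p := fun b => g b ≠ 0)
          (f := fun b => g b * b) fun b _ hb h0 => hb (by simp only [h0, zero_mul])]
        refine Finset.sum_congr rfl fun b hb => ?_
        obtain ⟨h1, h2⟩ := hJ b hb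
        obtain ⟨h3, h4, h5⟩ := hae b h1 h2
        rw [mon_add hy0, mon_ex hy (hBf b (hT h1)), ← mul_assoc, ← h4]
      obtain ⟨b1, hb1, hgb1⟩ := hg1
      have hne : Nonempty (Fin J.card) := by
        rw [← Fin.pos_iff_nonempty, Finset.card_pos]
        exact ⟨b1, Finset.mem_filter.2 ⟨hb1, hgb1⟩⟩
      obtain ⟨mm, hm1, hm2, i1, hi1⟩ := h.exists_rel (fun i => a (ψ i))
        (fun i => (hae _ (hJ _ (hψ i)).1 (hJ _ (hψ i)).2).1)
        (fun i => e (ψ i) + ex y (ψ i)) hrel
      let c1 : K := ψ i1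
      have hc1T : c1 ∈ T := (hJ _ (hψ i1)).1
      obtain ⟨C, hC1, hC2, hC3⟩ := ih (T.erase c1) (Finset.erase_ssubset hc1T)
        ((Finset.erase_subset _ _).trans hT)
      refine ⟨C, hC1.trans (Finset.erase_subset _ _), hC2.trans ?_, ?_⟩
      · have hfin : FiniteDimensional F (Submodule.span F (T : Set K)) :=
          FiniteDimensional.span_of_finite F (Finset.finite_toSet _)
        exact Submodule.finrank_mono (Submodule.span_mono
          (Finset.coe_subset.2 (Finset.erase_subset _ _)))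
      · intro b hb
        by_cases hbc : b = c1
        · have hch2 : ∀ i : Fin J.card, ∃ γ : K → κ, i ≠ i1 → ∑ c ∈ C, γ c = 1 ∧
              dm D (ex y (ψ i)) - ∑ c ∈ C, γ c • dm D (ex y c) ∈ W0 := by
            intro i
            by_cases hi : i = i1
            · exact ⟨0, fun h0 => absurd hi h0⟩
            · obtain ⟨γ, hγ⟩ := hC3 (ψ i) (Finset.mem_erase.2
                ⟨fun h0 => hi (hψi h0), (hJ _ (hψ i)).1⟩)
              exact ⟨γ, fun _ => hγ⟩
          choose γ hγ using hch2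
          have hm1' : mm i1 + ∑ i ∈ Finset.univ.erase i1, mm i = 0 := by
            rw [Finset.add_sum_erase _ _ (Finset.mem_univ i1)]
            exact hm1
          refine ⟨fun c => ∑ i ∈ Finset.univ.erase i1, (-(mm i1)⁻¹ * mm i) * γ i c, ?_, ?_⟩
          · rw [Finset.sum_comm]
            have h3 : ∑ i ∈ Finset.univ.erase i1, ∑ c ∈ C, (-(mm i1)⁻¹ * mm i) * γ i c =
                ∑ i ∈ Finset.univ.erase i1, (-(mm i1)⁻¹ * mm i) := by
              refine Finset.sum_congr rfl fun i hi => ?_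
              rw [← Finset.mul_sum, (hγ i (Finset.mem_erase.1 hi).1).1, mul_one]
            rw [h3, ← Finset.mul_sum, (eq_neg_of_add_eq_zero_right hm1'), neg_mul_neg,
              inv_mul_cancel₀ hi1]
          · have h3 : ∑ c ∈ C, (∑ i ∈ Finset.univ.erase i1, (-(mm i1)⁻¹ * mm i) * γ i c) •
                dm D (ex y c) = ∑ i ∈ Finset.univ.erase i1, (-(mm i1)⁻¹ * mm i) •
                  ∑ c ∈ C, γ i c • dm D (ex y c) := by
              simp_rw [Finset.sum_smul, Finset.smul_sum]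
              rw [Finset.sum_comm]
              refine Finset.sum_congr rfl fun i _ => Finset.sum_congr rfl fun c _ => ?_
              rw [smul_smul]
            rw [← Finset.add_sum_erase _ _ (Finset.mem_univ i1)] at hm2
            have h5 := eq_neg_of_add_eq_zero_left hm2
            have h6 : dm D (e (ψ i1) + ex y (ψ i1)) = -(mm i1)⁻¹ •
                ∑ i ∈ Finset.univ.erase i1, mm i • dm D (e (ψ i) + ex y (ψ i)) := by
              rw [neg_smul, ← smul_neg, ← h5, inv_smul_smul₀ hi1]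
            have h7 : dm D (ex y b) = -(dm D (e (ψ i1))) + -(mm i1)⁻¹ •
                ∑ i ∈ Finset.univ.erase i1, mm i • dm D (e (ψ i) + ex y (ψ i)) := by
              rw [← h6, dm_add, hbc]
              change dm D (ex y (ψ i1)) = _
              abel
            rw [h3, h7, Finset.smul_sum, add_sub_assoc, ← Finset.sum_sub_distrib]
            refine Submodule.add_mem _ (Submodule.neg_mem _
              (hae _ (hJ _ (hψ i1)).1 (hJ _ (hψ i1)).2).2.2) (Submodule.sum_mem _ fun i hi => ?_)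
            rw [smul_smul, ← smul_sub, dm_add, add_sub_assoc]
            exact Submodule.smul_mem _ _ (Submodule.add_mem _
              (hae _ (hJ _ (hψ i)).1 (hJ _ (hψ i)).2).2.2
              (hγ i (Finset.mem_erase.1 hi).1).2)
        · exact hC3 b (Finset.mem_erase.2 ⟨hbc, hb⟩)

/-- The derivatives of the elements of a unimodular set. -/
theorem mono_block (h : IniTop A y l z w ζ D) (hy : Function.Injective y) (hy0 : ∀ j, y j ≠ 0)
    (F : IntermediateField k K) (W0 : Submodule κ W) (Bf : Finset K)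
    (hBf : ∀ b ∈ Bf, b ∈ Set.range y)
    (H : ∀ T ⊆ Bf, (¬ LinearIndependent F fun b : T => (b : K)) →
      ∃ g : K → K, (∃ b ∈ T, g b ≠ 0) ∧ (∀ b ∈ T, g b ≠ 0 →
        ∃ a ∈ A, ∃ e : Fin n → ℤ, g b = a * mon y e ∧ dm D e ∈ W0) ∧ ∑ b ∈ T, g b * b = 0)
    {N : ℕ} (hN : Module.finrank F (Submodule.span F (Bf : Set K)) ≤ N) :
    ∃ δ : Fin N → W, ∀ b ∈ Bf, ∃ γ : Fin N → κ, ∑ c, γ c = 1 ∧
      dm D (ex y b) - ∑ c, γ c • δ c ∈ W0 := by
  classical
  obtain ⟨C, -, hC2, hC3⟩ := mono_aux h hy hy0 F W0 Bf hBf H Bf subset_rfl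
  obtain ⟨f⟩ : Nonempty (C ↪ Fin N) := by
    rw [Function.Embedding.nonempty_iff_card_le, Fintype.card_coe, Fintype.card_fin]
    exact hC2.trans hN
  refine ⟨Function.extend f (fun b => dm D (ex y (b : K))) 0, fun b hb => ?_⟩
  obtain ⟨γ, hγ1, hγ2⟩ := hC3 b hb
  refine ⟨Function.extend f (fun c => γ c) 0, ?_, ?_⟩
  · rw [← hγ1, ← Finset.sum_coe_sort C]
    refine (Fintype.sum_of_injective f f.injective _ _ ?_ ?_).symm
    · intro q hq
      rw [Function.extend_apply' _ _ _ (fun ⟨i, hi⟩ => hq ⟨i, hi⟩), Pi.zero_apply]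
    · intro c
      rw [f.injective.extend_apply]
  · have h1 : ∑ c, Function.extend f (fun c => γ c) 0 c •
        Function.extend f (fun b => dm D (ex y (b : K))) 0 c = ∑ c ∈ C, γ c • dm D (ex y c) := by
      rw [← Finset.sum_coe_sort C]
      refine (Fintype.sum_of_injective f f.injective _ _ ?_ ?_).symm
      · intro q hq
        rw [Function.extend_apply' _ _ _ (fun ⟨i, hi⟩ => hq ⟨i, hi⟩), Pi.zero_apply, zero_smul]
      · intro c
        rw [f.injective.extend_apply, f.injective.extend_apply]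
    rw [h1]
    exact hγ2

end block

end Pool.Agent.T6.H12
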