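import Pool.Agent.T6.H12.Level

/-!
# Compactness
-/

set_option autoImplicit false

universe u

open Pool.Agent.TH214.SD Filter

namespace Pool.Agent.T6.H12

variable {k K : Type u} [Field k] [Field K] [Algebra k K] {n : ℕ}

open scoped Classical in
/-- Initial data for the monomials in `y` with coefficients in `A`. -/
structure IniTop {Γ κ W : Type*} [AddCommGroup Γ] [LinearOrder Γ] [Field κ] [AddCommGroup W]
    [Module κ W] (A : Set K) (y : Fin n → K) (l : K → Γ) (z : K → κ) (w : Fin n → Γ)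
    (ζ : Fin n → κ) (D : Fin n → W) : Prop where
  z0 : ∀ a ∈ A, z a ≠ 0
  ζ0 : ∀ j, ζ j ≠ 0
  lmul : ∀ a ∈ A, ∀ b ∈ A, l (a * b) = l a + l b
  zmul : ∀ a ∈ A, ∀ b ∈ A, z (a * b) = z a * z b
  rel : ∀ L : List (K × (Fin n → ℤ)), (∀ q ∈ L, q.1 ∈ A) →
    (L.map fun q => q.1 * mon y q.2).sum = 0 → ∀ μ, (∀ q ∈ L, μ ≤ l q.1 + dm w q.2) →
    (L.map fun q => if l q.1 + dm w q.2 = μ then z q.1 * mon ζ q.2 else 0).sum = 0 ∧
    (L.map fun q => if l q.1 + dm w q.2 = μ then (z q.1 * mon ζ q.2) • dm D q.2 else 0).sum = 0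

/-- The relations. -/
def Item (A : Set K) (y : Fin n → K) : Type u :=
  {L : List (K × (Fin n → ℤ)) // (∀ q ∈ L, q.1 ∈ A) ∧ (L.map fun q => q.1 * mon y q.2).sum = 0} ⊕
    {q : K × K // q.1 ∈ A ∧ q.2 ∈ A}

open scoped Classical in
/-- The relation `r` is satisfied. -/
def Sat {F W : Type*} [Field F] [AddCommGroup W] [Module F W] {A : Set K} {y : Fin n → K}
    (l : K → ℤ) (z : K → F) (w : Fin n → ℤ) (ζ : Fin n → F) (D : Fin n → W) : Item A y → Prop
  | Sum.inl L => ∀ μ, (∀ q ∈ L.1, μ ≤ l q.1 + dm w q.2) →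
    (L.1.map fun q => if l q.1 + dm w q.2 = μ then z q.1 * mon ζ q.2 else 0).sum = 0 ∧
    (L.1.map fun q => if l q.1 + dm w q.2 = μ then (z q.1 * mon ζ q.2) • dm D q.2 else 0).sum = 0
  | Sum.inr q => l (q.1.1 * q.1.2) = l q.1.1 + l q.1.2 ∧ z (q.1.1 * q.1.2) = z q.1.1 * z q.1.2

/-- The coefficients of a relation. -/
noncomputable def vars {A : Set K} {y : Fin n → K} [DecidableEq K] : Item A y → Finset K
  | Sum.inl L => (L.1.map Prod.fst).toFinset
  | Sum.inr q => {q.1.1, q.1.2, q.1.1 * q.1.2}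

lemma supp_list {Q X R : Type*} [Semiring R] (L : List Q) (f : Q → X) {e : X}
    (he : e ∈ ((L.map fun q => Finsupp.single (f q) (1 : R)).sum).support) :
    ∃ q ∈ L, e = f q := by
  classical
  induction L with
  | nil => simp at he
  | cons a L ih =>
    rw [List.map_cons, List.sum_cons] at he
    rcases Finset.mem_union.1 (Finsupp.support_add he) with h | h
    · refine ⟨a, List.mem_cons_self, ?_⟩
      exact Finset.mem_singleton.1 (Finsupp.support_single_subset h)
    · obtain ⟨q, hq, h1⟩ := ih h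
      exact ⟨q, List.mem_cons_of_mem _ hq, h1⟩

lemma list_smul_sum {R M Q : Type*} [AddCommMonoid M] [Zero R] (L : List Q) (f g : Q → M)
    (h : ∀ q ∈ L, f q = g q) : (L.map f).sum = (L.map g).sum := by
  rw [List.map_congr_left h]

/-- The failure of the schön condition for finitely many relations. -/
theorem level {c d : ℕ} (hcd : c + d = n) (A : Set K) (hA0 : ∀ a ∈ A, a ≠ 0)
    (hAm : ∀ a ∈ A, ∀ b ∈ A, a * b ∈ A) (y : Fin n → K)
    (hcon : ∀ (h : ℕ) (u : Fin h → K) (q : ℕ) (G : Fin q → (Fin h ⊕ Fin n → ℤ) →₀ k),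
      (∀ b, u b ∈ A) → (∀ i, value (G i) u y = 0) → ¬ SchonEquations G c)
    (S : Finset (Item A y)) :
    ∃ (l : K → ℤ) (z : K → AlgebraicClosure k) (w : Fin n → ℤ) (ζ : Fin n → AlgebraicClosure k)
      (D : Fin n → Fin (d + 1) → AlgebraicClosure k)
      (R : Fin (d + 1) → Fin n → AlgebraicClosure k), (∀ a, z a ≠ 0) ∧ (∀ j, ζ j ≠ 0) ∧
      (∀ a, ∑ j, R a j • D j = Pi.single a 1) ∧ ∀ r ∈ S, Sat l z w ζ D r := by
  classical
  let T : Finset K := S.biUnion vars
  have hTA : ∀ a ∈ T, a ∈ A := by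
    intro a ha
    obtain ⟨r, -, hr⟩ := Finset.mem_biUnion.1 ha
    rcases r with L | q
    · obtain ⟨q, hq, rfl⟩ := List.mem_map.1 (List.mem_toFinset.1 hr)
      exact L.2.1 q hq
    · change a ∈ ({q.1.1, q.1.2, q.1.1 * q.1.2} : Finset K) at hr
      simp only [Finset.mem_insert, Finset.mem_singleton] at hr
      rcases hr with rfl | rfl | rfl
      · exact q.2.1
      · exact q.2.2
      · exact hAm _ q.2.1 _ q.2.2
  let ε : Fin T.card ≃ T := T.equivFin.symm
  let u : Fin T.card → K := fun b => (ε b : K)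
  let δ : K → Fin T.card → ℤ := fun a b => if (ε b : K) = a then 1 else 0
  have hδ : ∀ {G : Type u} [CommGroupWithZero G] (v : Fin T.card → G) (b0 : Fin T.card),
      ∏ b, v b ^ δ (u b0) b = v b0 := by
    intro G _ v b0
    rw [Finset.prod_eq_single b0]
    · have h1 : δ (u b0) b0 = 1 := if_pos rfl
      rw [h1, zpow_one]
    · intro b _ hb
      have h1 : δ (u b0) b = 0 := if_neg fun h => hb (ε.injective (Subtype.ext h))
      rw [h1, zpow_zero]
    · intro h; exact absurd (Finset.mem_univ _) h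
  have hu : ∀ a ∈ T, ∃ b, u b = a := fun a ha => ⟨ε.symm ⟨a, ha⟩, by simp [u]⟩
  let GI : Item A y → (Fin T.card ⊕ Fin n → ℤ) →₀ k := fun r =>
    match r with
    | Sum.inl L => (L.1.map fun q => Finsupp.single (Sum.elim (δ q.1) q.2) (1 : k)).sum
    | Sum.inr q => Finsupp.single (Sum.elim (δ q.1.1 + δ q.1.2) 0) 1 -
        Finsupp.single (Sum.elim (δ (q.1.1 * q.1.2)) 0) 1
  let τ : Fin S.card ≃ S := S.equivFin.symm
  have hval : ∀ r ∈ S, value (GI r) u y = 0 := by
    intro r hr
    have hsub : ∀ a ∈ vars r, a ∈ T := fun a ha => Finset.mem_biUnion.2 ⟨r, hr, ha⟩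
    have hprod : ∀ a ∈ T, ∏ b, u b ^ δ a b = a := by
      intro a ha
      obtain ⟨b, rfl⟩ := hu a ha
      exact hδ u b
    rw [value_eq]
    rcases r with L | q
    · change Finsupp.linearCombination k _
        (L.1.map fun q => Finsupp.single (Sum.elim (δ q.1) q.2) (1 : k)).sum = 0
      rw [map_list_sum, List.map_map]
      refine Eq.trans ?_ L.2.2
      refine congrArg List.sum (List.map_congr_left fun q hq => ?_)
      rw [Function.comp_apply, Finsupp.linearCombination_single, one_smul, Fintype.prod_sum_type]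
      simp only [Sum.elim_inl, Sum.elim_inr]
      rw [hprod q.1 (hsub _ (List.mem_toFinset.2 (List.mem_map_of_mem hq)))]
      rfl
    · change Finsupp.linearCombination k _ (Finsupp.single (Sum.elim (δ q.1.1 + δ q.1.2) 0) 1 -
        Finsupp.single (Sum.elim (δ (q.1.1 * q.1.2)) 0) 1) = 0
      have h1 : q.1.1 ∈ T := hsub _ (by
        change _ ∈ ({q.1.1, q.1.2, q.1.1 * q.1.2} : Finset K); simp)
      have h2 : q.1.2 ∈ T := hsub _ (by
        change _ ∈ ({q.1.1, q.1.2, q.1.1 * q.1.2} : Finset K); simp)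
      have h3 : q.1.1 * q.1.2 ∈ T := hsub _ (by
        change _ ∈ ({q.1.1, q.1.2, q.1.1 * q.1.2} : Finset K); simp)
      rw [map_sub, Finsupp.linearCombination_single, Finsupp.linearCombination_single, one_smul,
        one_smul, Fintype.prod_sum_type, Fintype.prod_sum_type]
      simp only [Sum.elim_inl, Sum.elim_inr, Pi.zero_apply, zpow_zero, Finset.prod_const_one,
        mul_one, Pi.add_apply]
      have hu0 : ∀ b, u b ≠ 0 := fun b => hA0 _ (hTA _ (ε b).2)
      have h4 : ∏ b, u b ^ (δ q.1.1 b + δ q.1.2 b) = q.1.1 * q.1.2 := by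
        rw [← hprod _ h1, ← hprod _ h2]
        conv_rhs => rw [← Finset.prod_mul_distrib]
        rw [hprod _ h1, hprod _ h2]
        exact Finset.prod_congr rfl fun b _ => zpow_add₀ (hu0 b) _ _
      rw [h4, hprod _ h3, sub_self]
  have hneg := hcon T.card u S.card (fun i => GI (τ i)) (fun b => hTA _ (ε b).2)
    (fun i => hval _ (τ i).2)
  unfold SchonEquations at hneg
  push Not at hneg
  obtain ⟨l', z', hz', hv, hrk⟩ := hneg
  obtain ⟨D, R, hD, hR⟩ := exists_orth hcd _ hrk
  let l : K → ℤ := fun a => ∑ b, l' (Sum.inl b) * δ a b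
  let z : K → AlgebraicClosure k := fun a => ∏ b, z' (Sum.inl b) ^ δ a b
  let w : Fin n → ℤ := fun j => l' (Sum.inr j)
  let ζ : Fin n → AlgebraicClosure k := fun j => z' (Sum.inr j)
  have hwt : ∀ (a : K) (e : Fin n → ℤ), wte l' (Sum.elim (δ a) e) = l a + dm w e := by
    intro a e
    unfold wte
    rw [Fintype.sum_sum_type]
    simp only [Sum.elim_inl, Sum.elim_inr]
    congr 1
    exact Finset.sum_congr rfl fun j _ => by rw [smul_eq_mul, mul_comm]
  have hzt : ∀ (a : K) (e : Fin n → ℤ), ∏ j, z' j ^ (Sum.elim (δ a) e : Fin T.card ⊕ Fin n → ℤ) j =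
      z a * mon ζ e := by
    intro a e
    rw [Fintype.prod_sum_type]
    rfl
  refine ⟨l, z, w, ζ, D, R, ?_, ?_, hR, ?_⟩
  · intro a
    exact Finset.prod_ne_zero_iff.2 fun b _ => zpow_ne_zero _ (hz' _)
  · intro j
    exact hz' _
  · intro r hr
    have hi : GI (τ (τ.symm ⟨r, hr⟩)) = GI r := by rw [Equiv.apply_symm_apply]
    have hv1 : initialValue (GI r) l' z' = 0 := by
      rw [← hi]
      exact hv (τ.symm ⟨r, hr⟩)
    have hv2 : ∑ j, initialGradient (GI r) l' z' j • D j = 0 := by
      rw [← hi]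
      exact hD _ (Submodule.subset_span ⟨τ.symm ⟨r, hr⟩, rfl⟩)
    rcases r with L | q
    · intro μ hμ
      have hsupp : ∀ e ∈ (GI (Sum.inl L)).support, μ ≤ wte l' e := by
        intro e he
        obtain ⟨q, hq, rfl⟩ := supp_list L.1 (fun q => Sum.elim (δ q.1) q.2) he
        rw [hwt]
        exact hμ q hq
      have h1 := part_value l' z' _ hv1 μ hsupp
      have h2 := part_gradient l' z' D _ hv2 μ hsupp
      change part k _ _ _ (L.1.map fun q => Finsupp.single (Sum.elim (δ q.1) q.2) (1 : k)).sum = 0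
        at h1 h2
      rw [map_list_sum, List.map_map] at h1 h2
      constructor
      · refine Eq.trans ?_ h1
        refine congrArg List.sum (List.map_congr_left fun q hq => ?_)
        rw [Function.comp_apply, part_single, hzt, hwt]
      · refine Eq.trans ?_ h2
        refine congrArg List.sum (List.map_congr_left fun q hq => ?_)
        rw [Function.comp_apply, part_single, hzt, hwt]
        rfl
    · change initialValue (Finsupp.single (Sum.elim (δ q.1.1 + δ q.1.2) 0) (1 : k) -
        Finsupp.single (Sum.elim (δ (q.1.1 * q.1.2)) 0) 1) l' z' = 0 at hv1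
      have hw1 : wte l' (Sum.elim (δ q.1.1 + δ q.1.2) 0) = l q.1.1 + l q.1.2 := by
        unfold wte
        rw [Fintype.sum_sum_type]
        simp only [Sum.elim_inl, Sum.elim_inr, Pi.zero_apply, mul_zero, Finset.sum_const_zero,
          add_zero, Pi.add_apply, mul_add]
        rw [Finset.sum_add_distrib]
      have hw2 : wte l' (Sum.elim (δ (q.1.1 * q.1.2)) 0) = l (q.1.1 * q.1.2) := by
        rw [hwt, dm_zero, add_zero]
      have hz1 : ∏ j, z' j ^ (Sum.elim (δ q.1.1 + δ q.1.2) 0 : Fin T.card ⊕ Fin n → ℤ) j =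
          z q.1.1 * z q.1.2 := by
        rw [Fintype.prod_sum_type]
        simp only [Sum.elim_inl, Sum.elim_inr, Pi.zero_apply, zpow_zero, Finset.prod_const_one,
          mul_one, Pi.add_apply, z]
        rw [← Finset.prod_mul_distrib]
        exact Finset.prod_congr rfl fun b _ => zpow_add₀ (hz' _) _ _
      have hz2 : ∏ j, z' j ^ (Sum.elim (δ (q.1.1 * q.1.2)) 0 : Fin T.card ⊕ Fin n → ℤ) j =
          z (q.1.1 * q.1.2) := by
        rw [hzt, mon_zero, mul_one]
      have hz10 : z q.1.1 * z q.1.2 ≠ 0 := mul_ne_zero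
        (Finset.prod_ne_zero_iff.2 fun b _ => zpow_ne_zero _ (hz' _))
        (Finset.prod_ne_zero_iff.2 fun b _ => zpow_ne_zero _ (hz' _))
      have hz20 : z (q.1.1 * q.1.2) ≠ 0 :=
        Finset.prod_ne_zero_iff.2 fun b _ => zpow_ne_zero _ (hz' _)
      have key : ∀ μ, μ ≤ l q.1.1 + l q.1.2 → μ ≤ l (q.1.1 * q.1.2) →
          (if l q.1.1 + l q.1.2 = μ then z q.1.1 * z q.1.2 else 0) =
            if l (q.1.1 * q.1.2) = μ then z (q.1.1 * q.1.2) else 0 := by
        intro μ h1 h2
        have h3 := part_value l' z' _ hv1 μ (by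
          intro e he
          rcases Finset.mem_union.1 (Finsupp.support_sub he) with h | h
          · rw [Finset.mem_singleton.1 (Finsupp.support_single_subset h), hw1]
            exact h1
          · rw [Finset.mem_singleton.1 (Finsupp.support_single_subset h), hw2]
            exact h2)
        rw [map_sub, part_single, part_single, hw1, hw2, hz1, hz2] at h3
        exact sub_eq_zero.1 h3
      have hl : l (q.1.1 * q.1.2) = l q.1.1 + l q.1.2 := by
        rcases lt_trichotomy (l (q.1.1 * q.1.2)) (l q.1.1 + l q.1.2) with h | h | h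
        · have h1 := key _ h.le le_rfl
          rw [if_neg h.ne', if_pos rfl] at h1
          exact absurd h1.symm hz20
        · exact h
        · have h1 := key _ le_rfl h.le
          rw [if_pos rfl, if_neg h.ne'] at h1
          exact absurd h1 hz10
      refine ⟨hl, ?_⟩
      have h1 := key _ le_rfl hl.ge
      rw [if_pos rfl, if_pos hl] at h1
      exact h1.symm

end Pool.Agent.T6.H12
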