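import Mathlib

/-!
# Counting relations between derivatives
-/

set_option autoImplicit false
set_option linter.unusedSectionVars false

namespace Pool.Agent.T6.H12

/-- A triangular family of functionals shows the linear independence of the vectors. -/
lemma li_of_triang' {κ M : Type*} [Field κ] [AddCommGroup M] [Module κ M] {J : Type*} [LinearOrder J]
    [Fintype J] (R : J → M) (θ : J → M →ₗ[κ] κ) (h1 : ∀ j, θ j (R j) ≠ 0)
    (h2 : ∀ j j', j < j' → θ j' (R j) = 0) : LinearIndependent κ R := by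
  classical
  rw [Fintype.linearIndependent_iff]
  intro g hg
  by_contra hcon
  push Not at hcon
  obtain ⟨i0, hi0⟩ := hcon
  obtain ⟨j, hj, hmax⟩ := Finset.exists_max_image (Finset.univ.filter fun j => g j ≠ 0) id
    ⟨i0, Finset.mem_filter.2 ⟨Finset.mem_univ _, hi0⟩⟩
  have h3 := congrArg (θ j) hg
  rw [map_sum, map_zero, Finset.sum_eq_single j] at h3
  · rw [map_smul, smul_eq_mul] at h3
    exact mul_ne_zero (Finset.mem_filter.1 hj).2 (h1 j) h3
  · intro i _ hi
    by_cases hg0 : g i = 0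
    · rw [hg0, zero_smul, map_zero]
    · have h4 : i ≤ j := hmax i (Finset.mem_filter.2 ⟨Finset.mem_univ _, hg0⟩)
      rw [map_smul, h2 i j (lt_of_le_of_ne h4 hi), smul_zero]
  · intro h; exact absurd (Finset.mem_univ _) h

section

variable {κ W : Type*} [Field κ] [AddCommGroup W] [Module κ W] {G : Type} [Fintype G] {r : ℕ}
  {ι : Fin r → Type} [∀ j, Fintype (ι j)]

/-- The bound for the derivatives. -/
theorem countK (Φ0 : G → W) (i₀ : ∀ j, ι j) (P : Fin r → Prop) (Df : Fin r → W)
    (T : ∀ j, ι j → W) (e : ∀ j, ι j → Fin r → κ) (he : ∀ j i l, e j i l ≠ 0 → l < j ∧ P l)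
    (B : ((j : Fin r) × {i : ι j // i ≠ i₀ j}) → G → κ)
    (t : ((j : Fin r) × {i : ι j // i ≠ i₀ j}) → ∀ j, ι j → κ)
    (δ : ((j : Fin r) × {i : ι j // i ≠ i₀ j}) → Fin r → κ)
    (hT : ∀ j i, ∃ c : G → κ, T j i = ∑ g, c g • Φ0 g ∧ ∀ q, ∑ g, c g * B q g = t q j i)
    (hδ0 : ∀ q j, t q j (i₀ j) + ∑ l, e j (i₀ j) l * δ q l = δ q j)
    (hδ1 : ∀ q j (i : {i : ι j // i ≠ i₀ j}), q ≠ ⟨j, i⟩ →
      t q j i + ∑ l, e j i l * δ q l = δ q j)
    (hδ2 : ∀ (q : (j : Fin r) × {i : ι j // i ≠ i₀ j}),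
      t q q.1 q.2 + ∑ l, e q.1 q.2 l * δ q l = δ q q.1 + 1)
    (hm : ∀ j, ∃ (m : ι j → κ) (m0 : κ), (m0 = 0 → ∃ i, m i ≠ 0) ∧ m0 + ∑ i, m i = 0 ∧
      m0 • Df j + ∑ i, m i • (T j i + ∑ l, e j i l • Df l) = 0 ∧ (¬ P j → m0 = 0)) :
    Module.finrank κ (Submodule.span κ (Set.range Φ0 ∪ Df '' {j | P j})) +
      Nat.card {j // ¬ P j} ≤ Fintype.card G := by
  classical
  choose m m0 hm1 hm2 hm3 hm4 using hm
  let J1 : Type := {j : Fin r // P j ∧ m0 j = 0}
  let Φ : (G ⊕ J1 → κ) →ₗ[κ] W := Fintype.linearCombination κ (Sum.elim Φ0 fun j => Df j.1)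
  let θ : ((j : Fin r) × {i : ι j // i ≠ i₀ j}) → (G ⊕ J1 → κ) →ₗ[κ] κ := fun q =>
    Fintype.linearCombination κ (Sum.elim (B q) fun j => δ q j.1)
  have hΦ : ∀ c : G → κ, Φ (Sum.elim c 0) = ∑ g, c g • Φ0 g := by
    intro c
    rw [Fintype.linearCombination_apply, Fintype.sum_sum_type]
    simp
  have hθ : ∀ q (c : G → κ), θ q (Sum.elim c 0) = ∑ g, c g * B q g := by
    intro q c
    rw [Fintype.linearCombination_apply, Fintype.sum_sum_type]
    simp
  -- the terms
  have term : ∀ j : Fin r, (∀ l, l < j → P l → ∃ c : G ⊕ J1 → κ, Φ c = Df l ∧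
      ∀ q, l < q.1 → θ q c = δ q l) → ∀ i : ι j, ∃ c : G ⊕ J1 → κ,
      Φ c = T j i + ∑ l, e j i l • Df l ∧
      ∀ q, j ≤ q.1 → θ q c = t q j i + ∑ l, e j i l * δ q l := by
    intro j hj i
    obtain ⟨cT, hcT1, hcT2⟩ := hT j i
    have hch : ∀ l, ∃ c : G ⊕ J1 → κ, (l < j → P l → Φ c = Df l ∧
        ∀ q, l < q.1 → θ q c = δ q l) := by
      intro l
      by_cases hl : l < j ∧ P l
      · obtain ⟨c, hc⟩ := hj l hl.1 hl.2
        exact ⟨c, fun _ _ => hc⟩
      · exact ⟨0, fun h1 h2 => absurd ⟨h1, h2⟩ hl⟩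
    choose c hc using hch
    refine ⟨Sum.elim cT 0 + ∑ l, e j i l • c l, ?_, ?_⟩
    · rw [map_add, hΦ, ← hcT1, map_sum]
      congr 1
      refine Finset.sum_congr rfl fun l _ => ?_
      rw [map_smul]
      by_cases h0 : e j i l = 0
      · rw [h0, zero_smul, zero_smul]
      · rw [(hc l (he j i l h0).1 (he j i l h0).2).1]
    · intro q hq
      rw [map_add, hθ, hcT2, map_sum]
      congr 1
      refine Finset.sum_congr rfl fun l _ => ?_
      rw [map_smul, smul_eq_mul]
      by_cases h0 : e j i l = 0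
      · rw [h0, zero_mul, zero_mul]
      · rw [(hc l (he j i l h0).1 (he j i l h0).2).2 q (lt_of_lt_of_le (he j i l h0).1 hq)]
  have lift : ∀ j : Fin r, P j → ∃ c : G ⊕ J1 → κ, Φ c = Df j ∧ ∀ q, j < q.1 → θ q c = δ q j := by
    intro j
    induction j using WellFoundedLT.induction with
    | ind j ih =>
      intro hPj
      by_cases h0 : m0 j = 0
      · refine ⟨Pi.single (Sum.inr ⟨j, hPj, h0⟩) 1, ?_, ?_⟩
        · rw [Fintype.linearCombination_apply_single, one_smul]
          rfl
        · intro q _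
          rw [Fintype.linearCombination_apply_single, one_smul]
          rfl
      · choose c hc1 hc2 using term j ih
        refine ⟨∑ i, (-(m0 j)⁻¹ * m j i) • c i, ?_, ?_⟩
        · rw [map_sum]
          have h1 := hm3 j
          have h2 : ∑ i, Φ ((-(m0 j)⁻¹ * m j i) • c i) =
              -(m0 j)⁻¹ • ∑ i, m j i • (T j i + ∑ l, e j i l • Df l) := by
            rw [Finset.smul_sum]
            refine Finset.sum_congr rfl fun i _ => ?_
            rw [map_smul, hc1, smul_smul]
          rw [h2, eq_neg_of_add_eq_zero_right h1, smul_neg, neg_smul, neg_neg, inv_smul_smul₀ h0]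
        · intro q hq
          rw [map_sum]
          have h2 : ∀ i, θ q ((-(m0 j)⁻¹ * m j i) • c i) = (-(m0 j)⁻¹ * m j i) * δ q j := by
            intro i
            rw [map_smul, hc2 i q hq.le, smul_eq_mul]
            congr 1
            by_cases hi : i = i₀ j
            · rw [hi, hδ0]
            · exact hδ1 q j ⟨i, hi⟩ fun h => hq.ne (congrArg Sigma.fst h).symm
          rw [Finset.sum_congr rfl fun i _ => h2 i, ← Finset.sum_mul, ← Finset.mul_sum,
            eq_neg_of_add_eq_zero_right (hm2 j), neg_mul_neg, inv_mul_cancel₀ h0, one_mul]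
  -- the relations
  have rels : ∀ j : {j : Fin r // m0 j = 0}, ∃ (R : G ⊕ J1 → κ)
      (q : (j : Fin r) × {i : ι j // i ≠ i₀ j}), Φ R = 0 ∧ q.1 = j.1 ∧ θ q R ≠ 0 ∧
      ∀ q' : (j : Fin r) × {i : ι j // i ≠ i₀ j}, j.1 < q'.1 → θ q' R = 0 := by
    rintro ⟨j, hj⟩
    choose c hc1 hc2 using term j fun l _ hl => lift l hl
    have hs : ∑ i, m j i = 0 := by
      have h1 := hm2 j
      rwa [hj, zero_add] at h1
    obtain ⟨i', hi', hmi'⟩ : ∃ i', i' ≠ i₀ j ∧ m j i' ≠ 0 := by
      by_contra hcon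
      push Not at hcon
      obtain ⟨i, hi⟩ := hm1 j hj
      by_cases h1 : i = i₀ j
      · rw [Finset.sum_eq_single (i₀ j)] at hs
        · exact hi (h1 ▸ hs)
        · intro b _ hb
          exact hcon b hb
        · intro h; exact absurd (Finset.mem_univ _) h
      · exact hi (hcon i h1)
    have hval : ∀ q : (j : Fin r) × {i : ι j // i ≠ i₀ j}, j ≤ q.1 →
        θ q (∑ i, m j i • c i) = ∑ i, m j i * (t q j i + ∑ l, e j i l * δ q l) := by
      intro q hq
      rw [map_sum]
      refine Finset.sum_congr rfl fun i _ => ?_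
      rw [map_smul, smul_eq_mul, hc2 i q hq]
    refine ⟨∑ i, m j i • c i, ⟨j, i', hi'⟩, ?_, rfl, ?_, ?_⟩
    · rw [map_sum]
      have h1 := hm3 j
      rw [hj, zero_smul, zero_add] at h1
      rw [← h1]
      refine Finset.sum_congr rfl fun i _ => ?_
      rw [map_smul, hc1]
    · rw [hval _ le_rfl]
      have h2 : ∀ i, m j i * (t ⟨j, i', hi'⟩ j i + ∑ l, e j i l * δ ⟨j, i', hi'⟩ l) =
          m j i * δ ⟨j, i', hi'⟩ j + if i = i' then m j i else 0 := by
        intro i
        by_cases hi : i = i₀ j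
        · rw [hi, hδ0, if_neg hi'.symm, add_zero]
        · by_cases hii : i = i'
          · subst hii
            rw [if_pos rfl]
            have h3 := hδ2 ⟨j, i, hi'⟩
            dsimp only at h3
            rw [h3]
            ring
          · rw [if_neg hii, add_zero]
            congr 1
            refine hδ1 ⟨j, i', hi'⟩ j ⟨i, hi⟩ fun h => hii ?_
            have h3 := eq_of_heq (Sigma.mk.inj h).2
            exact (congrArg Subtype.val h3).symm
      rw [Finset.sum_congr rfl fun i _ => h2 i, Finset.sum_add_distrib, ← Finset.sum_mul, hs,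
        zero_mul, zero_add, Finset.sum_ite_eq' Finset.univ i' (fun i => m j i),
        if_pos (Finset.mem_univ _)]
      exact hmi'
    · intro q' hq'
      rw [hval q' hq'.le]
      have h2 : ∀ i, m j i * (t q' j i + ∑ l, e j i l * δ q' l) = m j i * δ q' j := by
        intro i
        congr 1
        by_cases hi : i = i₀ j
        · rw [hi, hδ0]
        · exact hδ1 q' j ⟨i, hi⟩ fun h => hq'.ne (congrArg Sigma.fst h).symm
      rw [Finset.sum_congr rfl fun i _ => h2 i, ← Finset.sum_mul, hs, zero_mul]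
  choose R q hR1 hR2 hR3 hR4 using rels
  have hli : LinearIndependent κ R := by
    refine li_of_triang' R (fun j => θ (q j)) hR3 ?_
    intro j j' hjj
    refine hR4 j (q j') ?_
    rw [hR2 j']
    exact hjj
  have hker : Fintype.card {j : Fin r // m0 j = 0} ≤ Module.finrank κ (LinearMap.ker Φ) := by
    let R' : {j : Fin r // m0 j = 0} → LinearMap.ker Φ := fun j => ⟨R j, hR1 j⟩
    have h1 : LinearIndependent κ R' := by
      refine LinearIndependent.of_comp (LinearMap.ker Φ).subtype ?_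
      exact hli
    exact h1.fintype_card_le_finrank
  have hrn := LinearMap.finrank_range_add_finrank_ker Φ
  rw [Module.finrank_fintype_fun_eq_card, Fintype.card_sum] at hrn
  have hcard : Fintype.card {j : Fin r // m0 j = 0} = Fintype.card J1 + Nat.card {j // ¬ P j} := by
    rw [Nat.card_eq_fintype_card, ← Fintype.card_sum]
    refine Fintype.card_congr ?_
    exact
      { toFun := fun j => if h : P j.1 then Sum.inl ⟨j.1, h, j.2⟩ else Sum.inr ⟨j.1, h⟩
        invFun := Sum.elim (fun j => ⟨j.1, j.2.2⟩) fun j => ⟨j.1, hm4 j.1 j.2⟩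
        left_inv := by
          intro j
          by_cases h : P j.1
          · simp only [dif_pos h, Sum.elim_inl]
          · simp only [dif_neg h, Sum.elim_inr]
        right_inv := by
          rintro (j | j)
          · exact dif_pos j.2.1
          · exact dif_neg j.2 }
  have hle : Submodule.span κ (Set.range Φ0 ∪ Df '' {j | P j}) ≤ LinearMap.range Φ := by
    rw [Submodule.span_le]
    rintro _ (⟨g, rfl⟩ | ⟨j, hj, rfl⟩)
    · refine ⟨Pi.single (Sum.inl g) 1, ?_⟩
      rw [Fintype.linearCombination_apply_single, one_smul]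
      rfl
    · obtain ⟨c, hc, -⟩ := lift j hj
      exact ⟨c, hc⟩
  have h1 := Submodule.finrank_mono hle
  omega

end

end Pool.Agent.T6.H12
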