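import Pool.Agent.T6.H12.Tower

/-!
# Covers of tame towers
-/

set_option autoImplicit false
set_option linter.unusedSectionVars false

universe u

open Polynomial Pool.Agent.TH214.SD Pool.Agent.TH188.VT Pool.Agent.W558 AlgebraicGeometry
  CategoryTheory

namespace Pool.Agent.T6.H12

open scoped IntermediateField.algebraAdjoinAdjoin in
/-- A transcendence basis among elements which generate the field up to algebraic extensions. -/
lemma exists_rho' {F K : Type u} [Field F] [Field K] [Algebra F K] {n d : ℕ} (y : Fin n → K)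
    (halg : Algebra.IsAlgebraic (IntermediateField.adjoin F (Set.range y)) K)
    (htr : Algebra.trdeg F K = (d : Cardinal.{u})) :
    d ≤ n ∧ ∃ ρ : Fin d → Fin n, AlgebraicIndependent F (y ∘ ρ) := by
  classical
  have halg' : Algebra.IsAlgebraic (Algebra.adjoin F (Set.range y)) K :=
    (IsFractionRing.comap_isAlgebraic_iff (A := Algebra.adjoin F (Set.range y))
      (K := IntermediateField.adjoin F (Set.range y)) (C := K)).2 halg
  obtain ⟨t, ht, hbt⟩ := exists_isTranscendenceBasis_subset (R := F) (Set.range y)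
  have hcard : Cardinal.mk t = (d : Cardinal.{u}) := by
    rw [← htr]
    exact hbt.cardinalMk_eq_trdeg
  have hfin : Finite t := Cardinal.lt_aleph0_iff_finite.1 (hcard ▸ Cardinal.natCast_lt_aleph0)
  have hd : Nat.card t = d := by
    rw [Nat.card, hcard, Cardinal.toNat_natCast]
  obtain ⟨ε⟩ : Nonempty (Fin d ≃ t) := ⟨(Finite.equivFinOfCardEq hd).symm⟩
  choose ρ hρ using fun i : Fin d => ht (ε i).2
  have hρi : Function.Injective ρ := by
    intro i j hij
    apply ε.injective
    apply Subtype.ext
    rw [← hρ i, ← hρ j, hij]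
  refine ⟨?_, ρ, ?_⟩
  · simpa using Fintype.card_le_of_injective ρ hρi
  · have h1 : y ∘ ρ = (fun b : t => (b : K)) ∘ ε := funext hρ
    rw [h1]
    exact hbt.1.comp ε ε.injective

section

variable {k K : Type u} [Field k] [Field K] [Algebra k K] {m n d : ℕ}
  {E : Fin m → IntermediateField k K}

/-- Schön equations from the bound for the derivatives. -/
theorem exists_base (hE : AreIndependentSurfaceFields E) {y : Fin n → K} (hy0 : ∀ j, y j ≠ 0)
    (halg : Algebra.IsAlgebraic (IntermediateField.adjoin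
      (IntermediateField.adjoin k (⋃ i, (E i : Set K))) (Set.range y)) K)
    (htr : Algebra.trdeg (IntermediateField.adjoin k (⋃ i, (E i : Set K))) K = (d : Cardinal.{u}))
    (H : Bounded E y d) :
    ∃ (h : ℕ) (u : Fin h → K) (q : ℕ) (G : Fin q → (Fin h ⊕ Fin n → ℤ) →₀ k) (ρ : Fin d → Fin n),
      IsSchonBase E (n - d) u y G ρ := by
  classical
  obtain ⟨hdn, ρ, hρ⟩ := exists_rho' (d := d) y halg htr
  obtain ⟨h, u, q, G, hu, hG1, hG2⟩ := exists_schon (k := k) (c := n - d) (d := d) (by omega)
    (Prods E) (fun a ha => prods_ne ha) (fun a ha b hb => prods_mul ha hb) y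
    (fun Γ κ _ _ _ _ _ l z w ζ D h => H Γ κ _ l z w ζ D h)
  refine ⟨h, u, q, G, ρ, hE, ?_, hy0, hG1, hG2, by omega, hρ⟩
  intro a
  refine ⟨prods_ne (hu a), ?_⟩
  obtain ⟨v, -, hv⟩ := hu a
  exact ⟨v, hv⟩

/-- A good family in a tower, for a field which is a finitely generated algebraic extension of the
field of the tower. -/
theorem exists_family [NeZero m] {p : ℕ} [Fact p.Prime] [CharP k p]
    (hE : AreIndependentSurfaceFields E) {F : IntermediateField k K} {G : Subgroup Kˣ}
    (hG : IsTameTower p E F G) {r : ℕ} (w : Fin r → K)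
    (hw : ∀ j, IsAlgebraic (IntermediateField.adjoin k (⋃ i, (E i : Set K))) (w j)) (hgen : IntermediateField.adjoin F (Set.range w) = ⊤)
    (hfg : ∃ S0 : Finset K, IntermediateField.adjoin k (S0 : Set K) = ⊤)
    (T : Finset Kˣ) (hT : ∀ u ∈ T, u ∈ G) :
    ∃ (n : ℕ) (y : Fin n → K) (hy : ∀ j, y j ≠ 0) (d : ℕ), (∀ u ∈ T, u ∈ monoGrp E y hy) ∧
      IntermediateField.adjoin k (Set.range w ∪ (Set.range y ∪ ⋃ i, (E i : Set K))) = ⊤ ∧
      ∃ (h : ℕ) (u : Fin h → K) (q : ℕ) (Q : Fin q → (Fin h ⊕ Fin n → ℤ) →₀ k)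
        (ρ : Fin d → Fin n), IsSchonBase E (n - d) u y Q ρ := by
  classical
  obtain ⟨h1, h2, h3, d, h4, h5⟩ := inv_of_tower hG
  obtain ⟨S0, hS0⟩ := hfg
  -- the field is generated by the `w j` and the group
  have hgen' : IntermediateField.adjoin k (Set.range w ∪ Units.val '' (G : Set Kˣ)) = ⊤ := by
    rw [eq_top_iff]
    have h6 : (IntermediateField.adjoin F (Set.range w)).restrictScalars k ≤
        IntermediateField.adjoin k (Set.range w ∪ Units.val '' (G : Set Kˣ)) := by
      refine adjoin_le_aux (h3.trans (IntermediateField.adjoin.mono k _ _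
        Set.subset_union_right)) fun b hb => ?_
      exact IntermediateField.subset_adjoin k _ (Or.inl hb)
    intro b _
    refine h6 ?_
    change b ∈ IntermediateField.adjoin F (Set.range w)
    rw [hgen]
    trivial
  have hfinG : ∀ b : K, ∃ T : Finset Kˣ, (∀ u ∈ T, u ∈ G) ∧
      b ∈ IntermediateField.adjoin k (Set.range w ∪ Units.val '' (T : Set Kˣ)) := by
    intro b
    have h6 : b ∈ IntermediateField.adjoin k (Set.range w ∪ Units.val '' (G : Set Kˣ)) := by
      rw [hgen']
      trivial
    obtain ⟨T0, hT0, hb⟩ := IntermediateField.exists_finset_of_mem_adjoin h6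
    have h7 : ∀ c : K, ∃ u ∈ G, c ∈ T0 → c ∉ Set.range w → (u : K) = c := by
      intro c
      by_cases hc : c ∈ T0 ∧ c ∉ Set.range w
      · rcases hT0 (Finset.mem_coe.2 hc.1) with h8 | ⟨u, hu, h8⟩
        · exact absurd h8 hc.2
        · exact ⟨u, hu, fun _ _ => h8⟩
      · exact ⟨1, one_mem G, fun h8 h9 => absurd ⟨h8, h9⟩ hc⟩
    choose uu huu1 huu2 using h7
    refine ⟨T0.image uu, ?_, ?_⟩
    · intro u hu
      obtain ⟨c, hc, rfl⟩ := Finset.mem_image.1 hu
      exact huu1 c
    · refine IntermediateField.adjoin.mono k _ _ ?_ hb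
      intro c hc
      by_cases hcw : c ∈ Set.range w
      · exact Or.inl hcw
      · exact Or.inr ⟨uu c, Finset.mem_coe.2 (Finset.mem_image_of_mem _ hc),
          huu2 c (Finset.mem_coe.1 hc) hcw⟩
  choose Tb hTb1 hTb2 using hfinG
  obtain ⟨n, y, hy0, hy, hyT, hyB⟩ := h4 (T ∪ S0.biUnion Tb) (by
    intro u hu
    rcases Finset.mem_union.1 hu with h | h
    · exact hT u h
    · obtain ⟨b, -, hb⟩ := Finset.mem_biUnion.1 h
      exact hTb1 b u hb)
  have hwF : ∀ j, IsAlgebraic F (w j) := by
    intro j
    by_contra hcon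
    exact transcendental_of_le h1 hcon (hw j)
  have hKF : Algebra.IsAlgebraic F K := by
    have h6 : IntermediateField.adjoin F (Set.range w) ≤ algebraicClosure F K := by
      rw [IntermediateField.adjoin_le_iff]
      rintro _ ⟨j, rfl⟩
      exact mem_algebraicClosure_iff.2 (hwF j)
    refine ⟨fun b => mem_algebraicClosure_iff.1 (h6 ?_)⟩
    rw [hgen]
    trivial
  have htr : Algebra.trdeg (IntermediateField.adjoin k (⋃ i, (E i : Set K))) K =
      (d : Cardinal.{u}) := by
    have h7 : Algebra.trdeg F K = 0 := trdeg_eq_zero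
    rw [h5, h7, add_zero]
  have hgenk : IntermediateField.adjoin k (Set.range w ∪ (Set.range y ∪ ⋃ i, (E i : Set K))) =
      ⊤ := by
    rw [eq_top_iff, ← hS0, IntermediateField.adjoin_le_iff]
    intro b hb
    have h6 : IntermediateField.adjoin k (Set.range w ∪ Units.val '' (Tb b : Set Kˣ)) ≤
        IntermediateField.adjoin k (Set.range w ∪ (Set.range y ∪ ⋃ i, (E i : Set K))) := by
      rw [IntermediateField.adjoin_le_iff]
      rintro c (hc | ⟨u, hu, rfl⟩)
      · exact IntermediateField.subset_adjoin k _ (Or.inl hc)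
      · obtain ⟨a, ⟨v, hv, rfl⟩, e, he⟩ := hyT u (Finset.mem_union_right _
          (Finset.mem_biUnion.2 ⟨b, Finset.mem_coe.1 hb, Finset.mem_coe.1 hu⟩))
        rw [he]
        refine mul_mem (prod_mem fun i _ => IntermediateField.subset_adjoin k _
          (Or.inr (Or.inr (Set.mem_iUnion.2 ⟨i, (v i).2⟩)))) ?_
        unfold mon
        refine prod_mem fun j _ => ?_
        have h7 : y j ∈ IntermediateField.adjoin k
            (Set.range w ∪ (Set.range y ∪ ⋃ i, (E i : Set K))) :=
          IntermediateField.subset_adjoin k _ (Or.inr (Or.inl ⟨j, rfl⟩))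
        exact zpow_mem h7 _
    exact h6 (hTb2 b)
  have halg : Algebra.IsAlgebraic (IntermediateField.adjoin
      (IntermediateField.adjoin k (⋃ i, (E i : Set K))) (Set.range y)) K := by
    let F0 := IntermediateField.adjoin k (⋃ i, (E i : Set K))
    let L := IntermediateField.adjoin F0 (Set.range y)
    let M : IntermediateField L K := algebraicClosure L K
    have h6 : IntermediateField.adjoin k (Set.range w ∪ (Set.range y ∪ ⋃ i, (E i : Set K))) ≤
        (M.restrictScalars F0).restrictScalars k := by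
      rw [IntermediateField.adjoin_le_iff]
      rintro c (⟨j, rfl⟩ | hc | hc)
      · exact mem_algebraicClosure_iff.2 ((hw j).extendScalars
          (algebraMap F0 L).injective)
      · have h7 : c ∈ L := IntermediateField.subset_adjoin F0 _ hc
        exact M.algebraMap_mem ⟨c, h7⟩
      · have h7 : c ∈ F0 := IntermediateField.subset_adjoin k _ hc
        exact (M.restrictScalars F0).algebraMap_mem ⟨c, h7⟩
    refine ⟨fun b => mem_algebraicClosure_iff.1 ?_⟩
    have h8 : b ∈ IntermediateField.adjoin k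
        (Set.range w ∪ (Set.range y ∪ ⋃ i, (E i : Set K))) := by
      rw [hgenk]
      trivial
    exact h6 h8
  obtain ⟨h, u, q, Q, ρ, hb⟩ := exists_base (d := d) hE hy0 halg htr hyB
  exact ⟨n, y, hy0, d, fun u hu => hyT u (Finset.mem_union_left _ hu), hgenk, h, u, q, Q, ρ, hb⟩

/-- Finitely generated algebras with the fraction field `K`. -/
lemma fg_of_fraction (A : Type u) [CommRing A] [IsDomain A] [Algebra k A] [Algebra.FiniteType k A]
    [Algebra A K] [IsScalarTower k A K] [IsFractionRing A K] :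
    ∃ S0 : Finset K, IntermediateField.adjoin k (S0 : Set K) = ⊤ := by
  classical
  obtain ⟨S0, hS0⟩ := (inferInstance : Algebra.FiniteType k A).out
  have hgenA : ∀ a : A, algebraMap A K a ∈ IntermediateField.adjoin k
      ((S0.image (algebraMap A K) : Finset K) : Set K) := by
    intro a
    have h6 : a ∈ Algebra.adjoin k (S0 : Set A) := by
      rw [hS0]
      trivial
    have h7 : (IsScalarTower.toAlgHom k A K) a ∈
        (Algebra.adjoin k (S0 : Set A)).map (IsScalarTower.toAlgHom k A K) := ⟨a, h6, rfl⟩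
    rw [AlgHom.map_adjoin] at h7
    refine IntermediateField.algebra_adjoin_le_adjoin k _ (Algebra.adjoin_mono ?_ h7)
    rintro _ ⟨b, hb, rfl⟩
    exact Finset.mem_coe.2 (Finset.mem_image_of_mem _ hb)
  refine ⟨S0.image (algebraMap A K), ?_⟩
  rw [eq_top_iff]
  intro b _
  obtain ⟨a, c, hc, rfl⟩ := IsFractionRing.div_surjective (A := A) b
  exact div_mem (hgenA a) (hgenA c)

/-- The resolution of the Artin-Schreier covers of tame towers. -/
theorem tower_wild (p : ℕ) [Fact p.Prime] [PerfectField k] [CharP k p] [NeZero m]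
    (hE : AreIndependentSurfaceFields E) {F : IntermediateField k K} {G : Subgroup Kˣ}
    (hG : IsTameTower p E F G) {r : ℕ} (w : Fin r → K) (g : ∀ i, E i)
    (hw : ∀ j, w j ^ p - w j ∈ AddSubgroup.closure (Set.range fun i => (g i : K)))
    (hgen : IntermediateField.adjoin F (Set.range w) = ⊤)
    (A : Type u) [CommRing A] [IsDomain A] [Algebra k A] [Algebra.FiniteType k A] [Algebra A K]
    [IsScalarTower k A K] [IsFractionRing A K] (S : Finset A)
    (hS : ∀ b ∈ S, ∃ u ∈ G, algebraMap A K b = u)
    (hA : ∀ a : A, IsIntegral (Algebra.adjoin k (S : Set A)) a) :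
    IsResolvableVariety (X := Spec (CommRingCat.of A))
      (Spec.map (CommRingCat.ofHom (algebraMap k A))) := by
  classical
  have hp : p.Prime := Fact.out
  choose! us hus1 hus2 using hS
  have hwa : ∀ j, IsAlgebraic (IntermediateField.adjoin k (⋃ i, (E i : Set K))) (w j) := by
    intro j
    have h1 : w j ^ p - w j ∈ IntermediateField.adjoin k (⋃ i, (E i : Set K)) := by
      have h2 : AddSubgroup.closure (Set.range fun i => (g i : K)) ≤
          (IntermediateField.adjoin k (⋃ i, (E i : Set K))).toSubfield.toAddSubgroup := by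
        rw [AddSubgroup.closure_le]
        rintro _ ⟨i, rfl⟩
        exact IntermediateField.subset_adjoin k _ (Set.mem_iUnion.2 ⟨i, (g i).2⟩)
      exact h2 (hw j)
    refine ⟨X ^ p - X - C ⟨_, h1⟩, ?_, ?_⟩
    · intro h0
      have h2 := congrArg (fun P => P.coeff p) h0
      simp only [coeff_sub, coeff_X_pow, if_true, coeff_zero] at h2
      rw [coeff_X_of_ne_one hp.one_lt.ne', coeff_C_of_ne_zero hp.ne_zero] at h2
      simp at h2
    · rw [map_sub, map_sub, map_pow, aeval_X, aeval_C]
      exact sub_self _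
  obtain ⟨n, y, hy0, d, hyT, hgenk, h, u, q, Q, ρ, hb⟩ := exists_family (p := p) hE hG w hwa hgen
    (fg_of_fraction A) (S.image us) (by
    intro u hu
    obtain ⟨b, hb, rfl⟩ := Finset.mem_image.1 hu
    exact hus1 b hb)
  have hK : IsWildCover (s := 0) E p (n - d) u y Q ρ g (fun t => Fin.elim0 t) ∅ w := by
    refine ⟨hb, ?_, ?_, ?_, hgenk⟩
    · intro l z hz hv t
      exact Fin.elim0 t
    · intro t
      exact Fin.elim0 t
    · intro j
      exact AddSubgroup.closure_mono Set.subset_union_left (hw j)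
  refine resolvable (fun S _ v hv => wild_models hK S v hv) A S ?_ hA
  intro b hb'
  rw [hus2 b hb']
  obtain ⟨a, ⟨v, hv, rfl⟩, e, he⟩ := hyT _ (Finset.mem_image_of_mem us hb')
  exact ⟨v, e, hv, he⟩

/-- The resolution of the purely inseparable covers of tame towers. -/
theorem tower_insep (p : ℕ) [Fact p.Prime] [PerfectField k] [CharP k p] [NeZero m]
    (hE : AreIndependentSurfaceFields E) {F : IntermediateField k K} {G : Subgroup Kˣ}
    (hG : IsTameTower p E F G) {r o : ℕ} (w : Fin r → K) (g : Fin o → ∀ i, E i)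
    (hg : ∀ i t t', t ≠ t' → (∃ b, b ^ p = g t i) ∨ ∃ b, b ^ p = g t' i)
    (hw : ∀ j, w j ^ p ∈ Submodule.span k (Set.range fun t => ∏ i, (g t i : K)))
    (hgen : IntermediateField.adjoin F (Set.range w) = ⊤)
    (A : Type u) [CommRing A] [IsDomain A] [Algebra k A] [Algebra.FiniteType k A] [Algebra A K]
    [IsScalarTower k A K] [IsFractionRing A K] (S : Finset A)
    (hS : ∀ b ∈ S, ∃ u ∈ G, algebraMap A K b = u)
    (hA : ∀ a : A, IsIntegral (Algebra.adjoin k (S : Set A)) a) :
    IsResolvableVariety (X := Spec (CommRingCat.of A))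
      (Spec.map (CommRingCat.ofHom (algebraMap k A))) := by
  classical
  have hp : p.Prime := Fact.out
  choose! us hus1 hus2 using hS
  have hwa : ∀ j, IsAlgebraic (IntermediateField.adjoin k (⋃ i, (E i : Set K))) (w j) := by
    intro j
    have h1 : w j ^ p ∈ IntermediateField.adjoin k (⋃ i, (E i : Set K)) := by
      have h2 : Submodule.span k (Set.range fun t => ∏ i, (g t i : K)) ≤
          Subalgebra.toSubmodule (IntermediateField.adjoin k (⋃ i, (E i : Set K))).toSubalgebra := by
        rw [Submodule.span_le]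
        rintro _ ⟨t, rfl⟩
        have h3 : ∏ i, (g t i : K) ∈ IntermediateField.adjoin k (⋃ i, (E i : Set K)) :=
          prod_mem fun i _ =>
            IntermediateField.subset_adjoin k _ (Set.mem_iUnion.2 ⟨i, (g t i).2⟩)
        exact h3
      exact h2 (hw j)
    refine ⟨X ^ p - C ⟨_, h1⟩, ?_, ?_⟩
    · exact X_pow_sub_C_ne_zero hp.pos _
    · rw [map_sub, map_pow, aeval_X, aeval_C]
      exact sub_self _
  obtain ⟨n, y, hy0, d, hyT, hgenk, h, u, q, Q, ρ, hb⟩ := exists_family (p := p) hE hG w hwa hgen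
    (fg_of_fraction A) (S.image us) (by
    intro u hu
    obtain ⟨b, hb, rfl⟩ := Finset.mem_image.1 hu
    exact hus1 b hb)
  have hK : IsInseparableCover (s := 0) E p (n - d) u y Q ρ g (fun t => Fin.elim0 t) w := by
    refine ⟨hb, ?_, hg, ?_, hgenk⟩
    · intro l z hz hv t
      exact Fin.elim0 t
    · intro j
      exact Submodule.span_mono Set.subset_union_left (hw j)
  refine resolvable (fun S _ v hv => insep_models hK S v hv) A S ?_ hA
  intro b hb'
  rw [hus2 b hb']
  obtain ⟨a, ⟨v, hv, rfl⟩, e, he⟩ := hyT _ (Finset.mem_image_of_mem us hb')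
  exact ⟨v, e, hv, he⟩

end

end Pool.Agent.T6.H12
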