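import Pool.Agent.T6.H12.Block
import Pool.Agent.T6.H12.Count

/-!
# Exponents
-/

set_option autoImplicit false
set_option linter.unusedSectionVars false

universe u

namespace Pool.Agent.T6.H12

section

variable {Ω κ W : Type*} [Field Ω] [Field κ] [AddCommGroup W] [Module κ W] {ι : Type*} [Fintype ι]

lemma mon_sum {y : ι → Ω} (hy : ∀ i, y i ≠ 0) {J : Type*} (s : Finset J) (e : J → ι → ℤ) :
    mon y (∑ j ∈ s, e j) = ∏ j ∈ s, mon y (e j) := by
  classical
  induction s using Finset.induction_on with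
  | empty => rw [Finset.sum_empty, Finset.prod_empty, mon_zero]
  | insert a s ha ih => rw [Finset.sum_insert ha, Finset.prod_insert ha, mon_add hy, ih]

lemma mon_nsmul {y : ι → Ω} (hy : ∀ i, y i ≠ 0) (N : ℕ) (e : ι → ℤ) :
    mon y (N • e) = mon y e ^ N := by
  induction N with
  | zero => rw [zero_smul, mon_zero, pow_zero]
  | succ N ih => rw [succ_nsmul, mon_add hy, ih, pow_succ]

lemma dm_sum {D : ι → W} {J : Type*} (s : Finset J) (e : J → ι → ℤ) :
    dm D (∑ j ∈ s, e j) = ∑ j ∈ s, dm D (e j) := by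
  classical
  induction s using Finset.induction_on with
  | empty => rw [Finset.sum_empty, Finset.sum_empty, dm_zero]
  | insert a s ha ih => rw [Finset.sum_insert ha, Finset.sum_insert ha, dm_add, ih]

lemma dm_nsmul {D : ι → W} (N : ℕ) (e : ι → ℤ) : dm D (N • e) = (N : κ) • dm D e := by
  induction N with
  | zero => rw [zero_smul, dm_zero, Nat.cast_zero, zero_smul]
  | succ N ih => rw [succ_nsmul, dm_add, ih, Nat.cast_succ, add_smul, one_smul]

open scoped Classical in
/-- The exponents of the monomial `b`. -/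
noncomputable def ex (y : ι → Ω) (b : Ω) : ι → ℤ := fun j => if y j = b then 1 else 0

lemma ex_eq [DecidableEq ι] {y : ι → Ω} (hy : Function.Injective y) (j : ι) :
    ex y (y j) = Pi.single j 1 := by
  classical
  funext i
  unfold ex
  by_cases h : i = j
  · subst h
    rw [if_pos rfl, Pi.single_eq_same]
  · rw [if_neg fun h' => h (hy h'), Pi.single_eq_of_ne h]

lemma mon_ex {y : ι → Ω} (hy : Function.Injective y) {b : Ω} (hb : b ∈ Set.range y) :
    mon y (ex y b) = b := by
  classical
  obtain ⟨j, rfl⟩ := hb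
  rw [ex_eq hy, mon_single]

lemma dm_ex {y : ι → Ω} (hy : Function.Injective y) (D : ι → W) (j : ι) :
    dm D (ex y (y j)) = D j := by
  classical
  rw [ex_eq hy, dm_single]

end

/-- The dual vectors. -/
lemma exists_dual' {F : Type*} [Field F] {n : ℕ} {Q : Type*} {v : Q → Fin n → F}
    (hv : LinearIndependent F v) (t : Q → F) : ∃ b : Fin n → F, ∀ q, ∑ s, v q s * b s = t q := by
  classical
  let bv := Module.Basis.extend hv.linearIndepOn_id
  obtain ⟨φ, hφ⟩ : ∃ φ : (Fin n → F) →ₗ[F] F, ∀ q, φ (v q) = t q := by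
    obtain ⟨φ, hφ⟩ := LinearMap.exists_extend
      ((Finsupp.linearCombination F t).comp hv.repr)
    refine ⟨φ, fun q => ?_⟩
    have h1 := congrArg (fun g => g ⟨v q, Submodule.subset_span ⟨q, rfl⟩⟩) hφ
    simp only [LinearMap.comp_apply] at h1
    rw [hv.repr_eq_single q ⟨v q, Submodule.subset_span ⟨q, rfl⟩⟩ rfl,
      Finsupp.linearCombination_single, one_smul] at h1
    exact h1
  refine ⟨fun s => φ (Pi.single s 1), fun q => ?_⟩
  rw [← hφ q]
  conv_rhs => rw [← Finset.univ_sum_single (v q)]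
  rw [map_sum]
  refine Finset.sum_congr rfl fun s _ => ?_
  have h1 : (Pi.single s (v q s) : Fin n → F) = v q s • Pi.single s 1 := by
    rw [← Pi.single_smul, smul_eq_mul, mul_one]
  rw [h1, map_smul, smul_eq_mul]

section deriv

open Polynomial

/-- The derivative of a polynomial of degree less than `p`. -/
lemma deriv_ne {F : Type*} [Field F] {p : ℕ} [Fact p.Prime] [CharP F p] {P : F[X]}
    (h0 : 0 < P.natDegree) (hp : P.natDegree < p) : derivative P ≠ 0 := by
  intro h
  have h1 := congrArg (fun g => g.coeff (P.natDegree - 1)) h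
  simp only [coeff_derivative, coeff_zero] at h1
  have h2 : P.natDegree - 1 + 1 = P.natDegree := Nat.sub_add_cancel h0
  rw [h2] at h1
  rcases mul_eq_zero.1 h1 with h3 | h3
  · exact (leadingCoeff_ne_zero.2 (fun h4 => by rw [h4, natDegree_zero] at h0; omega)) h3
  · have h4 : ((P.natDegree : ℕ) : F) = 0 := by
      rw [← h3]
      have h5 := congrArg (Nat.cast : ℕ → F) h2
      push_cast at h5
      exact h5.symm
    rw [CharP.cast_eq_zero_iff F p] at h4
    exact absurd (Nat.le_of_dvd h0 h4) (not_le.2 hp)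

/-- Finite sets of polynomials closed under derivatives. -/
lemma exists_closed {F : Type*} [Field F] {p : ℕ} [Fact p.Prime] [CharP F p] (S : Finset F[X])
    (hS : ∀ P ∈ S, P ≠ 0 ∧ P.natDegree < p) :
    ∃ T : Finset F[X], S ⊆ T ∧ (∀ P ∈ T, P ≠ 0 ∧ P.natDegree < p) ∧
      ∀ P ∈ T, 1 < P.natDegree → derivative P ∈ T := by
  classical
  have hlt : ∀ (P : F[X]) (i : ℕ), (derivative^[i] P).natDegree ≤ P.natDegree := by
    intro P i
    induction i with
    | zero => exact le_rfl
    | succ i ih =>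
      rw [Function.iterate_succ_apply']
      exact ((natDegree_derivative_le _).trans (Nat.sub_le _ _)).trans ih
  refine ⟨(S.biUnion fun P => (Finset.range p).image fun i => derivative^[i] P).filter
    fun P => P ≠ 0, ?_, ?_, ?_⟩
  · intro P hP
    refine Finset.mem_filter.2 ⟨Finset.mem_biUnion.2 ⟨P, hP, Finset.mem_image.2
      ⟨0, Finset.mem_range.2 (Fact.out (p := p.Prime)).pos, rfl⟩⟩, (hS P hP).1⟩
  · intro P hP
    obtain ⟨h1, h2⟩ := Finset.mem_filter.1 hP
    obtain ⟨Q, hQ, h3⟩ := Finset.mem_biUnion.1 h1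
    obtain ⟨i, -, rfl⟩ := Finset.mem_image.1 h3
    exact ⟨h2, lt_of_le_of_lt (hlt Q i) (hS Q hQ).2⟩
  · intro P hP hd
    obtain ⟨h1, h2⟩ := Finset.mem_filter.1 hP
    obtain ⟨Q, hQ, h3⟩ := Finset.mem_biUnion.1 h1
    obtain ⟨i, hi, rfl⟩ := Finset.mem_image.1 h3
    have hdeg : ∀ i : ℕ, (derivative^[i] Q).natDegree ≤ Q.natDegree - i := by
      intro i
      induction i with
      | zero => exact le_rfl
      | succ i ih =>
        rw [Function.iterate_succ_apply']
        have h4 := natDegree_derivative_le (derivative^[i] Q)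
        omega
    refine Finset.mem_filter.2 ⟨Finset.mem_biUnion.2 ⟨Q, hQ, Finset.mem_image.2
      ⟨i + 1, Finset.mem_range.2 ?_, Function.iterate_succ_apply' _ _ _⟩⟩, ?_⟩
    · have h5 := hdeg i
      have h6 := (hS Q hQ).2
      omega
    · exact deriv_ne (p := p) (by omega) (lt_of_le_of_lt (hlt Q i) (hS Q hQ).2)

end deriv

end Pool.Agent.T6.H12
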