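import Pool.Agent.T6.H12.BoundEq
import Pool.Agent.T6.H12.Assem

/-!
# Sums of products of linear forms and of functions of one variable
-/

set_option autoImplicit false
set_option linter.unusedSectionVars false

universe u

open Pool.Agent.TH214.SD Pool.Agent.TH188.VT Pool.Agent.W558 AlgebraicGeometry
  CategoryTheory Polynomial

namespace Pool.Agent.T6.H12

variable {k K : Type u} [Field k] [Field K] [Algebra k K] {m N n r : ℕ}

/-- The nonzero elements of the `E i` and the values of polynomials of degree less than `p`. -/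
def coefGens (p : ℕ) (E : Fin m → IntermediateField k K) (σ : Fin N → Fin m) (x : Fin N → K) :
    Set Kˣ :=
  {u | (∃ i, (u : K) ∈ E i) ∨ ∃ (a : Fin N) (P : (E (σ a))[X]), P.natDegree < p ∧ aeval (x a) P = u}

/-- The resolution of the varieties. -/
theorem final_main (p : ℕ) [Fact p.Prime] [PerfectField k] [CharP k p] [NeZero m]
    (E : Fin m → IntermediateField k K) (hE : AreIndependentSurfaceFields E)
    (σ : Fin N → Fin m) (x : Fin N → K) (hx : ∀ a, Transcendental (E (σ a)) (x a))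
    (τ : Fin n → Fin m) (V : ∀ s, Submodule (E (τ s)) K) [∀ s, FiniteDimensional (E (τ s)) (V s)]
    (hgen : IntermediateField.adjoin k
      ((⋃ i, (E i : Set K)) ∪ (Set.range x ∪ ⋃ s, (V s : Set K))) = ⊤)
    (ι : Fin r → Type) [∀ j, Fintype (ι j)] (i₀ : ∀ j, ι j)
    (c : ∀ j, ι j → Kˣ) (hc : ∀ j i, c j i ∈ Subgroup.closure (coefGens p E σ x))
    (d : ∀ j, ι j → Fin n → ℕ)
    (g : ∀ j i s, Fin (d j i s) → K) (hgV : ∀ j i s t, g j i s t ∈ V s)
    (hg0 : ∀ j i s t, g j i s t ≠ 0) (e : ∀ j, ι j → Fin r → ℕ) (f : Fin r → K)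
    (he : ∀ j i l, e j i l ≠ 0 → l < j ∧ f l ≠ 0)
    (hf : ∀ j, f j = ∑ i, (c j i : K) * ((∏ s, ∏ t, g j i s t) * ∏ l, f l ^ e j i l))
    (deg : Fin r → Fin n → ZMod p)
    (hdeg : ∀ j s, deg j s = d j (i₀ j) s + ∑ l, e j (i₀ j) l * deg l s)
    (hind : LinearIndependent (ZMod p) fun q : (j : Fin r) × {i : ι j // i ≠ i₀ j} =>
      fun s => ((d q.1 q.2 s : ZMod p) + ∑ l, e q.1 q.2 l * deg l s) - deg q.1 s)
    (htr : Algebra.trdeg (IntermediateField.adjoin k (⋃ i, (E i : Set K))) K +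
      (Nat.card {j // f j = 0} : Cardinal.{u}) =
      ((N + ∑ s, Module.finrank (E (τ s)) (V s) : ℕ) : Cardinal.{u}))
    (A : Type u) [CommRing A] [IsDomain A] [Algebra k A] [Algebra.FiniteType k A] [Algebra A K]
    [IsScalarTower k A K] [IsFractionRing A K] (S : Finset A)
    (hS : ∀ b ∈ S, ∃ u ∈ Subgroup.closure (coefGens p E σ x ∪
      {u : Kˣ | (∃ s, (u : K) ∈ V s) ∨ ∃ l, f l = u}), algebraMap A K b = u)
    (hA : ∀ a : A, IsIntegral (Algebra.adjoin k (S : Set A)) a) :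
    IsResolvableVariety (X := Spec (CommRingCat.of A))
      (Spec.map (CommRingCat.ofHom (algebraMap k A))) := by
  classical
  have hchar : ∀ i, CharP (E i) p := fun i =>
    charP_of_injective_algebraMap (algebraMap k (E i)).injective p
  have hp1 : 1 < p := (Fact.out (p := p.Prime)).one_lt
  -- finitely many generators
  choose! us hus1 hus2 using hS
  obtain ⟨T1, hT1, hT1'⟩ := exists_finset_closure' (coefGens p E σ x ∪
      {u : Kˣ | (∃ s, (u : K) ∈ V s) ∨ ∃ l, f l = u}) (S.image us) (by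
    intro u hu
    obtain ⟨b, hb, rfl⟩ := Finset.mem_image.1 hu
    exact hus1 b hb)
  obtain ⟨T2, hT2, hT2'⟩ := exists_finset_closure' (coefGens p E σ x)
    (Finset.univ.image fun q : (j : Fin r) × ι j => c q.1 q.2) (by
    intro u hu
    obtain ⟨q, -, rfl⟩ := Finset.mem_image.1 hu
    exact hc q.1 q.2)
  let T : Finset Kˣ := T1 ∪ T2
  -- the polynomials
  have hP : ∀ a, ∃ P : Finset (E (σ a))[X],
      (∀ Q ∈ P, Q ≠ 0 ∧ Q.natDegree < p) ∧ (∀ Q ∈ P, 1 < Q.natDegree → derivative Q ∈ P) ∧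
      X ∈ P ∧ ∀ Q : (E (σ a))[X], Q.natDegree < p → (∃ u ∈ T, aeval (x a) Q = (u : K)) →
        Q ∈ P := by
    intro a
    have hinj : Function.Injective (aeval (x a) : (E (σ a))[X] → K) :=
      transcendental_iff_injective.1 (hx a)
    have hfin : {Q : (E (σ a))[X] | ∃ u ∈ T, aeval (x a) Q = (u : K)}.Finite := by
      have h1 : ((Units.val '' (T : Set Kˣ))).Finite := (Finset.finite_toSet T).image _
      have h2 := h1.preimage (f := (aeval (x a) : (E (σ a))[X] → K)) hinj.injOn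
      refine h2.subset ?_
      rintro Q ⟨u, hu, hQ⟩
      exact ⟨u, hu, hQ.symm⟩
    let S0 : Finset (E (σ a))[X] := insert X (hfin.toFinset.filter fun Q => Q.natDegree < p)
    obtain ⟨P, h1, h2, h3⟩ := exists_closed (p := p) S0 (by
      intro Q hQ
      rcases Finset.mem_insert.1 hQ with rfl | hQ
      · exact ⟨X_ne_zero, by rw [natDegree_X]; exact hp1⟩
      · obtain ⟨h4, h5⟩ := Finset.mem_filter.1 hQ
        obtain ⟨u, hu, h6⟩ := hfin.mem_toFinset.1 h4
        refine ⟨?_, h5⟩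
        rintro rfl
        rw [map_zero] at h6
        exact u.ne_zero h6.symm)
    refine ⟨P, h2, h3, h1 (Finset.mem_insert_self _ _), fun Q hQ hQ' => h1 ?_⟩
    exact Finset.mem_insert_of_mem (Finset.mem_filter.2 ⟨hfin.mem_toFinset.2 hQ', hQ⟩)
  choose Px hPx hPx' hPX hPT using hP
  -- the linear forms
  have hVx : ∀ s, ∃ P : Finset K, (∀ b ∈ P, b ∈ V s ∧ b ≠ 0) ∧ (∀ j i t, g j i s t ∈ P) ∧
      (∀ b ∈ T, (b : K) ∈ V s → (b : K) ∈ P) ∧ (V s : Set K) ⊆
        Submodule.span (E (τ s)) (P : Set K) := by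
    intro s
    have hfree : Module.Free (E (τ s)) (V s) := Module.Free.of_divisionRing _ _
    let bb := Module.finBasis (E (τ s)) (V s)
    let Z : Set K := {b | b ∈ V s ∧ b ≠ 0} ∩
      ((Set.range fun q : (j : Fin r) × (i : ι j) × Fin (d j i s) => g q.1 q.2.1 s q.2.2) ∪
        ((Units.val '' (T : Set Kˣ)) ∪ Set.range fun i => ((bb i : V s) : K)))
    have hZ : Z.Finite := ((Set.finite_range _).union
      (((Finset.finite_toSet T).image _).union (Set.finite_range _))).subset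
        Set.inter_subset_right
    refine ⟨hZ.toFinset, ?_, ?_, ?_, ?_⟩
    · intro b hb
      exact (hZ.mem_toFinset.1 hb).1
    · intro j i t
      exact hZ.mem_toFinset.2 ⟨⟨hgV j i s t, hg0 j i s t⟩, Or.inl ⟨⟨j, i, t⟩, rfl⟩⟩
    · intro b hb hbV
      exact hZ.mem_toFinset.2 ⟨⟨hbV, b.ne_zero⟩, Or.inr (Or.inl ⟨b, hb, rfl⟩)⟩
    · intro v hv
      have h1 : (⟨v, hv⟩ : V s) ∈ Submodule.span (E (τ s)) (Set.range bb) := by
        rw [bb.span_eq]
        trivial
      have h2 := Submodule.mem_map_of_mem (f := (V s).subtype) h1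
      rw [Submodule.map_span] at h2
      refine Submodule.span_mono ?_ h2
      rintro _ ⟨_, ⟨i, rfl⟩, rfl⟩
      refine Finset.mem_coe.2 (hZ.mem_toFinset.2 ⟨⟨(bb i).2, ?_⟩, Or.inr (Or.inr ⟨i, rfl⟩)⟩)
      exact fun h0 => bb.ne_zero i (Subtype.ext h0)
  choose Vx hVx1 hVx2 hVx3 hVx4 using hVx
  -- all functions
  let Ys : Set K := (⋃ a, (aeval (x a)) '' (Px a : Set (E (σ a))[X])) ∪
    ((⋃ s, (Vx s : Set K)) ∪ (Set.range f ∩ {b | b ≠ 0}))
  have hYs : Ys.Finite := (Set.finite_iUnion fun a => (Finset.finite_toSet _).image _).union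
    ((Set.finite_iUnion fun s => Finset.finite_toSet _).union
      ((Set.finite_range f).subset Set.inter_subset_left))
  let YF := hYs.toFinset
  let y : Fin YF.card → K := fun i => (YF.equivFin.symm i).1
  have hy : Function.Injective y := fun i j hij => YF.equivFin.symm.injective (Subtype.ext hij)
  have hyr : ∀ b ∈ Ys, b ∈ Set.range y := fun b hb => ⟨YF.equivFin ⟨b, hYs.mem_toFinset.2 hb⟩, by
    change (YF.equivFin.symm (YF.equivFin ⟨b, _⟩)).1 = b
    rw [Equiv.symm_apply_apply]⟩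
  have hyY : ∀ j, y j ∈ Ys := fun j => hYs.mem_toFinset.1 (YF.equivFin.symm j).2
  have hy1 : ∀ a, ∀ P ∈ Px a, aeval (x a) P ∈ Set.range y := fun a P hP =>
    hyr _ (Or.inl (Set.mem_iUnion.2 ⟨a, P, hP, rfl⟩))
  have hy2 : ∀ s, ∀ b ∈ Vx s, b ∈ Set.range y := fun s b hb =>
    hyr _ (Or.inr (Or.inl (Set.mem_iUnion.2 ⟨s, hb⟩)))
  have hy3 : ∀ j, f j ≠ 0 → f j ∈ Set.range y := fun j hj =>
    hyr _ (Or.inr (Or.inr ⟨⟨j, rfl⟩, hj⟩))
  have hy4 : ∀ j, (∃ a, ∃ P ∈ Px a, y j = aeval (x a) P) ∨ (∃ s, y j ∈ Vx s) ∨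
      ∃ l, f l = y j := by
    intro j
    rcases hyY j with h | h | h
    · obtain ⟨a, P, hP, h1⟩ := Set.mem_iUnion.1 h
      exact Or.inl ⟨a, P, hP, h1.symm⟩
    · obtain ⟨s, hs⟩ := Set.mem_iUnion.1 h
      exact Or.inr (Or.inl ⟨s, hs⟩)
    · obtain ⟨l, hl⟩ := h.1
      exact Or.inr (Or.inr ⟨l, hl⟩)
  have hy0 : ∀ j, y j ≠ 0 := by
    intro j
    rcases hyY j with h | h | h
    · obtain ⟨a, P, hP, h1⟩ := Set.mem_iUnion.1 h
      rw [← h1]
      exact fun h0 => (hPx a P hP).1 (transcendental_iff.1 (hx a) P h0)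
    · obtain ⟨s, hs⟩ := Set.mem_iUnion.1 h
      exact (hVx1 s _ hs).2
    · exact h.2
  -- the coefficients
  have hco : ∀ u ∈ Subgroup.closure (T2 : Set Kˣ), ∃ cA ∈ Prods E, ∃ cE : Fin YF.card → ℤ,
      (∀ q, cE q ≠ 0 → ∃ a, ∃ P ∈ Px a, y q = aeval (x a) P) ∧ (u : K) = cA * mon y cE := by
    intro u hu
    induction hu using Subgroup.closure_induction with
    | mem u hu =>
      rcases hT2 hu with ⟨i, hi⟩ | ⟨a, P, hP1, hP2⟩
      · exact ⟨u, prods_mem i hi u.ne_zero, 0, fun q hq => absurd rfl hq, by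
          rw [mon_zero, mul_one]⟩
      · have h1 : P ∈ Px a := hPT a P hP1 ⟨u, Finset.mem_union_right _ hu, hP2⟩
        refine ⟨1, prods_one, ex y (u : K), ?_, ?_⟩
        · intro q hq
          refine ⟨a, P, h1, ?_⟩
          rw [hP2]
          by_contra h2
          exact hq (if_neg h2)
        · rw [one_mul, mon_ex hy]
          rw [← hP2]
          exact hy1 a P h1
    | one => exact ⟨1, prods_one, 0, fun q hq => absurd rfl hq, by
        rw [mon_zero, mul_one, Units.val_one]⟩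
    | mul u v _ _ hu hv =>
      obtain ⟨a, ha, e1, h1, h2⟩ := hu
      obtain ⟨b, hb, e2, h3, h4⟩ := hv
      refine ⟨a * b, prods_mul ha hb, e1 + e2, ?_, ?_⟩
      · intro q hq
        by_cases h0 : e1 q = 0
        · refine h3 q fun h5 => hq ?_
          rw [Pi.add_apply, h0, h5, add_zero]
        · exact h1 q h0
      · rw [Units.val_mul, h2, h4, mon_add hy0]
        ring
    | inv u _ hu =>
      obtain ⟨a, ha, e1, h1, h2⟩ := hu
      refine ⟨a⁻¹, prods_inv ha, -e1, ?_, ?_⟩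
      · intro q hq
        refine h1 q fun h5 => hq ?_
        rw [Pi.neg_apply, h5, neg_zero]
      · rw [Units.val_inv_eq_inv_val, h2, mon_neg, mul_inv]
  choose cA hcA cE hcE hcc using fun j i => hco (c j i) (hT2' _ (Finset.mem_image.2
    ⟨⟨j, i⟩, Finset.mem_univ _, rfl⟩))
  -- the dimension
  let M : ℕ := N + ∑ s, Module.finrank (E (τ s)) (V s)
  obtain ⟨D, hD⟩ : ∃ D : ℕ, Algebra.trdeg (IntermediateField.adjoin k (⋃ i, (E i : Set K))) K =
      (D : Cardinal.{u}) := by
    refine Cardinal.lt_aleph0.1 (lt_of_le_of_lt ?_ (Cardinal.natCast_lt_aleph0 (n := M)))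
    rw [← htr]
    exact self_le_add_right _ _
  have hDM : D + Nat.card {j // f j = 0} = M := by
    rw [hD] at htr
    exact_mod_cast htr
  refine resolvable_of_bound (p := p) (d := D) hE hy0 ?_ hD ?_ A S ?_ hA
  · rw [eq_top_iff, ← hgen, IntermediateField.adjoin_le_iff]
    have hEi : ∀ i, ∀ b ∈ E i, b ∈ IntermediateField.adjoin k
        (Set.range y ∪ ⋃ i, (E i : Set K)) := fun i b hb =>
      IntermediateField.subset_adjoin k _ (Or.inr (Set.mem_iUnion.2 ⟨i, hb⟩))
    rintro b (hb | hb | hb)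
    · obtain ⟨i, hi⟩ := Set.mem_iUnion.1 hb
      exact hEi i b hi
    · obtain ⟨a, rfl⟩ := hb
      have h1 := hy1 a X (hPX a)
      rw [aeval_X] at h1
      exact IntermediateField.subset_adjoin k _ (Or.inl h1)
    · obtain ⟨s, hs⟩ := Set.mem_iUnion.1 hb
      have h1 : b ∈ Submodule.span (E (τ s)) (Vx s : Set K) := hVx4 s hs
      clear hb hs
      change b ∈ IntermediateField.adjoin k (Set.range y ∪ ⋃ i, (E i : Set K))
      induction h1 using Submodule.span_induction with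
      | mem v hv => exact IntermediateField.subset_adjoin k _ (Or.inl (hy2 s v hv))
      | zero => exact zero_mem _
      | add v w _ _ hv hw => exact add_mem hv hw
      | smul a v _ hv => exact mul_mem (hEi _ _ a.2) hv
  · intro Γ κ _ _ _ _ _ l z w ζ D' h
    have h1 := bound_eq (p := p) hx Px hPx hPx' Vx (fun s b hb => (hVx1 s b hb).1) f y hy hy0 hy1
      hy2 hy3 hy4 (Prods E) (fun i a ha h0 => prods_mem i ha h0) (fun a ha => prods_neg ha)
      prods_one i₀ cA hcA cE hcE d g (fun j i s t => hVx2 s j i t) e he (fun j => by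
        rw [hf j]
        exact Finset.sum_congr rfl fun i _ => by rw [hcc]) deg hdeg hind h
    change _ ≤ M at h1
    omega
  · intro b hb
    rw [hus2 b hb]
    have h1 := hT1' _ (Finset.mem_image.2 ⟨b, hb, rfl⟩)
    generalize us b = u at h1
    induction h1 using Subgroup.closure_induction with
    | mem u hu =>
      rcases hT1 hu with (⟨i, hi⟩ | ⟨a, P, hP1, hP2⟩) | ⟨s, hs⟩ | ⟨l, hl⟩
      · exact isProduct_prods (prods_mem i hi u.ne_zero)
      · have h2 := hy1 a P (hPT a P hP1 ⟨u, Finset.mem_union_left _ hu, hP2⟩)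
        rw [hP2] at h2
        obtain ⟨j, hj⟩ := h2
        rw [← hj]
        exact isProduct_var y j
      · obtain ⟨j, hj⟩ := hy2 s _ (hVx3 s u (Finset.mem_union_left _ hu) hs)
        rw [← hj]
        exact isProduct_var y j
      · obtain ⟨j, hj⟩ := hy3 l (by rw [hl]; exact u.ne_zero)
        rw [← hl, ← hj]
        exact isProduct_var y j
    | one => exact isProduct_prods (by rw [Units.val_one]; exact prods_one)
    | mul u v _ _ hu hv =>
      rw [Units.val_mul]
      exact isProduct_mul hy0 hu hv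
    | inv u _ hu =>
      rw [Units.val_inv_eq_inv_val]
      exact isProduct_inv hu

end Pool.Agent.T6.H12
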