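import Pool.Agent.T6.H12.Sys

/-!
# Ultraproducts
-/

set_option autoImplicit false

open Filter Polynomial

namespace Pool.Agent.T6.H12

section

variable {I F : Type*} [Field F] (U : Ultrafilter I)

/-- Ultrapowers of algebraically closed fields are algebraically closed. -/
theorem germ_isAlgClosed [IsAlgClosed F] : IsAlgClosed (Germ (U : Filter I) F) := by
  classical
  apply IsAlgClosed.of_exists_root
  intro q hq hirr
  let π : (I → F) →+* Germ (U : Filter I) F := Germ.coeRingHom _
  have hπ : Function.Surjective π := fun a => Quotient.inductionOn' a fun f => ⟨f, rfl⟩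
  have hlift : q ∈ Polynomial.lifts π := by
    rw [Polynomial.lifts_iff_coeff_lifts]
    intro n
    exact hπ _
  obtain ⟨g, hg, hdeg, hmon⟩ := Polynomial.lifts_and_degree_eq_and_monic hlift hq
  have hdeg0 : q.natDegree ≠ 0 := hirr.natDegree_pos.ne'
  have hroot : ∀ i, ∃ r : F, (g.map (Pi.evalRingHom (fun _ => F) i)).eval r = 0 := by
    intro i
    have h1 : (g.map (Pi.evalRingHom (fun _ => F) i)).degree ≠ 0 := by
      have h2 : (g.map (Pi.evalRingHom (fun _ => F) i)).natDegree = q.natDegree := by
        rw [hmon.natDegree_map, natDegree_eq_of_degree_eq hdeg]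
      intro h3
      have h4 := natDegree_eq_zero_iff_degree_le_zero.2 h3.le
      rw [h2] at h4
      exact hdeg0 h4
    exact IsAlgClosed.exists_root _ h1
  choose r hr using hroot
  refine ⟨π r, ?_⟩
  have h0 := Polynomial.hom_eval₂ g (RingHom.id _) π r
  rw [RingHom.comp_id, eval₂_id] at h0
  rw [← hg, eval_map, ← h0]
  have h1 : g.eval r = 0 := by
    funext i
    have h2 := hr i
    rw [eval_map] at h2
    have h3 := Polynomial.hom_eval₂ g (RingHom.id _) (Pi.evalRingHom (fun _ => F) i) r
    rw [RingHom.comp_id, eval₂_id] at h3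
    exact h3.trans h2
  rw [h1, map_zero]

lemma germ_ite {β γ : Type*} [Zero γ] (a b : I → β) (c : I → γ) [DecidableEq β]
    [Decidable ((a : Germ (U : Filter I) β) = b)] :
    (if (a : Germ (U : Filter I) β) = b then (c : Germ (U : Filter I) γ) else 0) =
      ((fun i => if a i = b i then c i else 0 : I → γ) : Germ (U : Filter I) γ) := by
  split_ifs with h
  · rw [Germ.coe_eq] at h ⊢
    filter_upwards [h] with i hi
    rw [if_pos hi]
  · rw [Germ.coe_eq] at h
    have h1 : ∀ᶠ i in (U : Filter I), ¬ a i = b i := Ultrafilter.eventually_not.2 h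
    change ((0 : I → γ) : Germ (U : Filter I) γ) = _
    rw [Germ.coe_eq]
    filter_upwards [h1] with i hi
    rw [if_neg hi]
    rfl

lemma germ_mon {ι : Type*} [Fintype ι] (ζ : I → ι → F) (e : ι → ℤ) :
    mon (fun j => ((fun i => ζ i j : I → F) : Germ (U : Filter I) F)) e =
      ((fun i => mon (ζ i) e : I → F) : Germ (U : Filter I) F) := by
  unfold mon
  have h1 : (fun i => ∏ j, ζ i j ^ e j : I → F) = ∏ j, (fun i => ζ i j ^ e j : I → F) := by
    funext i
    rw [Finset.prod_apply]
  rw [h1]
  have h2 := map_prod (Germ.coeRingHom (U : Filter I)) (fun j => (fun i => ζ i j ^ e j : I → F))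
    Finset.univ
  refine Eq.trans ?_ h2.symm
  refine Finset.prod_congr rfl fun j _ => ?_
  rfl

lemma germ_dm {ι V : Type*} [Fintype ι] [AddCommGroup V] (w : I → ι → V) (e : ι → ℤ) :
    dm (fun j => ((fun i => w i j : I → V) : Germ (U : Filter I) V)) e =
      ((fun i => dm (w i) e : I → V) : Germ (U : Filter I) V) := by
  unfold dm
  have h1 : (fun i => ∑ j, e j • w i j : I → V) = ∑ j, (fun i => e j • w i j : I → V) := by
    funext i
    rw [Finset.sum_apply]
  rw [h1]
  have h2 := map_sum (Germ.coeAddHom (U : Filter I)) (fun j => (fun i => e j • w i j : I → V))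
    Finset.univ
  refine Eq.trans ?_ h2.symm
  refine Finset.sum_congr rfl fun j _ => ?_
  rfl

lemma germ_list_sum {V : Type*} [AddCommMonoid V] {Q : Type*} (l : List Q) (f : Q → I → V) :
    (l.map fun q => ((f q : I → V) : Germ (U : Filter I) V)).sum =
      ((fun i => (l.map fun q => f q i).sum : I → V) : Germ (U : Filter I) V) := by
  have h1 : (fun i => (l.map fun q => f q i).sum : I → V) = (l.map fun q => f q).sum := by
    funext i
    induction l with
    | nil => rfl
    | cons a l ih =>
      rw [List.map_cons, List.sum_cons, List.map_cons, List.sum_cons, Pi.add_apply, ← ih]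
  rw [h1]
  have h2 := map_list_sum (Germ.coeAddHom (U : Filter I)) (l.map fun q => f q)
  rw [List.map_map] at h2
  exact h2.symm

end

end Pool.Agent.T6.H12
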