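import Pool.Agent.T6.H12.Expo

/-!
# The derivatives of the functions of one variable and of the linear forms
-/

set_option autoImplicit false
set_option linter.unusedSectionVars false

universe u

open Polynomial

namespace Pool.Agent.T6.H12

section

variable {k K : Type u} [Field k] [Field K] [Algebra k K] {n : ℕ} {Γ κ W : Type*}
  [AddCommGroup Γ] [LinearOrder Γ] [IsOrderedAddMonoid Γ] [Field κ] [AddCommGroup W] [Module κ W]
  {A : Set K} {y : Fin n → K} {l : K → Γ} {z : K → κ} {w : Fin n → Γ} {ζ : Fin n → κ}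
  {D : Fin n → W}

lemma line_part [IsAlgClosed κ] (h : IniTop A y l z w ζ D) (hy : Function.Injective y)
    (F : IntermediateField k K) (hF : ∀ a ∈ F, a ≠ 0 → a ∈ A) {p : ℕ} [Fact p.Prime] [CharP F p]
    {x : K} (hx : Transcendental F x) (S : Finset F[X]) (hS : ∀ P ∈ S, P ≠ 0 ∧ P.natDegree < p)
    (hS' : ∀ P ∈ S, 1 < P.natDegree → derivative P ∈ S) (hyS : ∀ P ∈ S, aeval x P ∈ Set.range y) :
    ∃ τ : W, ∀ P ∈ S, ∀ j, y j = aeval x P → ∃ c : κ, D j = c • τ := by
  classical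
  let f : Fin S.card → F[X] := fun i => (S.equivFin.symm i).1
  have hf : ∀ i, f i ∈ S := fun i => (S.equivFin.symm i).2
  have hf' : ∀ P ∈ S, ∃ i, f i = P := fun P hP => ⟨S.equivFin ⟨P, hP⟩, by
    change (S.equivFin.symm (S.equivFin ⟨P, hP⟩)).1 = P
    rw [Equiv.symm_apply_apply]⟩
  have hfi : Function.Injective f := fun i j hij => S.equivFin.symm.injective (Subtype.ext hij)
  choose φ hφ using fun i => hyS (f i) (hf i)
  have hφi : Function.Injective φ := by
    intro i j hij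
    apply hfi
    have h1 : aeval x (f i) = aeval x (f j) := by rw [← hφ i, ← hφ j, hij]
    exact (transcendental_iff_injective.1 hx) h1
  have h1 := h.toIni F hF φ hφi
  have h2 : y ∘ φ = fun i => aeval x (f i) := funext hφ
  rw [h2] at h1
  obtain ⟨τ, hτ⟩ := line_ini (p := p) hx (fun i => (hS _ (hf i)).1) (fun i => (hS _ (hf i)).2)
    (fun i hi => by
      obtain ⟨i', hi'⟩ := hf' _ (hS' _ (hf i) hi)
      exact ⟨i', 1, by rw [hi', map_one, one_mul]⟩) h1
  refine ⟨τ, fun P hP j hj => ?_⟩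
  obtain ⟨i, rfl⟩ := hf' P hP
  have h3 : φ i = j := hy (by rw [hφ i, hj])
  obtain ⟨c, hc⟩ := hτ i
  exact ⟨c, by rw [← hc, Function.comp_apply, h3]⟩

lemma block_part (h : IniTop A y l z w ζ D) (hy : Function.Injective y)
    (F : IntermediateField k K) (hF : ∀ a ∈ F, a ≠ 0 → a ∈ A) (V : Submodule F K)
    [FiniteDimensional F V] (S : Finset K) (hS : ∀ b ∈ S, b ∈ V)
    (hyS : ∀ b ∈ S, b ∈ Set.range y) :
    ∃ δ : Fin (Module.finrank F V) → W, ∀ b ∈ S, ∀ j, y j = b →
      ∃ γ : Fin (Module.finrank F V) → κ, ∑ a, γ a = 1 ∧ D j = ∑ a, γ a • δ a := by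
  classical
  let f : Fin S.card → K := fun i => (S.equivFin.symm i).1
  have hf : ∀ i, f i ∈ S := fun i => (S.equivFin.symm i).2
  have hf' : ∀ P ∈ S, ∃ i, f i = P := fun P hP => ⟨S.equivFin ⟨P, hP⟩, by
    change (S.equivFin.symm (S.equivFin ⟨P, hP⟩)).1 = P
    rw [Equiv.symm_apply_apply]⟩
  have hfi : Function.Injective f := fun i j hij => S.equivFin.symm.injective (Subtype.ext hij)
  choose φ hφ using fun i => hyS (f i) (hf i)
  have hφi : Function.Injective φ := by
    intro i j hij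
    apply hfi
    rw [← hφ i, ← hφ j, hij]
  have h1 := h.toIni F hF φ hφi
  have h2 : y ∘ φ = f := funext hφ
  rw [h2] at h1
  obtain ⟨δ, hδ⟩ := block_ini h1 (M := V) fun i => hS _ (hf i)
  refine ⟨δ, fun b hb j hj => ?_⟩
  obtain ⟨i, rfl⟩ := hf' b hb
  have h3 : φ i = j := hy (by rw [hφ i, hj])
  obtain ⟨γ, hγ1, hγ2⟩ := hδ i
  exact ⟨γ, hγ1, by rw [← hγ2, Function.comp_apply, h3]⟩

end

end Pool.Agent.T6.H12
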