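import Pool.Agent.T6.H12.Assem
import Pool.Agent.T6.H12.Parts
import Pool.Agent.T6.H12.CountK

/-!
# Groups of functions with bounded derivatives
-/

set_option autoImplicit false
set_option linter.unusedSectionVars false

universe u

open Polynomial Pool.Agent.TH214.SD

namespace Pool.Agent.T6.H12

section restrict

variable {K : Type u} [Field K] {n n' : ℕ} {Γ κ W : Type*} [AddCommGroup Γ] [LinearOrder Γ]
  [Field κ] [AddCommGroup W] [Module κ W] {A : Set K} {y : Fin n → K} {l : K → Γ} {z : K → κ}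
  {w : Fin n → Γ} {ζ : Fin n → κ} {D : Fin n → W}

/-- Restriction to a subfamily. -/
lemma IniTop.restrict (h : IniTop A y l z w ζ D) (φ : Fin n' → Fin n)
    (hφ : Function.Injective φ) : IniTop A (y ∘ φ) l z (w ∘ φ) (ζ ∘ φ) (D ∘ φ) where
  z0 := h.z0
  ζ0 := fun i => h.ζ0 _
  lmul := h.lmul
  zmul := h.zmul
  rel := by
    classical
    intro L hL h0 μ hμ
    have h1 := h.rel (L.map fun q : K × (Fin n' → ℤ) =>
      (q.1, (Function.extend φ q.2 0 : Fin n → ℤ)))
      (by
        intro q hq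
        obtain ⟨j, hj, rfl⟩ := List.mem_map.1 hq
        exact hL j hj) (by
        rw [List.map_map, ← h0]
        refine congrArg List.sum (List.map_congr_left fun q _ => ?_)
        rw [Function.comp_apply, mon_ext hφ]) μ (by
        intro q hq
        obtain ⟨j, hj, rfl⟩ := List.mem_map.1 hq
        rw [dm_ext hφ]
        exact hμ j hj)
    rw [List.map_map, List.map_map] at h1
    obtain ⟨h2, h3⟩ := h1
    constructor
    · refine Eq.trans ?_ h2
      refine congrArg List.sum (List.map_congr_left fun q _ => ?_)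
      rw [Function.comp_apply, dm_ext hφ, mon_ext hφ]
    · refine Eq.trans ?_ h3
      refine congrArg List.sum (List.map_congr_left fun q _ => ?_)
      rw [Function.comp_apply, dm_ext hφ, mon_ext hφ, dm_ext hφ]

end restrict

section good

variable {k K : Type u} [Field k] [Field K] [Algebra k K] {m n : ℕ}

/-- The group of the monomials. -/
def monoGrp (E : Fin m → IntermediateField k K) (y : Fin n → K) (hy : ∀ j, y j ≠ 0) :
    Subgroup Kˣ where
  carrier := {u | ∃ a ∈ Prods E, ∃ e : Fin n → ℤ, (u : K) = a * mon y e}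
  mul_mem' := by
    rintro u v ⟨a, ha, e, hu⟩ ⟨b, hb, e', hv⟩
    refine ⟨a * b, prods_mul ha hb, e + e', ?_⟩
    rw [Units.val_mul, hu, hv, mon_add hy]
    ring
  one_mem' := ⟨1, prods_one, 0, by rw [mon_zero, mul_one, Units.val_one]⟩
  inv_mem' := by
    rintro u ⟨a, ha, e, hu⟩
    exact ⟨a⁻¹, prods_inv ha, -e, by rw [Units.val_inv_eq_inv_val, hu, mon_neg, mul_inv]⟩

lemma mem_monoGrp {E : Fin m → IntermediateField k K} {y : Fin n → K} {hy : ∀ j, y j ≠ 0}
    {u : Kˣ} : u ∈ monoGrp E y hy ↔ ∃ a ∈ Prods E, ∃ e : Fin n → ℤ, (u : K) = a * mon y e :=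
  Iff.rfl

lemma mem_monoGrp_of_range {E : Fin m → IntermediateField k K} {y : Fin n → K}
    {hy : ∀ j, y j ≠ 0} {u : Kˣ} (hu : (u : K) ∈ Set.range y) : u ∈ monoGrp E y hy := by
  classical
  obtain ⟨j, hj⟩ := hu
  exact ⟨1, prods_one, Pi.single j 1, by rw [mon_single, one_mul, hj]⟩

lemma monoGrp_mono {E : Fin m → IntermediateField k K} {n' : ℕ} {y : Fin n → K}
    {hy : ∀ j, y j ≠ 0} {y' : Fin n' → K} {hy' : ∀ j, y' j ≠ 0} (φ : Fin n → Fin n')
    (hφ : Function.Injective φ) (h : y' ∘ φ = y) : monoGrp E y hy ≤ monoGrp E y' hy' := by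
  rintro u ⟨a, ha, e, hu⟩
  refine ⟨a, ha, Function.extend φ e 0, ?_⟩
  rw [mon_ext hφ, h, hu]

/-- The bound for the logarithmic derivatives. -/
def Bounded (E : Fin m → IntermediateField k K) (y : Fin n → K) (d : ℕ) : Prop :=
  ∀ (Γ κ W : Type u) [AddCommGroup Γ] [LinearOrder Γ] [IsOrderedAddMonoid Γ] [Field κ]
    [IsAlgClosed κ] [AddCommGroup W] [Module κ W] (l : K → Γ) (z : K → κ) (w : Fin n → Γ)
    (ζ : Fin n → κ) (D : Fin n → W), IniTop (Prods E) y l z w ζ D →
    Module.finrank κ (Submodule.span κ (Set.range D)) ≤ d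

/-- Every finite subset of the group is contained in the group of monomials of a finite family
with bounded derivatives. -/
def Good (E : Fin m → IntermediateField k K) (G : Subgroup Kˣ) (d : ℕ) : Prop :=
  ∀ T : Finset Kˣ, (∀ u ∈ T, u ∈ G) → ∃ (n : ℕ) (y : Fin n → K) (hy : ∀ j, y j ≠ 0),
    Function.Injective y ∧ (∀ u ∈ T, u ∈ monoGrp E y hy) ∧ Bounded E y d

/-- The base. -/
lemma good_base (E : Fin m → IntermediateField k K) :
    Good E (Subgroup.closure {u : Kˣ | ∃ i, (u : K) ∈ E i}) 0 := by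
  intro T hT
  refine ⟨0, fun j => Fin.elim0 j, fun j => Fin.elim0 j, fun j => Fin.elim0 j, ?_, ?_⟩
  · intro u hu
    refine (Subgroup.closure_le _).2 ?_ (hT u hu)
    rintro v ⟨i, hi⟩
    exact ⟨v, prods_mem i hi v.ne_zero, 0, by rw [mon_zero, mul_one]⟩
  · intro Γ κ W _ _ _ _ _ _ _ l z w ζ D _
    have h1 : Set.range D = ∅ := Set.range_eq_empty D
    rw [h1, Submodule.span_empty, finrank_bot]

/-- Adding finitely many functions to a family. -/
lemma exists_ext {y : Fin n → K} (hy : Function.Injective y) (hy0 : ∀ j, y j ≠ 0) (Z : Finset K)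
    (hZ : ∀ b ∈ Z, b ≠ 0) : ∃ (n' : ℕ) (y' : Fin n' → K) (φ : Fin n → Fin n'),
      Function.Injective y' ∧ (∀ j, y' j ≠ 0) ∧ Function.Injective φ ∧ y' ∘ φ = y ∧
      (∀ b ∈ Z, b ∈ Set.range y') ∧ ∀ j, (∃ j', φ j' = j) ∨ y' j ∈ Z := by
  classical
  let YF : Finset K := Finset.univ.image y ∪ Z
  let y' : Fin YF.card → K := fun i => (YF.equivFin.symm i).1
  have hyi : Function.Injective y' := fun i j hij => YF.equivFin.symm.injective (Subtype.ext hij)
  have hyr : ∀ b ∈ YF, b ∈ Set.range y' := fun b hb => ⟨YF.equivFin ⟨b, hb⟩, by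
    change (YF.equivFin.symm (YF.equivFin ⟨b, _⟩)).1 = b
    rw [Equiv.symm_apply_apply]⟩
  have hyY : ∀ j, y' j ∈ YF := fun j => (YF.equivFin.symm j).2
  choose φ hφ using fun j => hyr (y j) (Finset.mem_union_left _
    (Finset.mem_image_of_mem y (Finset.mem_univ j)))
  refine ⟨YF.card, y', φ, hyi, ?_, ?_, funext hφ, fun b hb => hyr b (Finset.mem_union_right _ hb),
    ?_⟩
  · intro j
    rcases Finset.mem_union.1 (hyY j) with h | h
    · obtain ⟨i, -, hi⟩ := Finset.mem_image.1 h
      rw [← hi]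
      exact hy0 i
    · exact hZ _ h
  · intro i j hij
    apply hy
    rw [← hφ i, ← hφ j, hij]
  · intro j
    rcases Finset.mem_union.1 (hyY j) with h | h
    · obtain ⟨i, -, hi⟩ := Finset.mem_image.1 h
      exact Or.inl ⟨i, hyi (by rw [hφ, hi])⟩
    · exact Or.inr h

end good

/-- Spanning families. -/
lemma exists_span_fin {κ W : Type*} [Field κ] [AddCommGroup W] [Module κ W] {n d : ℕ}
    (D : Fin n → W) (h : Module.finrank κ (Submodule.span κ (Set.range D)) ≤ d) :
    ∃ wv : Fin d → W, ∀ v ∈ Submodule.span κ (Set.range D), ∃ c : Fin d → κ,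
      v = ∑ a, c a • wv a := by
  classical
  have hfin : FiniteDimensional κ (Submodule.span κ (Set.range D)) :=
    FiniteDimensional.span_of_finite κ (Set.finite_range D)
  let bb := Module.finBasis κ (Submodule.span κ (Set.range D))
  let ψ : Fin (Module.finrank κ (Submodule.span κ (Set.range D))) → Fin d := Fin.castLE h
  have hψ : Function.Injective ψ := Fin.castLE_injective h
  refine ⟨Function.extend ψ (fun i => (bb i : W)) 0, fun v hv => ?_⟩
  refine ⟨Function.extend ψ (fun i => bb.repr ⟨v, hv⟩ i) 0, ?_⟩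
  have h1 := congrArg Subtype.val (bb.sum_repr ⟨v, hv⟩)
  refine h1.symm.trans ?_
  rw [Submodule.coe_sum]
  refine Fintype.sum_of_injective ψ hψ _ _ ?_ ?_
  · intro q hq
    rw [Function.extend_apply' _ _ _ (fun ⟨i, hi⟩ => hq ⟨i, hi⟩), Pi.zero_apply, zero_smul]
  · intro b
    rw [hψ.extend_apply, hψ.extend_apply]
    rfl

end Pool.Agent.T6.H12
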