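import Pool.Agent.TH214.SD.Main
import Pool.Agent.W558.T3.PLF

/-!
# Transcendence bases and products
-/

set_option autoImplicit false

universe u

open Pool.Agent.TH214.SD

namespace Pool.Agent.T6.H12

open scoped IntermediateField.algebraAdjoinAdjoin in
/-- A transcendence basis among the generators. -/
lemma exists_rho {F K : Type u} [Field F] [Field K] [Algebra F K] {n d : ℕ} (y : Fin n → K)
    (hgen : IntermediateField.adjoin F (Set.range y) = ⊤)
    (htr : Algebra.trdeg F K = (d : Cardinal.{u})) :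
    d ≤ n ∧ ∃ ρ : Fin d → Fin n, AlgebraicIndependent F (y ∘ ρ) := by
  classical
  have halg : Algebra.IsAlgebraic (IntermediateField.adjoin F (Set.range y)) K := by
    refine ⟨fun z => ?_⟩
    have h1 : z ∈ IntermediateField.adjoin F (Set.range y) := by
      rw [hgen]
      trivial
    exact isAlgebraic_algebraMap (⟨z, h1⟩ : IntermediateField.adjoin F (Set.range y))
  have halg' : Algebra.IsAlgebraic (Algebra.adjoin F (Set.range y)) K :=
    (IsFractionRing.comap_isAlgebraic_iff (A := Algebra.adjoin F (Set.range y))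
      (K := IntermediateField.adjoin F (Set.range y)) (C := K)).2 halg
  obtain ⟨t, ht, hbt⟩ := exists_isTranscendenceBasis_subset (R := F) (Set.range y)
  have hcard : Cardinal.mk t = (d : Cardinal.{u}) := by
    rw [← htr]
    exact hbt.cardinalMk_eq_trdeg
  have hfin : Finite t := Cardinal.lt_aleph0_iff_finite.1 (hcard ▸ Cardinal.natCast_lt_aleph0)
  have hd : Nat.card t = d := by
    rw [Nat.card, hcard, Cardinal.toNat_natCast]
  obtain ⟨ε⟩ : Nonempty (Fin d ≃ t) := ⟨(Finite.equivFinOfCardEq hd).symm⟩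
  choose ρ hρ using fun i : Fin d => ht (ε i).2
  have hρi : Function.Injective ρ := by
    intro i j hij
    apply ε.injective
    apply Subtype.ext
    rw [← hρ i, ← hρ j, hij]
  refine ⟨?_, ρ, ?_⟩
  · simpa using Fintype.card_le_of_injective ρ hρi
  · have h1 : y ∘ ρ = (fun b : t => (b : K)) ∘ ε := funext hρ
    rw [h1]
    exact hbt.1.comp ε ε.injective

section prod

variable {k K : Type u} [Field k] [Field K] [Algebra k K] {m n : ℕ}

/-- The products of nonzero elements of the fields `E i`. -/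
def Prods (E : Fin m → IntermediateField k K) : Set K :=
  {b | ∃ v : ∀ i, E i, (∀ i, v i ≠ 0) ∧ b = ∏ i, (v i : K)}

variable {E : Fin m → IntermediateField k K}

lemma prods_ne {a : K} (ha : a ∈ Prods E) : a ≠ 0 := by
  obtain ⟨v, hv, rfl⟩ := ha
  exact Finset.prod_ne_zero_iff.2 fun i _ h0 => hv i (Subtype.ext h0)

lemma prods_mul {a b : K} (ha : a ∈ Prods E) (hb : b ∈ Prods E) : a * b ∈ Prods E := by
  obtain ⟨v, hv, rfl⟩ := ha
  obtain ⟨v', hv', rfl⟩ := hb
  exact ⟨fun i => v i * v' i, fun i => mul_ne_zero (hv i) (hv' i), by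
    rw [← Finset.prod_mul_distrib]
    rfl⟩

lemma prods_inv {a : K} (ha : a ∈ Prods E) : a⁻¹ ∈ Prods E := by
  obtain ⟨v, hv, rfl⟩ := ha
  exact ⟨fun i => (v i)⁻¹, fun i => inv_ne_zero (hv i), by
    rw [← Finset.prod_inv_distrib]
    rfl⟩

lemma prods_one : (1 : K) ∈ Prods E :=
  ⟨fun _ => 1, fun _ => one_ne_zero, by
    symm
    exact Finset.prod_eq_one fun i _ => rfl⟩

lemma prods_mem (i : Fin m) {a : K} (ha : a ∈ E i) (h0 : a ≠ 0) : a ∈ Prods E := by
  classical
  refine ⟨Function.update (fun _ => 1) i ⟨a, ha⟩, ?_, ?_⟩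
  · intro j
    by_cases hj : j = i
    · subst hj
      rw [Function.update_self]
      exact fun h => h0 (congrArg Subtype.val h)
    · rw [Function.update_of_ne hj]
      exact one_ne_zero
  · rw [Finset.prod_eq_single i]
    · rw [Function.update_self]
    · intro j _ hj
      rw [Function.update_of_ne hj]
      rfl
    · intro h; exact absurd (Finset.mem_univ _) h

lemma prods_neg [NeZero m] {a : K} (ha : a ∈ Prods E) : -a ∈ Prods E := by
  rw [← neg_one_mul]
  refine prods_mul (prods_mem 0 (neg_mem (one_mem _)) (neg_ne_zero.2 one_ne_zero)) ha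

lemma isProduct_mul {y : Fin n → K} {a b : K} (hy : ∀ j, y j ≠ 0) (ha : IsProduct E y a)
    (hb : IsProduct E y b) : IsProduct E y (a * b) := by
  obtain ⟨v, e, hv, rfl⟩ := ha
  obtain ⟨v', e', hv', rfl⟩ := hb
  refine ⟨fun i => v i * v' i, e + e', fun i => mul_ne_zero (hv i) (hv' i), ?_⟩
  have h1 : ∏ j, y j ^ (e + e') j = (∏ j, y j ^ e j) * ∏ j, y j ^ e' j := by
    rw [← Finset.prod_mul_distrib]
    exact Finset.prod_congr rfl fun j _ => zpow_add₀ (hy j) _ _
  have h2 : ∏ i, ((v i * v' i : E i) : K) = (∏ i, (v i : K)) * ∏ i, (v' i : K) := by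
    rw [← Finset.prod_mul_distrib]
    rfl
  rw [h1, h2]
  ring

lemma isProduct_inv {y : Fin n → K} {a : K} (ha : IsProduct E y a) : IsProduct E y a⁻¹ := by
  obtain ⟨v, e, hv, rfl⟩ := ha
  refine ⟨fun i => (v i)⁻¹, -e, fun i => inv_ne_zero (hv i), ?_⟩
  have h1 : ∏ j, y j ^ (-e) j = (∏ j, y j ^ e j)⁻¹ := by
    rw [← Finset.prod_inv_distrib]
    exact Finset.prod_congr rfl fun j _ => zpow_neg _ _
  have h2 : ∏ i, (((v i)⁻¹ : E i) : K) = (∏ i, (v i : K))⁻¹ := by
    rw [← Finset.prod_inv_distrib]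
    rfl
  rw [h1, h2, mul_inv]

lemma isProduct_prods {y : Fin n → K} {a : K} (ha : a ∈ Prods E) : IsProduct E y a := by
  obtain ⟨v, hv, rfl⟩ := ha
  refine ⟨v, 0, hv, ?_⟩
  have h1 : ∏ j, y j ^ (0 : Fin n → ℤ) j = 1 := Finset.prod_eq_one fun j _ => zpow_zero _
  rw [h1, mul_one]

lemma isProduct_var (y : Fin n → K) (j : Fin n) : IsProduct E y (y j) := by
  classical
  refine ⟨fun _ => 1, Pi.single j 1, fun _ => one_ne_zero, ?_⟩
  have h1 : ∏ i : Fin m, ((1 : E i) : K) = 1 := Finset.prod_eq_one fun i _ => rfl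
  rw [h1, one_mul, Finset.prod_eq_single j]
  · rw [Pi.single_eq_same, zpow_one]
  · intro i _ hi
    rw [Pi.single_eq_of_ne hi, zpow_zero]
  · intro h; exact absurd (Finset.mem_univ _) h

end prod

end Pool.Agent.T6.H12
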