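import Pool.Agent.T6.H12.Sys

/-!
# Places from initial data
-/

set_option autoImplicit false

open scoped Classical in
/-- Initial data of the relations between monomials. -/
structure Pool.Agent.T6.H12.Ini {E Ω κ Γ W ι : Type*} [Field E] [Field Ω] [Algebra E Ω] [Field κ]
    [AddCommGroup Γ] [LinearOrder Γ] [AddCommGroup W] [Module κ W]
    [Fintype ι] (y : ι → Ω) (l : E → Γ) (z : E → κ) (w : ι → Γ) (ζ : ι → κ) (D : ι → W) :
    Prop where
  z0 : ∀ a, a ≠ 0 → z a ≠ 0
  ζ0 : ∀ i, ζ i ≠ 0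
  lmul : ∀ a b, a ≠ 0 → b ≠ 0 → l (a * b) = l a + l b
  zmul : ∀ a b, a ≠ 0 → b ≠ 0 → z (a * b) = z a * z b
  rel : ∀ (J : Type) [Fintype J] (c : J → E) (e : J → ι → ℤ), (∀ j, c j ≠ 0) →
    ∑ j, algebraMap E Ω (c j) * Pool.Agent.T6.H12.mon y (e j) = 0 →
    ∀ μ, (∀ j, μ ≤ l (c j) + Pool.Agent.T6.H12.dm w (e j)) →
    (∑ j, if l (c j) + Pool.Agent.T6.H12.dm w (e j) = μ then
      z (c j) * Pool.Agent.T6.H12.mon ζ (e j) else 0) = 0 ∧
    (∑ j, if l (c j) + Pool.Agent.T6.H12.dm w (e j) = μ then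
      (z (c j) * Pool.Agent.T6.H12.mon ζ (e j)) • Pool.Agent.T6.H12.dm D (e j) else 0) = 0

namespace Pool.Agent.T6.H12

section

variable {E Ω κ Γ W : Type*} {ι : Type} [Field E] [Field Ω] [Algebra E Ω] [Field κ]
  [AddCommGroup Γ] [LinearOrder Γ] [IsOrderedAddMonoid Γ] [AddCommGroup W] [Module κ W]
  [Fintype ι] {y : ι → Ω} {l : E → Γ} {z : E → κ} {w : ι → Γ} {ζ : ι → κ} {D : ι → W}

namespace Ini

variable (h : Ini y l z w ζ D)

include h

lemma l_one : l 1 = 0 := by
  have h1 := h.lmul 1 1 one_ne_zero one_ne_zero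
  rw [mul_one] at h1
  exact left_eq_add.1 h1

lemma z_one : z 1 = 1 := by
  have h1 := h.zmul 1 1 one_ne_zero one_ne_zero
  rw [mul_one] at h1
  exact (mul_eq_left₀ (h.z0 1 one_ne_zero)).1 h1.symm

lemma l_inv {a : E} (ha : a ≠ 0) : l a⁻¹ = -l a := by
  have h1 := h.lmul a a⁻¹ ha (inv_ne_zero ha)
  rw [mul_inv_cancel₀ ha, h.l_one] at h1
  exact (neg_eq_of_add_eq_zero_right h1.symm).symm

lemma z_inv {a : E} (ha : a ≠ 0) : z a⁻¹ = (z a)⁻¹ := by
  have h1 := h.zmul a a⁻¹ ha (inv_ne_zero ha)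
  rw [mul_inv_cancel₀ ha, h.z_one] at h1
  exact eq_inv_of_mul_eq_one_right h1.symm

lemma neg_one : l (-1) = 0 ∧ z (-1) = -1 := by
  classical
  have hm : (-1 : E) ≠ 0 := neg_ne_zero.2 one_ne_zero
  have hl : l (-1) = 0 := by
    have h1 := h.lmul (-1) (-1) hm hm
    rw [neg_mul_neg, mul_one, h.l_one] at h1
    by_contra h0
    rcases lt_or_gt_of_ne h0 with h2 | h2
    · exact absurd h1 (add_neg h2 h2).ne'
    · exact absurd h1 (add_pos h2 h2).ne
  refine ⟨hl, ?_⟩
  have h1 := (h.rel (Fin 2) ![1, -1] (fun _ => 0) (by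
    intro j
    fin_cases j
    · exact one_ne_zero
    · exact hm) (by
    rw [Fin.sum_univ_two]
    simp) 0 (by
    intro j
    fin_cases j
    · simp [h.l_one, dm_zero]
    · simp [hl, dm_zero])).1
  rw [Fin.sum_univ_two] at h1
  simp only [Matrix.cons_val_zero, Matrix.cons_val_one, h.l_one, hl, dm_zero, add_zero, if_true,
    h.z_one, mon_zero, mul_one] at h1
  exact (neg_eq_of_add_eq_zero_right h1).symm

lemma l_neg {a : E} (ha : a ≠ 0) : l (-a) = l a := by
  rw [← neg_one_mul, h.lmul _ _ (neg_ne_zero.2 one_ne_zero) ha, h.neg_one.1, zero_add]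

lemma z_neg {a : E} (ha : a ≠ 0) : z (-a) = -z a := by
  rw [← neg_one_mul, h.zmul _ _ (neg_ne_zero.2 one_ne_zero) ha, h.neg_one.2, neg_one_mul]

end Ini

variable (l z w ζ)

open Classical in
/-- The value of a monomial of nonnegative weight. -/
noncomputable def phi (a : E) (e : ι → ℤ) : κ := if l a + dm w e = 0 then z a * mon ζ e else 0

variable {l z w ζ}

lemma phi_mul (h : Ini y l z w ζ D) {a b : E} (ha : a ≠ 0) (hb : b ≠ 0) {e e' : ι → ℤ}
    (h1 : 0 ≤ l a + dm w e) (h2 : 0 ≤ l b + dm w e') :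
    phi l z w ζ (a * b) (e + e') = phi l z w ζ a e * phi l z w ζ b e' := by
  have h3 : l (a * b) + dm w (e + e') = (l a + dm w e) + (l b + dm w e') := by
    rw [h.lmul a b ha hb, dm_add]
    abel
  unfold phi
  rw [h3]
  by_cases h4 : l a + dm w e = 0
  · rw [h4, zero_add, if_pos rfl]
    by_cases h5 : l b + dm w e' = 0
    · rw [if_pos h5, if_pos h5, h.zmul a b ha hb, mon_add h.ζ0]
      ring
    · rw [if_neg h5, if_neg h5, mul_zero]
  · rw [if_neg h4, zero_mul, if_neg]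
    intro h5
    have h6 : 0 < l a + dm w e := lt_of_le_of_ne h1 (Ne.symm h4)
    exact (add_pos_of_pos_of_nonneg h6 h2).ne' h5

/-- The generators of the graph. -/
def iniM (hy : ∀ i, y i ≠ 0) (h : Ini y l z w ζ D) : Submonoid (Ω × κ) where
  carrier := {q | ∃ (a : E) (e : ι → ℤ), a ≠ 0 ∧ 0 ≤ l a + dm w e ∧
    q = (algebraMap E Ω a * mon y e, phi l z w ζ a e)}
  one_mem' := by
    refine ⟨1, 0, one_ne_zero, ?_, ?_⟩
    · rw [h.l_one, dm_zero, add_zero]
    · ext
      · rw [map_one, mon_zero, mul_one]; rfl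
      · change (1 : κ) = phi l z w ζ 1 0
        unfold phi
        rw [h.l_one, dm_zero, add_zero, if_pos rfl, h.z_one, mon_zero, mul_one]
  mul_mem' := by
    rintro _ _ ⟨a, e, ha, h1, rfl⟩ ⟨b, e', hb, h2, rfl⟩
    refine ⟨a * b, e + e', mul_ne_zero ha hb, ?_, ?_⟩
    · have h3 : l (a * b) + dm w (e + e') = (l a + dm w e) + (l b + dm w e') := by
        rw [h.lmul a b ha hb, dm_add]
        abel
      rw [h3]
      exact add_nonneg h1 h2
    · ext
      · change _ = algebraMap E Ω (a * b) * mon y (e + e')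
        rw [map_mul, mon_add hy, Prod.fst_mul]
        ring
      · change _ = phi l z w ζ (a * b) (e + e')
        rw [phi_mul h ha hb h1 h2]
        rfl

/-- The graph. -/
def iniS (hy : ∀ i, y i ≠ 0) (h : Ini y l z w ζ D) : Subring (Ω × κ) :=
  Subring.closure (iniM hy h : Set (Ω × κ))

lemma iniS_rep (hy : ∀ i, y i ≠ 0) (h : Ini y l z w ζ D) {q : Ω × κ} (hq : q ∈ iniS hy h) :
    ∃ (J : Type) (_ : Fintype J) (c : J → E) (e : J → ι → ℤ), (∀ j, c j ≠ 0) ∧
      (∀ j, 0 ≤ l (c j) + dm w (e j)) ∧ q.1 = ∑ j, algebraMap E Ω (c j) * mon y (e j) ∧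
      q.2 = ∑ j, phi l z w ζ (c j) (e j) := by
  unfold iniS at hq
  rw [Subring.mem_closure_iff, Submonoid.closure_eq] at hq
  induction hq using AddSubgroup.closure_induction with
  | mem q hq =>
    obtain ⟨a, e, h1, h2, rfl⟩ := hq
    refine ⟨Unit, inferInstance, fun _ => a, fun _ => e, fun _ => h1, fun _ => h2, ?_, ?_⟩
    · simp
    · simp
  | zero =>
    refine ⟨Empty, inferInstance, fun j => j.elim, fun j => j.elim, fun j => j.elim,
      fun j => j.elim, ?_, ?_⟩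
    · simp
    · simp
  | add q q' _ _ h1 h2 =>
    obtain ⟨J, iJ, c, e, a1, a2, a3, a4⟩ := h1
    obtain ⟨J', iJ', c', e', b1, b2, b3, b4⟩ := h2
    refine ⟨J ⊕ J', inferInstance, Sum.elim c c', Sum.elim e e', ?_, ?_, ?_, ?_⟩
    · rintro (j | j)
      · exact a1 j
      · exact b1 j
    · rintro (j | j)
      · exact a2 j
      · exact b2 j
    · rw [Fintype.sum_sum_type, Prod.fst_add, a3, b3]
      rfl
    · rw [Fintype.sum_sum_type, Prod.snd_add, a4, b4]
      rfl
  | neg q _ h1 =>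
    obtain ⟨J, iJ, c, e, a1, a2, a3, a4⟩ := h1
    refine ⟨J, iJ, fun j => -c j, e, fun j => neg_ne_zero.2 (a1 j), ?_, ?_, ?_⟩
    · intro j
      rw [h.l_neg (a1 j)]
      exact a2 j
    · rw [Prod.fst_neg, a3, ← Finset.sum_neg_distrib]
      exact Finset.sum_congr rfl fun j _ => by rw [map_neg, neg_mul]
    · rw [Prod.snd_neg, a4, ← Finset.sum_neg_distrib]
      refine Finset.sum_congr rfl fun j _ => ?_
      unfold phi
      rw [h.l_neg (a1 j), h.z_neg (a1 j)]
      split_ifs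
      · ring
      · rw [neg_zero]

lemma iniS_gra (hy : ∀ i, y i ≠ 0) (h : Ini y l z w ζ D) : Gra (iniS hy h) := by
  intro t ht
  obtain ⟨J, iJ, c, e, a1, a2, a3, a4⟩ := iniS_rep hy h ht
  exact a4.trans (h.rel J c e a1 a3.symm 0 a2).1

/-- The place of the initial data. -/
theorem exists_rp [IsAlgClosed κ] (hy : ∀ i, y i ≠ 0) (h : Ini y l z w ζ D) :
    ∃ P : Pl Ω κ, RP P y D E := by
  classical
  obtain ⟨P, hP⟩ := exists_pl (iniS_gra hy h)
  have hgen : ∀ (a : E) (e : ι → ℤ), a ≠ 0 → 0 ≤ l a + dm w e →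
      algebraMap E Ω a * mon y e ∈ P.O ∧ P.ev (algebraMap E Ω a * mon y e) =
        phi l z w ζ a e := by
    intro a e ha he
    obtain ⟨h1, h2⟩ := hP (algebraMap E Ω a * mon y e) (phi l z w ζ a e)
      (Subring.subset_closure ⟨a, e, ha, he, rfl⟩)
    exact ⟨h1, by rw [P.ev_mem h1, h2]⟩
  refine ⟨P, ?_⟩
  intro s C h0 g hg hO
  let s' := s.filter fun e => C e ≠ 0
  have hs1 : ∑ e ∈ s', algebraMap E Ω (C e) * mon y e = 0 := by
    rw [← h0]
    refine Finset.sum_filter_of_ne fun e _ he hC => he ?_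
    rw [hC, map_zero, zero_mul]
  have hs2 : ∑ e ∈ s, P.ev (algebraMap E Ω (C e) * mon y e / g) • dm D e =
      ∑ e ∈ s', P.ev (algebraMap E Ω (C e) * mon y e / g) • dm D e := by
    symm
    refine Finset.sum_filter_of_ne fun e _ he hC => he ?_
    rw [hC, map_zero, zero_mul, zero_div, P.ev_zero, zero_smul]
  rw [hs2]
  rcases s'.eq_empty_or_nonempty with hemp | hne
  · rw [hemp, Finset.sum_empty]
  obtain ⟨q, hq, hmin⟩ := Finset.exists_min_image s' (fun e => l (C e) + dm w e) hne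
  have hC : ∀ e ∈ s', C e ≠ 0 := fun e he => (Finset.mem_filter.1 he).2
  have hss : ∀ e ∈ s', e ∈ s := fun e he => (Finset.mem_filter.1 he).1
  have hq0 := hC q hq
  have hQ0 : algebraMap E Ω (C q) * mon y q ≠ 0 := mul_ne_zero ((map_ne_zero _).2 hq0) (mon_ne hy q)
  have hquot : ∀ e ∈ s', algebraMap E Ω (C e / C q) * mon y (e + -q) =
      (algebraMap E Ω (C e) * mon y e) / (algebraMap E Ω (C q) * mon y q) := by
    intro e he
    rw [map_div₀, mon_add hy, mon_neg]
    have := mon_ne hy q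
    have := (map_ne_zero (algebraMap E Ω)).2 hq0
    field_simp
  have hwt : ∀ e ∈ s', l (C e / C q) + dm w (e + -q) =
      (l (C e) + dm w e) - (l (C q) + dm w q) := by
    intro e he
    rw [div_eq_mul_inv, h.lmul _ _ (hC e he) (inv_ne_zero hq0), h.l_inv hq0, dm_add, dm_neg]
    abel
  have hterm : ∀ e ∈ s', P.ev (algebraMap E Ω (C e) * mon y e / g) =
      (P.ev (algebraMap E Ω (C q) * mon y q / g) * (z (C q) * mon ζ q)⁻¹) *
        (if l (C e) + dm w e = l (C q) + dm w q then z (C e) * mon ζ e else 0) := by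
    intro e he
    have h1 := hgen (C e / C q) (e + -q) (div_ne_zero (hC e he) hq0) (by
      rw [hwt e he]
      exact sub_nonneg.2 (hmin e he))
    have h2 : algebraMap E Ω (C e) * mon y e / g =
        (algebraMap E Ω (C e / C q) * mon y (e + -q)) * (algebraMap E Ω (C q) * mon y q / g) := by
      rw [hquot e he, ← mul_div_assoc, div_mul_cancel₀ _ hQ0]
    rw [h2, P.ev_mul h1.1 (hO q (hss q hq)), h1.2]
    unfold phi
    rw [hwt e he]
    by_cases h3 : l (C e) + dm w e = l (C q) + dm w q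
    · rw [if_pos (sub_eq_zero.2 h3), if_pos h3, div_eq_mul_inv,
        h.zmul _ _ (hC e he) (inv_ne_zero hq0), h.z_inv hq0, mon_add h.ζ0, mon_neg]
      have := h.z0 _ hq0
      have := mon_ne h.ζ0 q
      field_simp
    · rw [if_neg h3, if_neg (fun h4 => h3 (sub_eq_zero.1 h4)), zero_mul, mul_zero]
  rw [Finset.sum_congr rfl fun e he => by rw [hterm e he, mul_smul], ← Finset.smul_sum]
  have h1 := (h.rel s' (fun e => C e) (fun e => e) (fun e => hC e e.2) (by
    rw [Finset.sum_coe_sort s' fun e => algebraMap E Ω (C e) * mon y e]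
    exact hs1) (l (C q) + dm w q) (fun e => hmin e e.2)).2
  have h2 : ∑ e ∈ s', (if l (C e) + dm w e = l (C q) + dm w q then z (C e) * mon ζ e else 0) •
      dm D e = 0 := by
    rw [← h1, ← Finset.sum_coe_sort s']
    refine Finset.sum_congr rfl fun e _ => ?_
    split_ifs
    · rfl
    · rw [zero_smul]
  rw [h2, smul_zero]

end

end Pool.Agent.T6.H12
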