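import Pool.Agent.T6.H12.GermA
import Pool.Agent.TH214.SD.Defs

/-!
# Failure of the schön condition for finitely many relations
-/

set_option autoImplicit false

universe u

open Pool.Agent.TH214.SD

namespace Pool.Agent.T6.H12

section lin

variable {F : Type*} [Field F]

/-- Vectors orthogonal to a small subspace. -/
lemma exists_orth {n c d : ℕ} (hcd : c + d = n) (U : Submodule F (Fin n → F))
    (hU : Module.finrank F U < c) :
    ∃ (D : Fin n → Fin (d + 1) → F) (R : Fin (d + 1) → Fin n → F),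
      (∀ g ∈ U, ∑ j, g j • D j = 0) ∧ ∀ a, ∑ j, R a j • D j = Pi.single a 1 := by
  classical
  have h1 : d + 1 ≤ Module.finrank F ((Fin n → F) ⧸ U) := by
    have h2 := Submodule.finrank_quotient_add_finrank U
    rw [Module.finrank_fin_fun] at h2
    omega
  let e : ((Fin n → F) ⧸ U) ≃ₗ[F] (Fin (Module.finrank F ((Fin n → F) ⧸ U)) → F) :=
    (Module.finBasis F ((Fin n → F) ⧸ U)).equivFun
  let π : (Fin n → F) →ₗ[F] (Fin (d + 1) → F) :=
    (LinearMap.funLeft F F (Fin.castLE h1)).comp (e.toLinearMap.comp U.mkQ)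
  have hπ : Function.Surjective π := by
    intro v
    obtain ⟨v', hv'⟩ := LinearMap.funLeft_surjective_of_injective F F _
      (Fin.castLE_injective h1) v
    obtain ⟨v2, hv2⟩ := e.surjective v'
    obtain ⟨v3, hv3⟩ := Submodule.mkQ_surjective U v2
    refine ⟨v3, ?_⟩
    rw [← hv', ← hv2, ← hv3]
    rfl
  have hsum : ∀ g : Fin n → F, ∑ j, g j • π (Pi.single j 1) = π g := by
    intro g
    have h2 : g = ∑ j, g j • (Pi.single j 1 : Fin n → F) := by
      conv_lhs => rw [← Finset.univ_sum_single g]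
      refine Finset.sum_congr rfl fun j _ => ?_
      rw [← Pi.single_smul, smul_eq_mul, mul_one]
    conv_rhs => rw [h2]
    rw [map_sum]
    exact Finset.sum_congr rfl fun j _ => (map_smul _ _ _).symm
  choose R hR using fun a : Fin (d + 1) => hπ (Pi.single a 1)
  refine ⟨fun j => π (Pi.single j 1), R, ?_, ?_⟩
  · intro g hg
    rw [hsum]
    change (LinearMap.funLeft F F (Fin.castLE h1)) (e (U.mkQ g)) = 0
    rw [show U.mkQ g = 0 from (Submodule.Quotient.mk_eq_zero U).2 hg, map_zero, map_zero]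
  · intro a
    rw [hsum, hR]

end lin

section add

variable {k : Type u} [Field k] {h n : ℕ}

/-- The weight of an exponent. -/
def wte (l : Fin h ⊕ Fin n → ℤ) (e : Fin h ⊕ Fin n → ℤ) : ℤ := ∑ j, l j * e j

variable {M : Type*} [AddCommGroup M] [Module k M]

open Classical in
/-- The part of weight `μ`. -/
noncomputable def part (k : Type u) [Field k] [Module k M] (l : Fin h ⊕ Fin n → ℤ)
    (T : (Fin h ⊕ Fin n → ℤ) → M) (μ : ℤ) : ((Fin h ⊕ Fin n → ℤ) →₀ k) →ₗ[k] M :=
  Finsupp.linearCombination k fun e => if wte l e = μ then T e else 0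

lemma part_single (l : Fin h ⊕ Fin n → ℤ) (T : (Fin h ⊕ Fin n → ℤ) → M) (μ : ℤ)
    (e : Fin h ⊕ Fin n → ℤ) [Decidable (wte l e = μ)] :
    part k l T μ (Finsupp.single e 1) = if wte l e = μ then T e else 0 := by
  unfold part
  rw [Finsupp.linearCombination_single, one_smul]
  congr

lemma part_eq_sum (l : Fin h ⊕ Fin n → ℤ) (T : (Fin h ⊕ Fin n → ℤ) → M) (μ : ℤ)
    (F : (Fin h ⊕ Fin n → ℤ) →₀ k) (hμ : ∀ e ∈ F.support, μ ≤ wte l e) :
    part k l T μ F = 0 ∨ part k l T μ F = ∑ e ∈ initialExponents F l, F e • T e := by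
  classical
  have h1 : part k l T μ F = ∑ e ∈ F.support, if wte l e = μ then F e • T e else 0 := by
    unfold part
    rw [Finsupp.linearCombination_apply, Finsupp.sum]
    refine Finset.sum_congr rfl fun e _ => ?_
    split_ifs
    · rfl
    · rw [smul_zero]
  by_cases h2 : ∃ e ∈ F.support, wte l e = μ
  · right
    obtain ⟨e0, he0, he0'⟩ := h2
    rw [h1, ← Finset.sum_filter]
    unfold initialExponents
    refine Finset.sum_congr (Finset.filter_congr fun e he => ?_) fun _ _ => rfl
    constructor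
    · intro h3 e' he'
      exact h3.le.trans (hμ e' he')
    · intro h3
      exact le_antisymm ((h3 e0 he0).trans he0'.le) (hμ e he)
  · left
    push Not at h2
    rw [h1]
    exact Finset.sum_eq_zero fun e he => if_neg (h2 e he)

lemma part_value (l : Fin h ⊕ Fin n → ℤ) (z : Fin h ⊕ Fin n → AlgebraicClosure k)
    (F : (Fin h ⊕ Fin n → ℤ) →₀ k) (h0 : initialValue F l z = 0) (μ : ℤ)
    (hμ : ∀ e ∈ F.support, μ ≤ wte l e) : part k l (fun e => ∏ j, z j ^ e j) μ F = 0 := by
  rcases part_eq_sum l (fun e => ∏ j, z j ^ e j) μ F hμ with h1 | h1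
  · exact h1
  · rw [h1, ← h0]
    unfold initialValue
    exact Finset.sum_congr rfl fun e _ => Algebra.smul_def _ _

lemma part_gradient {d : ℕ} (l : Fin h ⊕ Fin n → ℤ) (z : Fin h ⊕ Fin n → AlgebraicClosure k)
    (D : Fin n → Fin d → AlgebraicClosure k)
    (F : (Fin h ⊕ Fin n → ℤ) →₀ k) (h0 : ∑ j, initialGradient F l z j • D j = 0) (μ : ℤ)
    (hμ : ∀ e ∈ F.support, μ ≤ wte l e) :
    part k l (fun e => (∏ j, z j ^ e j) • dm D fun j => e (Sum.inr j)) μ F = 0 := by
  rcases part_eq_sum l (fun e => (∏ j, z j ^ e j) • dm D fun j => e (Sum.inr j)) μ F hμ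
    with h1 | h1
  · exact h1
  · rw [h1, ← h0]
    unfold initialGradient dm
    simp_rw [Finset.sum_smul]
    rw [Finset.sum_comm]
    refine Finset.sum_congr rfl fun e _ => ?_
    rw [Finset.smul_sum, Finset.smul_sum]
    refine Finset.sum_congr rfl fun j _ => ?_
    rw [← algebraMap_smul (AlgebraicClosure k) (F e), smul_smul,
      ← Int.cast_smul_eq_zsmul (AlgebraicClosure k) (e (Sum.inr j)) (D j), smul_smul]
    congr 1
    ring

lemma value_eq {K : Type u} [Field K] [Algebra k K] (F : (Fin h ⊕ Fin n → ℤ) →₀ k)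
    (u : Fin h → K) (y : Fin n → K) :
    value F u y = Finsupp.linearCombination k (fun e => ∏ j, Sum.elim u y j ^ e j) F := rfl

end add

end Pool.Agent.T6.H12
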