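import Pool.Agent.T6.H12.Sys

/-!
# The closure of a system of logarithmic derivatives
-/

set_option autoImplicit false

namespace Pool.Agent.T6.H12

lemma sum_ext_union {L X M : Type*} [Zero L] [AddCommMonoid M] [DecidableEq X] {s s' : Finset X}
    (C : X → L) (hC : ∀ e ∉ s, C e = 0) (f : L → X → M) (hf : ∀ e, f 0 e = 0) (hs : s ⊆ s') :
    ∑ e ∈ s, f (C e) e = ∑ e ∈ s', f (C e) e := by
  refine Finset.sum_subset hs fun e _ he => ?_
  rw [hC e he]
  exact hf e

section cl

variable {Ω κ W : Type*} [Field Ω] [Field κ] [AddCommGroup W] [Module κ W] {ι : Type*} [Fintype ι]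
  (P : Pl Ω κ) (y : ι → Ω) (D : ι → W) (L : Type*) [Field L] [Algebra L Ω]

/-- The graph of the derivation on the sums of monomials. -/
def S0 : AddSubgroup (Ω × W) :=
  AddSubgroup.closure {q | ∃ (a : L) (e : ι → ℤ), algebraMap L Ω a * mon y e ∈ P.O ∧
    q = (algebraMap L Ω a * mon y e, P.ev (algebraMap L Ω a * mon y e) • dm D e)}

variable {P y D L}

lemma S0_mem {q : Ω × W} (hq : q ∈ S0 P y D L) : q.1 ∈ P.O := by
  induction hq using AddSubgroup.closure_induction with
  | mem q hq =>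
    obtain ⟨a, e, h1, rfl⟩ := hq
    exact h1
  | zero => exact P.O.zero_mem
  | add q q' _ _ h1 h2 => exact P.O.add_mem _ _ h1 h2
  | neg q _ h1 => exact P.O.neg_mem _ h1

lemma S0_gen {a : L} {e : ι → ℤ} (h : algebraMap L Ω a * mon y e ∈ P.O) :
    (algebraMap L Ω a * mon y e, P.ev (algebraMap L Ω a * mon y e) • dm D e) ∈ S0 P y D L :=
  AddSubgroup.subset_closure ⟨a, e, h, rfl⟩

lemma S0_rep {q : Ω × W} (hq : q ∈ S0 P y D L) :
    ∃ (s : Finset (ι → ℤ)) (C : (ι → ℤ) → L), (∀ e, algebraMap L Ω (C e) * mon y e ∈ P.O) ∧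
      (∀ e ∉ s, C e = 0) ∧ q.1 = ∑ e ∈ s, algebraMap L Ω (C e) * mon y e ∧
      q.2 = ∑ e ∈ s, P.ev (algebraMap L Ω (C e) * mon y e) • dm D e := by
  classical
  induction hq using AddSubgroup.closure_induction with
  | mem q hq =>
    obtain ⟨a, e, h1, rfl⟩ := hq
    refine ⟨{e}, Pi.single e a, ?_, ?_, ?_, ?_⟩
    · intro e'
      by_cases h : e' = e
      · subst h
        rw [Pi.single_eq_same]
        exact h1
      · rw [Pi.single_eq_of_ne h, map_zero, zero_mul]
        exact P.O.zero_mem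
    · intro e' he'
      exact Pi.single_eq_of_ne (fun h => he' (Finset.mem_singleton.2 h)) _
    · rw [Finset.sum_singleton, Pi.single_eq_same]
    · rw [Finset.sum_singleton, Pi.single_eq_same]
  | zero =>
    refine ⟨∅, 0, ?_, fun e _ => rfl, ?_, ?_⟩
    · intro e
      rw [Pi.zero_apply, map_zero, zero_mul]
      exact P.O.zero_mem
    · rw [Finset.sum_empty]; rfl
    · rw [Finset.sum_empty]; rfl
  | add q q' _ _ h1 h2 =>
    obtain ⟨s, C, a1, a2, a3, a4⟩ := h1
    obtain ⟨s', C', b1, b2, b3, b4⟩ := h2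
    have hO : ∀ e, algebraMap L Ω ((C + C') e) * mon y e =
        algebraMap L Ω (C e) * mon y e + algebraMap L Ω (C' e) * mon y e := by
      intro e
      rw [Pi.add_apply, map_add, add_mul]
    refine ⟨s ∪ s', C + C', ?_, ?_, ?_, ?_⟩
    · intro e
      rw [hO]
      exact P.O.add_mem _ _ (a1 e) (b1 e)
    · intro e he
      rw [Finset.notMem_union] at he
      rw [Pi.add_apply, a2 e he.1, b2 e he.2, add_zero]
    · rw [Prod.fst_add, a3, b3, sum_ext_union C a2 (fun a e => algebraMap L Ω a * mon y e) (by simp)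
        (Finset.subset_union_left (s₂ := s')),
        sum_ext_union C' b2 (fun a e => algebraMap L Ω a * mon y e) (by simp)
        (Finset.subset_union_right (s₁ := s)), ← Finset.sum_add_distrib]
      exact Finset.sum_congr rfl fun e _ => (hO e).symm
    · rw [Prod.snd_add, a4, b4, sum_ext_union C a2
        (fun a e => P.ev (algebraMap L Ω a * mon y e) • dm D e)
        (by intro e; rw [map_zero, zero_mul, P.ev_zero, zero_smul])
        (Finset.subset_union_left (s₂ := s')),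
        sum_ext_union C' b2 (fun a e => P.ev (algebraMap L Ω a * mon y e) • dm D e)
        (by intro e; rw [map_zero, zero_mul, P.ev_zero, zero_smul])
        (Finset.subset_union_right (s₁ := s)), ← Finset.sum_add_distrib]
      refine Finset.sum_congr rfl fun e _ => ?_
      rw [hO, P.ev_add (a1 e) (b1 e), add_smul]
  | neg q _ h1 =>
    obtain ⟨s, C, a1, a2, a3, a4⟩ := h1
    have hO : ∀ e, algebraMap L Ω ((-C) e) * mon y e = -(algebraMap L Ω (C e) * mon y e) := by
      intro e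
      rw [Pi.neg_apply, map_neg, neg_mul]
    refine ⟨s, -C, ?_, ?_, ?_, ?_⟩
    · intro e
      rw [hO]
      exact P.O.neg_mem _ (a1 e)
    · intro e he
      rw [Pi.neg_apply, a2 e he, neg_zero]
    · rw [Prod.fst_neg, a3, ← Finset.sum_neg_distrib]
      exact Finset.sum_congr rfl fun e _ => (hO e).symm
    · rw [Prod.snd_neg, a4, ← Finset.sum_neg_distrib]
      refine Finset.sum_congr rfl fun e _ => ?_
      rw [hO, P.ev_neg (a1 e), neg_smul]

lemma S0_fun (hR : RP1 P y D L) {w : W} (h : ((0 : Ω), w) ∈ S0 P y D L) : w = 0 := by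
  obtain ⟨s, C, a1, a2, a3, a4⟩ := S0_rep h
  rw [show w = ((0 : Ω), w).2 from rfl, a4]
  exact hR s C a3.symm fun e _ => a1 e

lemma S0_fun' (hR : RP1 P y D L) {x : Ω} {w w' : W} (h : (x, w) ∈ S0 P y D L)
    (h' : (x, w') ∈ S0 P y D L) : w = w' := by
  have h1 := (S0 P y D L).sub_mem h h'
  have h2 : (x, w) - (x, w') = ((0 : Ω), w - w') := by
    ext <;> simp
  rw [h2] at h1
  exact sub_eq_zero.1 (S0_fun hR h1)

variable (hy : ∀ i, y i ≠ 0)

include hy in
lemma S0_mul {q q' : Ω × W} (hq : q ∈ S0 P y D L) (hq' : q' ∈ S0 P y D L) :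
    (q.1 * q'.1, P.ev q.1 • q'.2 + P.ev q'.1 • q.2) ∈ S0 P y D L := by
  have hadd : ∀ {a b : Ω × W}, a ∈ S0 P y D L → b ∈ S0 P y D L → a + b ∈ S0 P y D L :=
    fun h h' => (S0 P y D L).add_mem h h'
  induction hq using AddSubgroup.closure_induction with
  | mem q hq =>
    obtain ⟨a, e, h1, rfl⟩ := hq
    induction hq' using AddSubgroup.closure_induction with
    | mem q' hq' =>
      obtain ⟨a', e', h1', rfl⟩ := hq'
      have h2 : algebraMap L Ω (a * a') * mon y (e + e') =
          (algebraMap L Ω a * mon y e) * (algebraMap L Ω a' * mon y e') := by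
        rw [map_mul, mon_add hy]
        ring
      have h3 : algebraMap L Ω (a * a') * mon y (e + e') ∈ P.O := by
        rw [h2]
        exact P.O.mul_mem _ _ h1 h1'
      have h4 := S0_gen (D := D) h3
      rw [h2, P.ev_mul h1 h1', dm_add] at h4
      convert h4 using 2
      module
    | zero =>
      convert (S0 P y D L).zero_mem using 1
      simp [P.ev_zero]
    | add q q' hq hq' ih ih' =>
      convert hadd ih ih' using 1
      ext
      · exact mul_add _ _ _
      · simp only [Prod.fst_add, Prod.snd_add]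
        rw [P.ev_add (S0_mem hq) (S0_mem hq')]
        module
    | neg q hq ih =>
      convert (S0 P y D L).neg_mem ih using 1
      ext
      · exact mul_neg _ _
      · simp only [Prod.fst_neg, Prod.snd_neg]
        rw [P.ev_neg (S0_mem hq)]
        module
  | zero =>
    convert (S0 P y D L).zero_mem using 1
    simp [P.ev_zero]
  | add q q1 hq hq1 ih ih' =>
    convert hadd ih ih' using 1
    ext
    · exact add_mul _ _ _
    · simp only [Prod.fst_add, Prod.snd_add]
      rw [P.ev_add (S0_mem hq) (S0_mem hq1)]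
      module
  | neg q hq ih =>
    convert (S0 P y D L).neg_mem ih using 1
    ext
    · exact neg_mul _ _
    · simp only [Prod.fst_neg, Prod.snd_neg]
      rw [P.ev_neg (S0_mem hq)]
      module

lemma S0_one : ((1 : Ω), (0 : W)) ∈ S0 P y D L := by
  have h1 : algebraMap L Ω 1 * mon y 0 = 1 := by rw [map_one, mon_zero, mul_one]
  have h2 := S0_gen (P := P) (y := y) (D := D) (a := (1 : L)) (e := 0) (by
    rw [h1]
    exact P.O.one_mem)
  rw [h1, dm_zero, smul_zero] at h2
  exact h2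

variable (P y D L)

/-- The graph of the derivation on the local ring. -/
def RR (x : Ω) (w : W) : Prop :=
  ∃ s ws b wb, (s, ws) ∈ S0 P y D L ∧ (b, wb) ∈ S0 P y D L ∧ P.ev s ≠ 0 ∧ x * s = b ∧
    P.ev s • w + P.ev x • ws = wb

variable {P y D L}

lemma RR_mem {x : Ω} {w : W} (h : RR P y D L x w) : x ∈ P.O := by
  obtain ⟨s, ws, b, wb, h1, h2, h3, h4, h5⟩ := h
  have h6 : x = b * s⁻¹ := by
    rw [← h4, mul_inv_cancel_right₀ (P.ne_of_ev h3)]
  rw [h6]
  exact P.O.mul_mem _ _ (S0_mem h2) (P.inv_mem h3)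

lemma RR_of {x : Ω} {w : W} (h : (x, w) ∈ S0 P y D L) : RR P y D L x w := by
  refine ⟨1, 0, x, w, S0_one, h, ?_, mul_one x, ?_⟩
  · rw [P.ev_one]; exact one_ne_zero
  · rw [P.ev_one, one_smul, smul_zero, add_zero]

include hy in
lemma RR_fun (hR : RP1 P y D L) {x : Ω} {w w' : W} (h : RR P y D L x w)
    (h' : RR P y D L x w') : w = w' := by
  have hx := RR_mem h
  obtain ⟨s, ws, b, wb, h1, h2, h3, h4, h5⟩ := h
  obtain ⟨s', ws', b', wb', h1', h2', h3', h4', h5'⟩ := h'
  have e1 := S0_mul hy h2 h1'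
  have e2 := S0_mul hy h2' h1
  have e3 : b * s' = b' * s := by rw [← h4, ← h4']; ring
  simp only at e1 e2
  rw [e3] at e1
  have e4 := S0_fun' hR e1 e2
  have hs := P.mem_of_ev h3
  have hs' := P.mem_of_ev h3'
  rw [← h4, ← h4', P.ev_mul hx hs, P.ev_mul hx hs', ← h5, ← h5'] at e4
  have e5 : (P.ev s * P.ev s') • (w - w') = 0 := by
    have e6 := sub_eq_zero.2 e4
    rw [← e6]
    module
  exact sub_eq_zero.1 ((smul_eq_zero.1 e5).resolve_left (mul_ne_zero h3 h3'))

include hy in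
lemma RR_add {x x' : Ω} {w w' : W} (h : RR P y D L x w) (h' : RR P y D L x' w') :
    RR P y D L (x + x') (w + w') := by
  have hx := RR_mem h
  have hx' := RR_mem h'
  obtain ⟨s, ws, b, wb, h1, h2, h3, h4, h5⟩ := h
  obtain ⟨s', ws', b', wb', h1', h2', h3', h4', h5'⟩ := h'
  have hs := P.mem_of_ev h3
  have hs' := P.mem_of_ev h3'
  refine ⟨_, _, _, _, S0_mul hy h1 h1', (S0 P y D L).add_mem (S0_mul hy h2 h1')
    (S0_mul hy h2' h1), ?_, ?_, ?_⟩
  · change P.ev (s * s') ≠ 0
    rw [P.ev_mul hs hs']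
    exact mul_ne_zero h3 h3'
  · change (x + x') * (s * s') = b * s' + b' * s
    rw [← h4, ← h4']; ring
  · change P.ev (s * s') • (w + w') + P.ev (x + x') • (P.ev s • ws' + P.ev s' • ws) =
      (P.ev b • ws' + P.ev s' • wb) + (P.ev b' • ws + P.ev s • wb')
    rw [P.ev_mul hs hs', P.ev_add hx hx', ← h4, ← h4', P.ev_mul hx hs, P.ev_mul hx' hs', ← h5, ← h5']
    module

include hy in
lemma RR_mul {x x' : Ω} {w w' : W} (h : RR P y D L x w) (h' : RR P y D L x' w') :
    RR P y D L (x * x') (P.ev x • w' + P.ev x' • w) := by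
  have hx := RR_mem h
  have hx' := RR_mem h'
  obtain ⟨s, ws, b, wb, h1, h2, h3, h4, h5⟩ := h
  obtain ⟨s', ws', b', wb', h1', h2', h3', h4', h5'⟩ := h'
  have hs := P.mem_of_ev h3
  have hs' := P.mem_of_ev h3'
  refine ⟨_, _, _, _, S0_mul hy h1 h1', S0_mul hy h2 h2', ?_, ?_, ?_⟩
  · change P.ev (s * s') ≠ 0
    rw [P.ev_mul hs hs']
    exact mul_ne_zero h3 h3'
  · change (x * x') * (s * s') = b * b'
    rw [← h4, ← h4']; ring
  · change P.ev (s * s') • (P.ev x • w' + P.ev x' • w) + P.ev (x * x') •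
      (P.ev s • ws' + P.ev s' • ws) = P.ev b • wb' + P.ev b' • wb
    rw [P.ev_mul hs hs', P.ev_mul hx hx', ← h4, ← h4', P.ev_mul hx hs, P.ev_mul hx' hs', ← h5, ← h5']
    module

lemma RR_inv {x : Ω} {w : W} (h : RR P y D L x w) (h0 : P.ev x ≠ 0) :
    RR P y D L x⁻¹ (-(P.ev x)⁻¹ ^ 2 • w) := by
  have hx := RR_mem h
  obtain ⟨s, ws, b, wb, h1, h2, h3, h4, h5⟩ := h
  have hs := P.mem_of_ev h3
  refine ⟨b, wb, s, ws, h2, h1, ?_, ?_, ?_⟩
  · rw [← h4, P.ev_mul hx hs]
    exact mul_ne_zero h0 h3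
  · rw [← h4, inv_mul_cancel_left₀ (P.ne_of_ev h0)]
  · rw [← h4, P.ev_mul hx hs, ← h5, P.ev_inv h0]
    match_scalars
    · field_simp
      ring
    · field_simp

variable (P y D L)

/-- The logarithmic derivatives. -/
def RD (g : Ω) (δ : W) : Prop :=
  ∃ a : L, a ≠ 0 ∧ ∃ e u w, RR P y D L u w ∧ P.ev u ≠ 0 ∧ g = algebraMap L Ω a * mon y e * u ∧
    δ = dm D e + (P.ev u)⁻¹ • w

variable {P y D L}

include hy in
lemma RD_ne {g : Ω} {δ : W} (h : RD P y D L g δ) : g ≠ 0 := by
  obtain ⟨a, ha, e, u, w, h1, h2, rfl, rfl⟩ := h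
  exact mul_ne_zero (mul_ne_zero ((map_ne_zero _).2 ha) (mon_ne hy e)) (P.ne_of_ev h2)

lemma RR_mon {a : L} {e : ι → ℤ} (h : algebraMap L Ω a * mon y e ∈ P.O) :
    RR P y D L (algebraMap L Ω a * mon y e) (P.ev (algebraMap L Ω a * mon y e) • dm D e) :=
  RR_of (S0_gen h)

include hy in
lemma RD_fun (hR : RP1 P y D L) {g : Ω} {δ δ' : W} (h : RD P y D L g δ)
    (h' : RD P y D L g δ') : δ = δ' := by
  obtain ⟨a, ha, e, u, w, h1, h2, h3, rfl⟩ := h
  obtain ⟨a', ha', e', u', w', h1', h2', h3', rfl⟩ := h'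
  have hm := mon_ne hy e
  have hm' := mon_ne hy e'
  have hu := P.ne_of_ev h2
  have hu' := P.ne_of_ev h2'
  have hA : algebraMap L Ω a ≠ 0 := (map_ne_zero _).2 ha
  have hA' : algebraMap L Ω a' ≠ 0 := (map_ne_zero _).2 ha'
  have ht : algebraMap L Ω (a / a') * mon y (e + -e') = u' * u⁻¹ := by
    rw [map_div₀, mon_add hy, mon_neg]
    rw [h3] at h3'
    field_simp
    linear_combination h3'
  have hu1 : P.ev (u' * u⁻¹) = P.ev u' * (P.ev u)⁻¹ := by
    rw [P.ev_mul (P.mem_of_ev h2') (P.inv_mem h2), P.ev_inv h2]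
  have hO : algebraMap L Ω (a / a') * mon y (e + -e') ∈ P.O := by
    rw [ht]
    exact P.O.mul_mem _ _ (P.mem_of_ev h2') (P.inv_mem h2)
  have e1 := RR_mul hy (RR_mon (D := D) hO) h1
  rw [ht, inv_mul_cancel_right₀ hu, dm_add, dm_neg, hu1] at e1
  have e2 := RR_fun hy hR e1 h1'
  rw [← e2]
  match_scalars
  · field_simp
  · field_simp
  · field_simp
    ring

lemma RD_const {a : L} (ha : a ≠ 0) : RD P y D L (algebraMap L Ω a) 0 := by
  refine ⟨a, ha, 0, 1, 0, RR_of S0_one, ?_, ?_, ?_⟩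
  · rw [P.ev_one]; exact one_ne_zero
  · rw [mon_zero, mul_one, mul_one]
  · rw [dm_zero, smul_zero, add_zero]

lemma RD_mon (e : ι → ℤ) : RD P y D L (mon y e) (dm D e) := by
  refine ⟨1, one_ne_zero, e, 1, 0, RR_of S0_one, ?_, ?_, ?_⟩
  · rw [P.ev_one]; exact one_ne_zero
  · rw [map_one, one_mul, mul_one]
  · rw [smul_zero, add_zero]

lemma RD_y [DecidableEq ι] (i : ι) : RD P y D L (y i) (D i) := by
  have h1 := RD_mon (P := P) (y := y) (D := D) (L := L) (Pi.single i 1)
  rwa [mon_single, dm_single] at h1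

include hy in
lemma RD_mul {g g' : Ω} {δ δ' : W} (h : RD P y D L g δ) (h' : RD P y D L g' δ') :
    RD P y D L (g * g') (δ + δ') := by
  obtain ⟨a, ha, e, u, w, h1, h2, rfl, rfl⟩ := h
  obtain ⟨a', ha', e', u', w', h1', h2', rfl, rfl⟩ := h'
  refine ⟨a * a', mul_ne_zero ha ha', e + e', u * u', _, RR_mul hy h1 h1', ?_, ?_, ?_⟩
  · rw [P.ev_mul (P.mem_of_ev h2) (P.mem_of_ev h2')]
    exact mul_ne_zero h2 h2'
  · rw [map_mul, mon_add hy]
    ring
  · rw [P.ev_mul (P.mem_of_ev h2) (P.mem_of_ev h2'), dm_add]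
    match_scalars <;> field_simp

lemma RD_inv {g : Ω} {δ : W} (h : RD P y D L g δ) : RD P y D L g⁻¹ (-δ) := by
  obtain ⟨a, ha, e, u, w, h1, h2, rfl, rfl⟩ := h
  refine ⟨a⁻¹, inv_ne_zero ha, -e, u⁻¹, _, RR_inv h1 h2, ?_, ?_, ?_⟩
  · rw [P.ev_inv h2]
    exact inv_ne_zero h2
  · rw [map_inv₀, mon_neg, mul_inv, mul_inv]
  · rw [P.ev_inv h2, dm_neg]
    match_scalars <;> field_simp

include hy in
lemma RD_div {g g' : Ω} {δ δ' : W} (h : RD P y D L g δ) (h' : RD P y D L g' δ') :
    RD P y D L (g / g') (δ - δ') := by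
  rw [div_eq_mul_inv, sub_eq_add_neg]
  exact RD_mul hy h (RD_inv h')

include hy in
lemma RR_of_RD {q : Ω} {δ : W} (h : RD P y D L q δ) (hq : q ∈ P.O) :
    RR P y D L q (P.ev q • δ) := by
  obtain ⟨a, ha, e, u, w, h1, h2, rfl, rfl⟩ := h
  have hu := P.ne_of_ev h2
  have hO : algebraMap L Ω a * mon y e ∈ P.O := by
    have h3 := P.O.mul_mem _ _ hq (P.inv_mem h2)
    rwa [mul_inv_cancel_right₀ hu] at h3
  have h3 := RR_mul hy (RR_mon (D := D) hO) h1
  convert h3 using 1
  rw [P.ev_mul hO (P.mem_of_ev h2)]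
  match_scalars <;> field_simp

lemma RD_of_RR {x : Ω} {w : W} (h : RR P y D L x w) (h0 : P.ev x ≠ 0) :
    RD P y D L x ((P.ev x)⁻¹ • w) := by
  refine ⟨1, one_ne_zero, 0, x, w, h, h0, ?_, ?_⟩
  · rw [map_one, mon_zero, one_mul, one_mul]
  · rw [dm_zero, zero_add]

lemma RR_one : RR P y D L 1 0 := RR_of S0_one

include hy in
/-- The logarithmic derivatives of sums. -/
theorem RD_add_const {g : Ω} {δ : W} (h : RD P y D L g δ) (c : L)
    (h0 : g + algebraMap L Ω c ≠ 0) (hg : P.V g ≤ P.V (g + algebraMap L Ω c))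
    (hc : P.V (algebraMap L Ω c) ≤ P.V (g + algebraMap L Ω c)) :
    RD P y D L (g + algebraMap L Ω c) (P.ev (g / (g + algebraMap L Ω c)) • δ) := by
  have hg0 : g ≠ 0 := RD_ne hy h
  set q := g + algebraMap L Ω c with hq
  have hqp := P.V_pos h0
  rcases hc.lt_or_eq with hlt | heq
  · have hgV : P.V g = P.V q := by
      refine le_antisymm hg ?_
      by_contra hlt'
      rw [not_le] at hlt'
      have h1 := P.V.map_add g (algebraMap L Ω c)
      rw [← hq] at h1
      exact absurd (lt_of_le_of_lt h1 (max_lt hlt' hlt)) (lt_irrefl _)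
    have h2 : P.ev (q / g) = 1 := by
      have h3 : q / g = 1 + algebraMap L Ω c / g := by
        rw [hq]
        field_simp
      have h4 : P.V (algebraMap L Ω c / g) < 1 := by
        rw [map_div₀, hgV]
        exact (div_lt_one₀ hqp).2 hlt
      rw [h3, P.ev_add P.O.one_mem (P.mem_iff.2 h4.le), P.ev_one, P.ev_eq_zero h4, add_zero]
    have h3 : P.ev (g / q) = 1 := by
      have h4 := P.ev_inv (x := q / g) (by rw [h2]; exact one_ne_zero)
      rw [inv_div, h2, inv_one] at h4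
      exact h4
    rw [h3, one_smul]
    by_cases hc0 : c = 0
    · rw [hq, hc0, map_zero, add_zero]
      exact h
    · have h4 := RD_div hy (RD_const (P := P) (y := y) (D := D) hc0) h
      have h5 : P.V (algebraMap L Ω c / g) < 1 := by
        rw [map_div₀, hgV]
        exact (div_lt_one₀ hqp).2 hlt
      have h6 := RR_of_RD hy h4 (P.mem_iff.2 h5.le)
      rw [P.ev_eq_zero h5, zero_smul] at h6
      have h7 := RR_add hy RR_one h6
      have h8 : 1 + algebraMap L Ω c / g = q / g := by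
        rw [hq]
        field_simp
      rw [h8, add_zero] at h7
      have h9 := RD_of_RR h7 (by rw [h2]; exact one_ne_zero)
      rw [smul_zero] at h9
      have h10 := RD_mul hy h9 h
      rw [div_mul_cancel₀ _ hg0, zero_add] at h10
      exact h10
  · have hc0 : c ≠ 0 := by
      rintro rfl
      rw [map_zero, map_zero] at heq
      exact hqp.ne heq
    have hC0 : algebraMap L Ω c ≠ 0 := (map_ne_zero _).2 hc0
    have h1 : g / algebraMap L Ω c ∈ P.O := by
      rw [P.div_mem hC0, heq]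
      exact hg
    have h2 := RD_div hy h (RD_const (P := P) (y := y) (D := D) hc0)
    rw [sub_zero] at h2
    have h3 := RR_add hy RR_one (RR_of_RD hy h2 h1)
    have h4 : 1 + g / algebraMap L Ω c = q / algebraMap L Ω c := by
      rw [hq]
      field_simp
      ring
    rw [h4, zero_add] at h3
    have h5 : P.ev (q / algebraMap L Ω c) ≠ 0 := by
      rw [P.ev_ne_iff, map_div₀, heq, div_self hqp.ne']
    have h6 := RD_mul hy (RD_of_RR h3 h5) (RD_const (P := P) (y := y) (D := D) hc0)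
    rw [div_mul_cancel₀ _ hC0, add_zero] at h6
    convert h6 using 1
    rw [smul_smul]
    congr 1
    have h7 : g / q = (q / algebraMap L Ω c)⁻¹ * (g / algebraMap L Ω c) := by
      field_simp
    rw [h7, P.ev_mul (P.inv_mem h5) h1, P.ev_inv h5]

end cl

end Pool.Agent.T6.H12
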