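import Mathlib

/-!
# Extension of homomorphisms into algebraically closed fields to valuation rings
-/

set_option autoImplicit false

universe u v

namespace Pool.Agent.T6.H12

/-- A place of the field `Ω` with values in the field `κ`. -/
structure Pl (Ω : Type u) (κ : Type v) [Field Ω] [Field κ] where
  O : ValuationSubring Ω
  ψ : O →+* κ
  loc : ∀ x : O, ψ x ≠ 0 → (x : Ω)⁻¹ ∈ O

section place

variable {Ω : Type u} {κ : Type v} [Field Ω] [Field κ]

/-- The subring `S` of `Ω × κ` is the graph of a homomorphism. -/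
def Gra (S : Subring (Ω × κ)) : Prop := ∀ t, ((0 : Ω), t) ∈ S → t = 0

lemma gra_inj {S : Subring (Ω × κ)} (hS : Gra S) {x : Ω} {t t' : κ} (h : (x, t) ∈ S)
    (h' : (x, t') ∈ S) : t = t' := by
  have h1 := S.sub_mem h h'
  have h2 : (x, t) - (x, t') = ((0 : Ω), t - t') := by
    ext <;> simp
  rw [h2] at h1
  exact sub_eq_zero.1 (hS _ h1)

lemma exists_max_gra {S : Subring (Ω × κ)} (hS : Gra S) :
    ∃ T : Subring (Ω × κ), S ≤ T ∧ Gra T ∧ ∀ T' : Subring (Ω × κ), Gra T' → T ≤ T' → T' = T := by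
  obtain ⟨T, hST, hT⟩ := zorn_le_nonempty₀ {T : Subring (Ω × κ) | Gra T} (by
    intro c hc hch y hy
    have : Nonempty c := ⟨⟨y, hy⟩⟩
    refine ⟨⨆ i : c, i.1, ?_, fun z hz => le_iSup (fun i : c => i.1) ⟨z, hz⟩⟩
    intro t ht
    have hdir : Directed (· ≤ ·) (fun i : c => i.1) := hch.directed
    obtain ⟨i, hi⟩ := (Subring.mem_iSup_of_directed hdir).1 ht
    exact hc i.2 t hi) S hS
  exact ⟨T, hST, hT.prop, fun T' h1 h2 => (hT.eq_of_le h1 h2).symm⟩

/-- The homomorphisms of the graph. -/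
def gfst (T : Subring (Ω × κ)) : T →+* Ω := (RingHom.fst Ω κ).comp T.subtype

def gsnd (T : Subring (Ω × κ)) : T →+* κ := (RingHom.snd Ω κ).comp T.subtype

lemma gfst_inj {T : Subring (Ω × κ)} (hT : Gra T) : Function.Injective (gfst T) := by
  rw [injective_iff_map_eq_zero]
  rintro ⟨⟨x, t⟩, hx⟩ h
  have h1 : x = 0 := h
  subst h1
  have := hT t hx
  subst this
  rfl

lemma max_inv {T : Subring (Ω × κ)} (hT : Gra T)
    (hmax : ∀ T' : Subring (Ω × κ), Gra T' → T ≤ T' → T' = T) {x : Ω} {t : κ}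
    (h : (x, t) ∈ T) (ht : t ≠ 0) : (x⁻¹, t⁻¹) ∈ T := by
  let P : Ideal T := RingHom.ker (gsnd T)
  have hP : P.IsPrime := RingHom.ker_isPrime _
  have hx0 : x ≠ 0 := by
    rintro rfl
    exact ht (hT t h)
  have hi : Function.Injective (gfst T) := gfst_inj hT
  have hu1 : ∀ y : P.primeCompl, IsUnit (gfst T y) := by
    intro y
    apply IsUnit.mk0
    intro h0
    apply y.2
    have : (y : T) = 0 := (map_eq_zero_iff _ hi).1 h0
    rw [this]
    exact P.zero_mem
  have hu2 : ∀ y : P.primeCompl, IsUnit (gsnd T y) := by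
    intro y
    apply IsUnit.mk0
    intro h0
    exact y.2 (RingHom.mem_ker.2 h0)
  let i : Localization.AtPrime P →+* Ω := IsLocalization.lift (M := P.primeCompl) hu1
  let s : Localization.AtPrime P →+* κ := IsLocalization.lift (M := P.primeCompl) hu2
  have hi' : Function.Injective i := by
    rw [injective_iff_map_eq_zero]
    intro z hz
    obtain ⟨a, b, rfl⟩ := IsLocalization.exists_mk'_eq P.primeCompl z
    rw [IsLocalization.lift_mk'_spec, mul_zero] at hz
    have : a = 0 := (map_eq_zero_iff _ hi).1 hz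
    rw [this, IsLocalization.mk'_zero]
  let T' : Subring (Ω × κ) := (i.prod s).range
  have hT' : Gra T' := by
    rintro t ⟨z, hz⟩
    have h1 : i z = 0 := congrArg Prod.fst hz
    have h2 : s z = t := congrArg Prod.snd hz
    rw [← h2, (map_eq_zero_iff _ hi').1 h1, map_zero]
  have hle : T ≤ T' := by
    intro z hz
    refine ⟨algebraMap T _ ⟨z, hz⟩, ?_⟩
    ext
    · exact IsLocalization.lift_eq hu1 _
    · exact IsLocalization.lift_eq hu2 _
  have heq := hmax T' hT' hle
  rw [← heq]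
  have hxP : (⟨(x, t), h⟩ : T) ∈ P.primeCompl := fun h0 => ht (RingHom.mem_ker.1 h0)
  refine ⟨IsLocalization.mk' _ (1 : T) ⟨⟨(x, t), h⟩, hxP⟩, ?_⟩
  ext
  · change i _ = x⁻¹
    have h2 : i (algebraMap T _ (⟨(x, t), h⟩ : T)) = x := IsLocalization.lift_eq hu1 _
    have h1 := congrArg i (IsLocalization.mk'_spec (Localization.AtPrime P) (1 : T)
      (⟨⟨(x, t), h⟩, hxP⟩ : P.primeCompl))
    rw [map_mul, map_one, map_one] at h1
    exact eq_inv_of_mul_eq_one_left ((congrArg _ h2.symm).trans h1)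
  · change s _ = t⁻¹
    have h2 : s (algebraMap T _ (⟨(x, t), h⟩ : T)) = t := IsLocalization.lift_eq hu2 _
    have h1 := congrArg s (IsLocalization.mk'_spec (Localization.AtPrime P) (1 : T)
      (⟨⟨(x, t), h⟩, hxP⟩ : P.primeCompl))
    rw [map_mul, map_one, map_one] at h1
    exact eq_inv_of_mul_eq_one_left ((congrArg _ h2.symm).trans h1)

lemma exists_lift_of_gen {k0 F κ : Type*} [Field k0] [Field F] [Field κ] [IsAlgClosed κ]
    (j0 : k0 →+* F) (s0 : k0 →+* κ) (x : F) (hx : ∀ z : F, ∃ f : Polynomial k0,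
      f.eval₂ j0 x = z) : ∃ l : F →+* κ, ∀ a, l (j0 a) = s0 a := by
  algebraize [j0, s0]
  have hfin : Algebra.FiniteType k0 F := by
    refine ⟨⟨{x}, ?_⟩⟩
    rw [eq_top_iff]
    rintro z -
    obtain ⟨f, rfl⟩ := hx z
    have h1 : f.eval₂ j0 x = Polynomial.aeval x f := rfl
    rw [h1, Finset.coe_singleton]
    exact Polynomial.aeval_mem_adjoin_singleton _ _
  have hfin' : Module.Finite k0 F := finite_of_finite_type_of_isJacobsonRing k0 F
  have halg : Algebra.IsAlgebraic k0 F := Algebra.IsAlgebraic.of_finite k0 F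
  let l : F →ₐ[k0] κ := IsAlgClosed.lift
  exact ⟨l, fun a => l.commutes a⟩

/-- The maximal homomorphisms are defined on valuation rings. -/
theorem max_mem [IsAlgClosed κ] {T : Subring (Ω × κ)} (hT : Gra T)
    (hmax : ∀ T' : Subring (Ω × κ), Gra T' → T ≤ T' → T' = T) (B : Subring Ω)
    (hB : IsLocalRing B) (hTB : ∀ z : T, gfst T z ∈ B)
    (hloc : ∀ z : T, ∀ y ∈ B, gfst T z * y = 1 → gsnd T z ≠ 0) {x : Ω} (hx : x ∈ B) :
    ∃ z : T, gfst T z = x := by
  classical
  let i : T →+* B := (gfst T).codRestrict B hTB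
  let A : Subring B := (Polynomial.eval₂RingHom i ⟨x, hx⟩).range
  let e : Polynomial T →+* A := (Polynomial.eval₂RingHom i ⟨x, hx⟩).rangeRestrict
  have he : Function.Surjective e := RingHom.rangeRestrict_surjective _
  let P : Ideal T := RingHom.ker (gsnd T)
  have hPm : ∀ z : T, z ∉ P → IsUnit z := by
    intro z hz
    have h1 : gsnd T z ≠ 0 := fun h => hz (RingHom.mem_ker.2 h)
    have h2 := max_inv hT hmax (x := z.1.1) (t := z.1.2) z.2 h1
    refine IsUnit.of_mul_eq_one ⟨_, h2⟩ ?_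
    apply gfst_inj hT
    rw [map_mul, map_one]
    have h3 : gfst T z ≠ 0 := by
      intro h4
      apply h1
      rw [(map_eq_zero_iff _ (gfst_inj hT)).1 h4, map_zero]
    exact mul_inv_cancel₀ h3
  have hPmax : P.IsMaximal := by
    refine Ideal.isMaximal_iff.2 ⟨?_, ?_⟩
    · intro h
      have := RingHom.mem_ker.1 h
      rw [map_one] at this
      exact one_ne_zero this
    · intro J z hPJ hz hzJ
      obtain ⟨w, hw⟩ := (hPm z hz).exists_right_inv
      rw [← hw]
      exact J.mul_mem_right _ hzJ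
  -- the maximal ideal
  let Q : Ideal A := (IsLocalRing.maximalIdeal B).comap A.subtype
  have hQ : Q ≠ ⊤ := by
    intro h
    have h1 : (1 : A) ∈ Q := by rw [h]; trivial
    have h2 : (1 : B) ∈ IsLocalRing.maximalIdeal B := h1
    exact (IsLocalRing.maximalIdeal.isMaximal B).ne_top ((Ideal.eq_top_iff_one _).2 h2)
  obtain ⟨N, hN, hQN⟩ := Ideal.exists_le_maximal Q hQ
  let F := A ⧸ N
  let _ : Field F := Ideal.Quotient.field N
  let j : T →+* F := (Ideal.Quotient.mk N).comp (e.comp Polynomial.C)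
  have hj : ∀ z ∈ P, j z = 0 := by
    intro z hz
    refine Ideal.Quotient.eq_zero_iff_mem.2 (hQN ?_)
    change A.subtype (e (Polynomial.C z)) ∈ IsLocalRing.maximalIdeal B
    have h1 : A.subtype (e (Polynomial.C z)) = i z := Polynomial.eval₂_C _ _
    rw [h1, IsLocalRing.mem_maximalIdeal, mem_nonunits_iff]
    intro hu
    obtain ⟨y, hy⟩ := hu.exists_right_inv
    refine hloc z y y.2 (congrArg Subtype.val hy) (RingHom.mem_ker.1 hz)
  let _ : Field (T ⧸ P) := Ideal.Quotient.field P
  let j0 : T ⧸ P →+* F := Ideal.Quotient.lift P j hj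
  let s0 : T ⧸ P →+* κ := Ideal.Quotient.lift P (gsnd T) fun z hz => RingHom.mem_ker.1 hz
  obtain ⟨l, hl⟩ := exists_lift_of_gen j0 s0 (Ideal.Quotient.mk N (e Polynomial.X)) (by
    intro z
    obtain ⟨a, rfl⟩ := Ideal.Quotient.mk_surjective z
    obtain ⟨f, rfl⟩ := he a
    refine ⟨f.map (Ideal.Quotient.mk P), ?_⟩
    rw [Polynomial.eval₂_map]
    induction f using Polynomial.induction_on' with
    | add f g hf hg =>
      rw [map_add, map_add, Polynomial.eval₂_add, hf, hg]
    | monomial n a =>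
      rw [← Polynomial.C_mul_X_pow_eq_monomial, map_mul, map_mul, map_pow, map_pow,
        Polynomial.eval₂_mul, Polynomial.eval₂_X_pow, Polynomial.eval₂_C]
      rfl)
  let χ : A →+* κ := l.comp (Ideal.Quotient.mk N)
  have hχ : ∀ z : T, χ (e (Polynomial.C z)) = gsnd T z := by
    intro z
    exact hl (Ideal.Quotient.mk P z)
  let T' : Subring (Ω × κ) := ((B.subtype.comp A.subtype).prod χ).range
  have hT' : Gra T' := by
    rintro t ⟨z, hz⟩
    have h1 : ((z : B) : Ω) = 0 := congrArg Prod.fst hz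
    have h2 : χ z = t := congrArg Prod.snd hz
    have h3 : z = 0 := Subtype.ext (Subtype.ext h1)
    rw [← h2, h3, map_zero]
  have hle : T ≤ T' := by
    intro z hz
    refine ⟨e (Polynomial.C ⟨z, hz⟩), ?_⟩
    ext
    · have h1 : A.subtype (e (Polynomial.C ⟨z, hz⟩)) = i ⟨z, hz⟩ := Polynomial.eval₂_C _ _
      change B.subtype (A.subtype (e (Polynomial.C ⟨z, hz⟩))) = _
      rw [h1]
      rfl
    · exact hχ ⟨z, hz⟩
  have heq := hmax T' hT' hle
  have hxT : (x, χ (e Polynomial.X)) ∈ T' := by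
    refine ⟨e Polynomial.X, ?_⟩
    ext
    · have h1 : A.subtype (e Polynomial.X) = ⟨x, hx⟩ := Polynomial.eval₂_X _ _
      change B.subtype (A.subtype (e Polynomial.X)) = _
      rw [h1]
      rfl
    · rfl
  rw [heq] at hxT
  exact ⟨⟨_, hxT⟩, rfl⟩

/-- Homomorphisms of subrings into algebraically closed fields extend to places. -/
theorem exists_pl [IsAlgClosed κ] {S : Subring (Ω × κ)} (hS : Gra S) :
    ∃ P : Pl Ω κ, ∀ x t, (x, t) ∈ S → ∃ h : x ∈ P.O, P.ψ ⟨x, h⟩ = t := by
  classical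
  obtain ⟨T, hST, hT, hmax⟩ := exists_max_gra hS
  let e : T →+* (gfst T).range := (gfst T).rangeRestrict
  have he : Function.Bijective e :=
    ⟨fun a b hab => gfst_inj hT (congrArg Subtype.val hab), RingHom.rangeRestrict_surjective _⟩
  let e' : T ≃+* (gfst T).range := RingEquiv.ofBijective e he
  have hunit : ∀ z : T, gsnd T z ≠ 0 → IsUnit z := by
    intro z h1
    have h2 := max_inv hT hmax (x := z.1.1) (t := z.1.2) z.2 h1
    refine IsUnit.of_mul_eq_one ⟨_, h2⟩ ?_
    apply gfst_inj hT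
    rw [map_mul, map_one]
    have h3 : gfst T z ≠ 0 := by
      intro h4
      apply h1
      rw [(map_eq_zero_iff _ (gfst_inj hT)).1 h4, map_zero]
    exact mul_inv_cancel₀ h3
  have hnt : Nontrivial T := (gsnd T).domain_nontrivial
  have hTl : IsLocalRing T := by
    refine IsLocalRing.of_nonunits_add ?_
    intro a b ha hb
    rw [mem_nonunits_iff] at *
    have ha' : gsnd T a = 0 := by
      by_contra h
      exact ha (hunit a h)
    have hb' : gsnd T b = 0 := by
      by_contra h
      exact hb (hunit b h)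
    intro h
    have h1 := h.map (gsnd T)
    rw [map_add, ha', hb', add_zero] at h1
    exact not_isUnit_zero h1
  have hAl : IsLocalRing (gfst T).range := IsLocalRing.of_surjective' e he.2
  let A : LocalSubring Ω := @LocalSubring.mk _ _ (gfst T).range hAl
  have hAmax : IsMax A := by
    rintro B ⟨hAB, hl⟩
    have hBA : B.toSubring ≤ (gfst T).range := by
      intro x hx
      obtain ⟨z, hz⟩ := max_mem hT hmax B.toSubring B.isLocalRing (fun z => hAB ⟨z, rfl⟩) (by
        intro z y hy hzy h0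
        let a : A.toSubring := ⟨gfst T z, z, rfl⟩
        have h1 : IsUnit (Subring.inclusion hAB a) :=
          IsUnit.of_mul_eq_one ⟨y, hy⟩ (Subtype.ext hzy)
        have h2 : IsUnit a := hl.map_nonunit _ h1
        have h3 : IsUnit z := by
          have h4 : e' z = a := rfl
          rw [← h4] at h2
          simpa using h2.map e'.symm
        have h4 := h3.map (gsnd T)
        rw [h0] at h4
        exact not_isUnit_zero h4) hx
      exact ⟨z, hz⟩
    exact (LocalSubring.toSubring_injective (le_antisymm hBA hAB)).le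
  obtain ⟨O, hO⟩ := LocalSubring.exists_valuationRing_of_isMax hAmax
  have hOA : O.toSubring = (gfst T).range := congrArg LocalSubring.toSubring hO
  have hmem : ∀ x : Ω, x ∈ O ↔ x ∈ (gfst T).range := by
    intro x
    rw [← hOA]
    rfl
  let q : O →+* (gfst T).range := (O.subtype).codRestrict _ fun x => (hmem _).1 x.2
  refine ⟨⟨O, ((gsnd T).comp (e'.symm : (gfst T).range →+* T)).comp q, ?_⟩, ?_⟩
  · intro x hx
    obtain ⟨z, hz⟩ := e'.surjective (q x)
    have h1 : e'.symm (q x) = z := by rw [← hz]; simp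
    have h2 : gsnd T z ≠ 0 := by
      rw [← h1]
      exact hx
    have h3 := max_inv hT hmax (x := z.1.1) (t := z.1.2) z.2 h2
    have h4 : z.1.1 = x := congrArg Subtype.val hz
    rw [h4] at h3
    exact (hmem _).2 ⟨⟨_, h3⟩, rfl⟩
  · intro x t hxt
    have hxT : (x, t) ∈ T := hST hxt
    have hx : x ∈ O := (hmem x).2 ⟨⟨_, hxT⟩, rfl⟩
    refine ⟨hx, ?_⟩
    have h1 : e' ⟨(x, t), hxT⟩ = q ⟨x, hx⟩ := rfl
    change gsnd T (e'.symm (q ⟨x, hx⟩)) = t
    rw [← h1]
    simp [gsnd]

end place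

end Pool.Agent.T6.H12
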