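import Pool.Agent.T6.H12.Place

/-!
# Logarithmic derivatives along places
-/

set_option autoImplicit false

namespace Pool.Agent.T6.H12

section ev

variable {Ω κ : Type*} [Field Ω] [Field κ] (P : Pl Ω κ)

open Classical in
/-- The value of the place, extended by zero. -/
noncomputable def Pl.ev (x : Ω) : κ := if h : x ∈ P.O then P.ψ ⟨x, h⟩ else 0

lemma Pl.ev_mem {x : Ω} (h : x ∈ P.O) : P.ev x = P.ψ ⟨x, h⟩ := dif_pos h

lemma Pl.ev_add {x y : Ω} (hx : x ∈ P.O) (hy : y ∈ P.O) : P.ev (x + y) = P.ev x + P.ev y := by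
  rw [P.ev_mem hx, P.ev_mem hy, P.ev_mem (P.O.add_mem _ _ hx hy), ← map_add]
  rfl

lemma Pl.ev_mul {x y : Ω} (hx : x ∈ P.O) (hy : y ∈ P.O) : P.ev (x * y) = P.ev x * P.ev y := by
  rw [P.ev_mem hx, P.ev_mem hy, P.ev_mem (P.O.mul_mem _ _ hx hy), ← map_mul]
  rfl

lemma Pl.ev_one : P.ev 1 = 1 := by
  rw [P.ev_mem P.O.one_mem]
  exact map_one P.ψ

lemma Pl.ev_zero : P.ev 0 = 0 := by
  rw [P.ev_mem P.O.zero_mem]
  exact map_zero P.ψ

lemma Pl.ev_neg {x : Ω} (hx : x ∈ P.O) : P.ev (-x) = -P.ev x := by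
  have h1 := P.ev_add hx (P.O.neg_mem _ hx)
  rw [add_neg_cancel, P.ev_zero] at h1
  exact (neg_eq_of_add_eq_zero_right h1.symm).symm

lemma Pl.sum_mem {ι : Type*} {s : Finset ι} {f : ι → Ω} (h : ∀ i ∈ s, f i ∈ P.O) :
    ∑ i ∈ s, f i ∈ P.O :=
  P.O.toSubring.sum_mem h

lemma Pl.ev_sum {ι : Type*} {s : Finset ι} {f : ι → Ω} (h : ∀ i ∈ s, f i ∈ P.O) :
    P.ev (∑ i ∈ s, f i) = ∑ i ∈ s, P.ev (f i) := by
  classical
  induction s using Finset.induction_on with
  | empty => rw [Finset.sum_empty, Finset.sum_empty, P.ev_zero]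
  | insert a s ha ih =>
    rw [Finset.sum_insert ha, Finset.sum_insert ha, P.ev_add (h a (Finset.mem_insert_self a s))
      (P.sum_mem fun i hi => h i (Finset.mem_insert_of_mem hi)),
      ih fun i hi => h i (Finset.mem_insert_of_mem hi)]

lemma Pl.inv_mem {x : Ω} (h : P.ev x ≠ 0) : x⁻¹ ∈ P.O := by
  by_cases hx : x ∈ P.O
  · rw [P.ev_mem hx] at h
    exact P.loc ⟨x, hx⟩ h
  · exact absurd (dif_neg hx) h

lemma Pl.mem_of_ev {x : Ω} (h : P.ev x ≠ 0) : x ∈ P.O := by
  by_contra hx
  exact h (dif_neg hx)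

lemma Pl.ne_of_ev {x : Ω} (h : P.ev x ≠ 0) : x ≠ 0 := by
  rintro rfl
  exact h P.ev_zero

lemma Pl.ev_inv {x : Ω} (h : P.ev x ≠ 0) : P.ev x⁻¹ = (P.ev x)⁻¹ := by
  apply eq_inv_of_mul_eq_one_left
  rw [← P.ev_mul (P.inv_mem h) (P.mem_of_ev h), inv_mul_cancel₀ (P.ne_of_ev h), P.ev_one]

lemma Pl.ev_ne {x : Ω} (hx : x ∈ P.O) (hx' : x⁻¹ ∈ P.O) (h0 : x ≠ 0) : P.ev x ≠ 0 := by
  intro h
  have h1 := P.ev_mul hx hx'
  rw [mul_inv_cancel₀ h0, P.ev_one, h, zero_mul] at h1
  exact one_ne_zero h1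

/-- The valuation. -/
noncomputable abbrev Pl.V : Valuation Ω P.O.ValueGroup := P.O.valuation

lemma Pl.mem_iff {x : Ω} : x ∈ P.O ↔ P.V x ≤ 1 := (P.O.valuation_le_one_iff x).symm

lemma Pl.ev_ne_iff {x : Ω} : P.ev x ≠ 0 ↔ P.V x = 1 := by
  constructor
  · intro h
    refine le_antisymm (P.mem_iff.1 (P.mem_of_ev h)) ?_
    have h1 := P.mem_iff.1 (P.inv_mem h)
    rw [map_inv₀] at h1
    exact (inv_le_one₀ (zero_lt_iff.2 ((Valuation.ne_zero_iff _).2 (P.ne_of_ev h)))).1 h1
  · intro h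
    refine P.ev_ne (P.mem_iff.2 h.le) (P.mem_iff.2 ?_) ?_
    · rw [map_inv₀, h, inv_one]
    · rintro rfl
      rw [map_zero] at h
      exact zero_ne_one h

lemma Pl.ev_eq_zero {x : Ω} (h : P.V x < 1) : P.ev x = 0 := by
  by_contra h1
  exact h.ne (P.ev_ne_iff.1 h1)

lemma Pl.div_mem {x y : Ω} (hy : y ≠ 0) : x / y ∈ P.O ↔ P.V x ≤ P.V y := by
  rw [P.mem_iff, map_div₀, div_le_one₀ (zero_lt_iff.2 ((Valuation.ne_zero_iff _).2 hy))]

lemma Pl.V_pos {x : Ω} (hx : x ≠ 0) : 0 < P.V x :=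
  zero_lt_iff.2 ((Valuation.ne_zero_iff _).2 hx)

end ev

section mon

variable {Ω κ W : Type*} [Field Ω] [Field κ] [AddCommGroup W] [Module κ W] {ι : Type*} [Fintype ι]

/-- The monomials. -/
def mon (y : ι → Ω) (e : ι → ℤ) : Ω := ∏ i, y i ^ e i

/-- The derivatives of the monomials. -/
def dm (D : ι → W) (e : ι → ℤ) : W := ∑ i, e i • D i

variable {y : ι → Ω} (hy : ∀ i, y i ≠ 0) {D : ι → W}

include hy in
lemma mon_ne (e : ι → ℤ) : mon y e ≠ 0 :=
  Finset.prod_ne_zero_iff.2 fun i _ => zpow_ne_zero _ (hy i)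

include hy in
lemma mon_add (e e' : ι → ℤ) : mon y (e + e') = mon y e * mon y e' := by
  unfold mon
  rw [← Finset.prod_mul_distrib]
  exact Finset.prod_congr rfl fun i _ => zpow_add₀ (hy i) _ _

lemma mon_neg (e : ι → ℤ) : mon y (-e) = (mon y e)⁻¹ := by
  unfold mon
  rw [← Finset.prod_inv_distrib]
  exact Finset.prod_congr rfl fun i _ => zpow_neg _ _

lemma mon_zero : mon y 0 = 1 := Finset.prod_eq_one fun i _ => zpow_zero _

lemma mon_single [DecidableEq ι] (i : ι) : mon y (Pi.single i 1) = y i := by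
  unfold mon
  rw [Finset.prod_eq_single i]
  · rw [Pi.single_eq_same, zpow_one]
  · intro j _ hj
    rw [Pi.single_eq_of_ne hj, zpow_zero]
  · intro h; exact absurd (Finset.mem_univ _) h

lemma dm_add (e e' : ι → ℤ) : dm D (e + e') = dm D e + dm D e' := by
  unfold dm
  rw [← Finset.sum_add_distrib]
  exact Finset.sum_congr rfl fun i _ => add_smul _ _ _

lemma dm_neg (e : ι → ℤ) : dm D (-e) = -dm D e := by
  unfold dm
  rw [← Finset.sum_neg_distrib]
  exact Finset.sum_congr rfl fun i _ => neg_smul _ _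

lemma dm_zero : dm D 0 = 0 := Finset.sum_eq_zero fun i _ => zero_smul _ _

lemma dm_single [DecidableEq ι] (i : ι) : dm D (Pi.single i 1) = D i := by
  unfold dm
  rw [Finset.sum_eq_single i]
  · rw [Pi.single_eq_same, one_smul]
  · intro j _ hj
    rw [Pi.single_eq_of_ne hj, zero_smul]
  · intro h; exact absurd (Finset.mem_univ _) h

end mon

section rp

variable {Ω κ W : Type*} [Field Ω] [Field κ] [AddCommGroup W] [Module κ W] {ι : Type*} [Fintype ι]
  (P : Pl Ω κ) (y : ι → Ω) (D : ι → W)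

/-- The relations between the monomials with coefficients in `F` are compatible with `D`. -/
def RP (F : Type*) [Field F] [Algebra F Ω] : Prop :=
  ∀ (s : Finset (ι → ℤ)) (C : (ι → ℤ) → F), ∑ e ∈ s, algebraMap F Ω (C e) * mon y e = 0 →
    ∀ g : Ω, g ≠ 0 → (∀ e ∈ s, algebraMap F Ω (C e) * mon y e / g ∈ P.O) →
    ∑ e ∈ s, P.ev (algebraMap F Ω (C e) * mon y e / g) • dm D e = 0

/-- The relations between the monomials with coefficients in `F` are compatible with `D`. -/
def RP1 (F : Type*) [Field F] [Algebra F Ω] : Prop :=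
  ∀ (s : Finset (ι → ℤ)) (C : (ι → ℤ) → F), ∑ e ∈ s, algebraMap F Ω (C e) * mon y e = 0 →
    (∀ e ∈ s, algebraMap F Ω (C e) * mon y e ∈ P.O) →
    ∑ e ∈ s, P.ev (algebraMap F Ω (C e) * mon y e) • dm D e = 0

variable {P y D}

/-- Base change of the relations. -/
theorem rp_bc {E L : Type*} [Field E] [Field L] [Algebra E Ω] [Algebra L Ω] [Algebra E L]
    [IsScalarTower E L Ω] (hy : ∀ i, y i ≠ 0) (hE : RP P y D E)
    (hd : ∀ (s : Finset (ι → ℤ)) (C : (ι → ℤ) → L),
      ∑ e ∈ s, algebraMap L Ω (C e) * mon y e = 0 → (∃ e ∈ s, C e ≠ 0) →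
      ∃ C' : (ι → ℤ) → E, (∀ e, C e = 0 → C' e = 0) ∧ (∃ e ∈ s, C' e ≠ 0) ∧
        ∑ e ∈ s, algebraMap E Ω (C' e) * mon y e = 0) : RP1 P y D L := by
  classical
  intro s C
  induction hN : (s.filter fun e => C e ≠ 0).card using Nat.strong_induction_on generalizing C with
  | _ N ih =>
    intro h0 hO
    by_cases hex : ∃ e ∈ s, C e ≠ 0
    · obtain ⟨C', h1, ⟨e0, he0, he0'⟩, h3⟩ := hd s C h0 hex
      obtain ⟨q, hq, hqmax⟩ := Finset.exists_max_image (s.filter fun e => C' e ≠ 0)
        (fun e => P.V (algebraMap E Ω (C' e) * mon y e))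
        ⟨e0, Finset.mem_filter.2 ⟨he0, he0'⟩⟩
      rw [Finset.mem_filter] at hq
      obtain ⟨hqs, hq0⟩ := hq
      have hCq : C q ≠ 0 := fun h => hq0 (h1 q h)
      have hEL : ∀ a : E, algebraMap E Ω a = algebraMap L Ω (algebraMap E L a) :=
        fun a => IsScalarTower.algebraMap_apply E L Ω a
      have hC'q : algebraMap E L (C' q) ≠ 0 := (map_ne_zero _).2 hq0
      have hmax : ∀ e ∈ s, P.V (algebraMap E Ω (C' e) * mon y e) ≤
          P.V (algebraMap E Ω (C' q) * mon y q) := by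
        intro e he
        by_cases h : C' e = 0
        · rw [h, map_zero, zero_mul, map_zero]
          exact zero_le
        · exact hqmax e (Finset.mem_filter.2 ⟨he, h⟩)
      let r : L := C q / algebraMap E L (C' q)
      have hr0 : r ≠ 0 := div_ne_zero hCq hC'q
      let C2 : (ι → ℤ) → L := fun e => C e - r * algebraMap E L (C' e)
      -- the second relation
      let g : Ω := (algebraMap L Ω r)⁻¹
      have hg0 : g ≠ 0 := inv_ne_zero ((map_ne_zero _).2 hr0)
      have hgd : ∀ e, algebraMap E Ω (C' e) * mon y e / g =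
          algebraMap L Ω (r * algebraMap E L (C' e)) * mon y e := by
        intro e
        rw [div_inv_eq_mul, map_mul, ← hEL]
        ring
      have hgO : ∀ e ∈ s, algebraMap E Ω (C' e) * mon y e / g ∈ P.O := by
        intro e he
        rw [P.div_mem hg0]
        refine (hmax e he).trans ?_
        rw [← P.div_mem hg0, hgd]
        have h4 : r * algebraMap E L (C' q) = C q := div_mul_cancel₀ _ hC'q
        rw [h4]
        exact hO q hqs
      have h5 := hE s C' h3 g hg0 hgO
      have hC2O : ∀ e ∈ s, algebraMap L Ω (C2 e) * mon y e ∈ P.O := by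
        intro e he
        have h6 : algebraMap L Ω (C2 e) * mon y e = algebraMap L Ω (C e) * mon y e -
            algebraMap L Ω (r * algebraMap E L (C' e)) * mon y e := by
          rw [← sub_mul, ← map_sub]
        rw [h6]
        refine P.O.sub_mem (hO e he) ?_
        rw [← hgd]
        exact hgO e he
      have h7 := ih _ (by
        rw [← hN]
        refine Finset.card_lt_card ?_
        rw [Finset.ssubset_iff_of_subset]
        · refine ⟨q, Finset.mem_filter.2 ⟨hqs, hCq⟩, ?_⟩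
          rw [Finset.mem_filter, not_and, not_not]
          intro _
          change C q - r * algebraMap E L (C' q) = 0
          rw [div_mul_cancel₀ _ hC'q, sub_self]
        · intro e he
          rw [Finset.mem_filter] at he ⊢
          refine ⟨he.1, fun h => he.2 ?_⟩
          change C e - r * algebraMap E L (C' e) = 0
          rw [h, h1 e h, map_zero, mul_zero, sub_zero]) C2 rfl (by
        have h8 : ∀ e ∈ s, algebraMap L Ω (C2 e) * mon y e = algebraMap L Ω (C e) * mon y e -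
            algebraMap L Ω r * (algebraMap E Ω (C' e) * mon y e) := by
          intro e _
          change algebraMap L Ω (C e - r * algebraMap E L (C' e)) * mon y e = _
          rw [map_sub, map_mul, hEL]
          ring
        rw [Finset.sum_congr rfl h8, Finset.sum_sub_distrib, ← Finset.mul_sum, h0, h3, mul_zero,
          sub_zero]) hC2O
      have h9 : ∀ e ∈ s, P.ev (algebraMap L Ω (C e) * mon y e) • dm D e =
          P.ev (algebraMap L Ω (C2 e) * mon y e) • dm D e +
            P.ev (algebraMap E Ω (C' e) * mon y e / g) • dm D e := by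
        intro e he
        rw [← add_smul, ← P.ev_add (hC2O e he) (hgO e he)]
        congr 2
        rw [hgd, ← add_mul, ← map_add]
        congr 2
        change C e = C e - r * algebraMap E L (C' e) + r * algebraMap E L (C' e)
        ring
      rw [Finset.sum_congr rfl h9, Finset.sum_add_distrib, h7, h5, add_zero]
    · push Not at hex
      refine Finset.sum_eq_zero fun e he => ?_
      rw [hex e he, map_zero, zero_mul, P.ev_zero, zero_smul]

end rp

end Pool.Agent.T6.H12
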