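import Pool.Agent.T6.H12.EqStep
import Pool.Agent.T6.H12.LineStep
import Pool.Agent.T6.H12.Diff

/-!
# Tame towers
-/

set_option autoImplicit false
set_option linter.unusedSectionVars false

universe u

open Polynomial Pool.Agent.TH214.SD Pool.Agent.TH188.VT Pool.Agent.W558 AlgebraicGeometry
  CategoryTheory

namespace Pool.Agent.T6.H12

open scoped IntermediateField.algebraAdjoinAdjoin in
lemma trdeg_simple {F K : Type u} [Field F] [Field K] [Algebra F K] {x : K}
    (hx : Transcendental F x) : Algebra.trdeg F (IntermediateField.adjoin F {x}) = 1 := by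
  have h1 : Algebra.IsAlgebraic (Algebra.adjoin F {x}) (IntermediateField.adjoin F {x}) :=
    IsLocalization.isAlgebraic _ (nonZeroDivisors (Algebra.adjoin F {x}))
  have h2 := trdeg_add_eq F (Algebra.adjoin F {x}) (A := IntermediateField.adjoin F {x})
  have h3 : Algebra.trdeg (Algebra.adjoin F {x}) (IntermediateField.adjoin F {x}) = 0 :=
    trdeg_eq_zero
  rw [← h2, h3, add_zero, ← (Polynomial.algEquivOfTranscendental F x hx).trdeg_eq]
  exact Polynomial.trdeg_of_isDomain

lemma trdeg_tower {F K : Type u} [Field F] [Field K] [Algebra F K] (L : IntermediateField F K) :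
    Algebra.trdeg F L + Algebra.trdeg L K = Algebra.trdeg F K := trdeg_add_eq F L

section

variable {k K : Type u} [Field k] [Field K] [Algebra k K] {m : ℕ}
  {E : Fin m → IntermediateField k K}

lemma transcendental_of_le {F F' : IntermediateField k K} (h : F ≤ F') {x : K}
    (hx : Transcendental F' x) : Transcendental F x := by
  rw [transcendental_iff] at hx ⊢
  intro P hP
  have h1 : aeval x (P.map (IntermediateField.inclusion h).toRingHom) = 0 := by
    rw [← hP, aeval_def, aeval_def, eval₂_map]
    rfl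
  have h2 := hx _ h1
  rwa [Polynomial.map_eq_zero_iff (IntermediateField.inclusion h).injective] at h2

/-- The invariants of a tower. -/
structure Inv (E : Fin m → IntermediateField k K) (F : IntermediateField k K) (G : Subgroup Kˣ) :
    Prop where
  le : IntermediateField.adjoin k (⋃ i, (E i : Set K)) ≤ F
  mem : ∀ u ∈ G, (u : K) ∈ F
  gen : F ≤ IntermediateField.adjoin k (Units.val '' (G : Set Kˣ))
  good : ∃ d : ℕ, Good E G d ∧
    Algebra.trdeg (IntermediateField.adjoin k (⋃ i, (E i : Set K))) K =
      (d : Cardinal.{u}) + Algebra.trdeg F K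

lemma mem_of_closure {F : IntermediateField k K} {S : Set Kˣ} (hS : ∀ u ∈ S, (u : K) ∈ F) :
    ∀ u ∈ Subgroup.closure S, (u : K) ∈ F := by
  intro u hu
  induction hu using Subgroup.closure_induction with
  | mem u hu => exact hS u hu
  | one => exact one_mem F
  | mul u v _ _ hu hv => exact mul_mem hu hv
  | inv u _ hu =>
    rw [Units.val_inv_eq_inv_val]
    exact inv_mem hu

lemma mem_adj {G : Subgroup Kˣ} {b : K} (hb : b ≠ 0 → ∃ u ∈ G, (u : K) = b) :
    b ∈ IntermediateField.adjoin k (Units.val '' (G : Set Kˣ)) := by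
  by_cases h0 : b = 0
  · rw [h0]
    exact zero_mem _
  · obtain ⟨u, hu, h1⟩ := hb h0
    rw [← h1]
    exact IntermediateField.subset_adjoin k _ ⟨u, hu, rfl⟩

lemma adjoin_le_aux {F M : IntermediateField k K} (hF : F ≤ M) {S : Set K}
    (hS : ∀ b ∈ S, b ∈ M) : (IntermediateField.adjoin F S).restrictScalars k ≤ M := by
  have h7 : IntermediateField.adjoin F S ≤ IntermediateField.extendScalars hF := by
    rw [IntermediateField.adjoin_le_iff]
    exact hS
  exact fun b hb => h7 hb

lemma le_adj_sup {F : IntermediateField k K} {G : Subgroup Kˣ} (G' : Subgroup Kˣ)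
    (h3 : F ≤ IntermediateField.adjoin k (Units.val '' (G : Set Kˣ))) :
    F ≤ IntermediateField.adjoin k (Units.val '' ((G ⊔ G' : Subgroup Kˣ) : Set Kˣ)) :=
  h3.trans (IntermediateField.adjoin.mono k _ _ (Set.image_mono
    (SetLike.coe_subset_coe.2 le_sup_left)))

theorem inv_of_tower [NeZero m] {p : ℕ} [Fact p.Prime] [CharP k p]
    {F : IntermediateField k K} {G : Subgroup Kˣ} (h : IsTameTower p E F G) : Inv E F G := by
  classical
  induction h with
  | base =>
    refine ⟨le_rfl, ?_, ?_, 0, good_base E, ?_⟩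
    · refine mem_of_closure ?_
      rintro u ⟨i, hi⟩
      exact IntermediateField.subset_adjoin k _ (Set.mem_iUnion.2 ⟨i, hi⟩)
    · rw [IntermediateField.adjoin_le_iff]
      intro b hb
      obtain ⟨i, hi⟩ := Set.mem_iUnion.1 hb
      exact mem_adj fun h0 => ⟨Units.mk0 b h0, Subgroup.subset_closure ⟨i, hi⟩, rfl⟩
    · rw [Nat.cast_zero, zero_add]
  | @line F G h i x hx ih =>
    obtain ⟨h1, h2, h3, d, h4, h5⟩ := ih
    have hEF : E i ≤ F := fun b hb =>
      h1 (IntermediateField.subset_adjoin k _ (Set.mem_iUnion.2 ⟨i, hb⟩))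
    have hle : F ≤ (IntermediateField.adjoin F {x}).restrictScalars k := fun b hb =>
      (IntermediateField.adjoin F {x}).algebraMap_mem ⟨b, hb⟩
    have hxm : x ∈ (IntermediateField.adjoin F {x}).restrictScalars k :=
      IntermediateField.subset_adjoin F _ rfl
    have hp1 : 1 < p := (Fact.out (p := p.Prime)).one_lt
    refine ⟨h1.trans hle, ?_, ?_, d + 1, good_line h4 i (transcendental_of_le hEF hx), ?_⟩
    · intro u hu
      rw [← Subgroup.closure_eq G, ← Subgroup.closure_union] at hu
      refine mem_of_closure ?_ u hu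
      rintro v (hv | ⟨P, -, hP⟩)
      · exact hle (h2 v hv)
      · rw [← hP, aeval_def, eval₂_eq_sum_range]
        exact sum_mem fun j _ => mul_mem (hle (hEF (P.coeff j).2)) (pow_mem hxm j)
    · refine adjoin_le_aux (le_adj_sup _ h3) ?_
      rintro b rfl
      refine mem_adj fun h0 => ⟨Units.mk0 b h0, Subgroup.mem_sup_right
        (Subgroup.subset_closure ⟨X, ?_, ?_⟩), rfl⟩
      · rw [natDegree_X]
        exact hp1
      · rw [aeval_X, Units.val_mk0]
    · have h6 := trdeg_tower (IntermediateField.adjoin F {x})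
      rw [trdeg_simple hx] at h6
      rw [h5, ← h6, ← add_assoc]
      push_cast
      rfl
  | @system F G h n r B f hf ih =>
    obtain ⟨h1, h2, h3, d, h4, h5⟩ := ih
    have hle : F ≤ (IntermediateField.adjoin F (⋃ s, B s)).restrictScalars k := fun b hb =>
      (IntermediateField.adjoin F (⋃ s, B s)).algebraMap_mem ⟨b, hb⟩
    have hB : ∀ s, ∀ b ∈ B s, b ∈ (IntermediateField.adjoin F (⋃ s, B s)).restrictScalars k :=
      fun s b hb => IntermediateField.subset_adjoin F _ (Set.mem_iUnion.2 ⟨s, hb⟩)
    obtain ⟨D0, hD0⟩ : ∃ D0 : ℕ, Algebra.trdeg F (IntermediateField.adjoin F (⋃ s, B s)) =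
        (D0 : Cardinal.{u}) := by
      refine Cardinal.lt_aleph0.1 (lt_of_le_of_lt ?_ (Cardinal.natCast_lt_aleph0
        (n := ∑ s, Module.finrank F (Submodule.span F (B s)))))
      rw [← hf.complete]
      exact self_le_add_right _ _
    have hDM : D0 + Nat.card {j // f j = 0} = ∑ s, Module.finrank F (Submodule.span F (B s)) := by
      have h6 := hf.complete
      rw [hD0] at h6
      exact_mod_cast h6
    refine ⟨h1.trans hle, ?_, ?_, d + D0, good_system h4 hf hDM, ?_⟩
    · -- the elements of the group
      have hfm : ∀ l, f l ≠ 0 → f l ∈ (IntermediateField.adjoin F (⋃ s, B s)).restrictScalars k := by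
        obtain ⟨deg, q, t, δ, ht, hft, -, -⟩ := hf.equations
        intro l
        induction l using WellFoundedLT.induction with
        | ind l ihl =>
          intro _
          rw [hft l]
          refine sum_mem fun i _ => ?_
          have h6 := ht l i
          have h7 : ∀ a : Kˣ × Multiplicative (Fin n → ZMod p), a ∈ terms p G B f deg l →
              (a.1 : K) ∈ (IntermediateField.adjoin F (⋃ s, B s)).restrictScalars k := by
            intro a ha
            unfold terms at ha
            induction ha using Subgroup.closure_induction with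
            | mem a ha =>
              rcases ha with ⟨h8, -⟩ | ⟨s, h8, -⟩ | ⟨l', hl', h8, -⟩
              · exact hle (h2 _ h8)
              · exact hB s _ h8
              · rw [← h8]
                exact ihl l' hl' (by rw [h8]; exact a.1.ne_zero)
            | one => exact one_mem _
            | mul a b _ _ ha hb => exact mul_mem ha hb
            | inv a _ ha =>
              rw [Prod.fst_inv, Units.val_inv_eq_inv_val]
              exact inv_mem ha
          exact h7 _ h6
      intro u hu
      rw [← Subgroup.closure_eq G, ← Subgroup.closure_union] at hu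
      refine mem_of_closure ?_ u hu
      rintro v (hv | ⟨s, hs⟩ | ⟨l, hl⟩)
      · exact hle (h2 v hv)
      · exact hB s _ hs
      · rw [← hl]
        exact hfm l (by rw [hl]; exact v.ne_zero)
    · refine adjoin_le_aux (le_adj_sup _ h3) ?_
      intro b hb
      obtain ⟨s, hs⟩ := Set.mem_iUnion.1 hb
      exact mem_adj fun h0 => ⟨Units.mk0 b h0, Subgroup.mem_sup_right
        (Subgroup.subset_closure (Or.inl ⟨s, hs⟩)), rfl⟩
    · have h6 := trdeg_tower (IntermediateField.adjoin F (⋃ s, B s))
      rw [hD0] at h6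
      rw [h5, ← h6, ← add_assoc]
      push_cast
      rfl
  | @difference F G h ih =>
    obtain ⟨h1, h2, h3, d, h4, h5⟩ := ih
    refine ⟨h1, ?_, le_adj_sup _ h3, d, good_diff h4, h5⟩
    intro u hu
    rw [← Subgroup.closure_eq G, ← Subgroup.closure_union, Subgroup.closure_eq] at hu
    refine mem_of_closure ?_ u hu
    rintro v (hv | ⟨N, a, b, c, -, ha, hb, -, hv, -⟩)
    · exact h2 v hv
    · rw [hv]
      exact sub_mem (h2 a ha) (h2 b hb)

/-- The resolution of the varieties given by tame towers. -/
theorem tower_main (p : ℕ) [Fact p.Prime] [PerfectField k] [CharP k p] [NeZero m]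
    (hE : AreIndependentSurfaceFields E) {G : Subgroup Kˣ} (hG : IsTameTower p E ⊤ G)
    (A : Type u) [CommRing A] [IsDomain A] [Algebra k A] [Algebra.FiniteType k A] [Algebra A K]
    [IsScalarTower k A K] [IsFractionRing A K] (S : Finset A)
    (hS : ∀ b ∈ S, ∃ u ∈ G, algebraMap A K b = u)
    (hA : ∀ a : A, IsIntegral (Algebra.adjoin k (S : Set A)) a) :
    IsResolvableVariety (X := Spec (CommRingCat.of A))
      (Spec.map (CommRingCat.ofHom (algebraMap k A))) := by
  classical
  obtain ⟨h1, h2, h3, d, h4, h5⟩ := inv_of_tower hG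
  -- finitely many generators of `K`
  obtain ⟨S0, hS0⟩ := (inferInstance : Algebra.FiniteType k A).out
  have hgenA : ∀ a : A, algebraMap A K a ∈ IntermediateField.adjoin k
      ((S0.image (algebraMap A K) : Finset K) : Set K) := by
    intro a
    have h6 : a ∈ Algebra.adjoin k (S0 : Set A) := by
      rw [hS0]
      trivial
    have h7 : (IsScalarTower.toAlgHom k A K) a ∈
        (Algebra.adjoin k (S0 : Set A)).map (IsScalarTower.toAlgHom k A K) := ⟨a, h6, rfl⟩
    rw [AlgHom.map_adjoin] at h7
    refine IntermediateField.algebra_adjoin_le_adjoin k _ (Algebra.adjoin_mono ?_ h7)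
    rintro _ ⟨b, hb, rfl⟩
    exact Finset.mem_coe.2 (Finset.mem_image_of_mem _ hb)
  have hgenK : IntermediateField.adjoin k ((S0.image (algebraMap A K) : Finset K) : Set K) =
      ⊤ := by
    rw [eq_top_iff]
    intro b _
    obtain ⟨a, c, hc, rfl⟩ := IsFractionRing.div_surjective (A := A) b
    exact div_mem (hgenA a) (hgenA c)
  have hfinG : ∀ b : K, ∃ T : Finset Kˣ, (∀ u ∈ T, u ∈ G) ∧
      b ∈ IntermediateField.adjoin k (Units.val '' (T : Set Kˣ)) := by
    intro b
    have h6 : b ∈ IntermediateField.adjoin k (Units.val '' (G : Set Kˣ)) := h3 trivial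
    obtain ⟨T0, hT0, hb⟩ := IntermediateField.exists_finset_of_mem_adjoin h6
    have h7 : ∀ c ∈ T0, ∃ u ∈ G, (u : K) = c := fun c hc => hT0 (Finset.mem_coe.2 hc)
    choose! uu huu1 huu2 using h7
    refine ⟨T0.image uu, ?_, ?_⟩
    · intro u hu
      obtain ⟨c, hc, rfl⟩ := Finset.mem_image.1 hu
      exact huu1 c hc
    · refine IntermediateField.adjoin.mono k _ _ ?_ hb
      intro c hc
      exact ⟨uu c, Finset.mem_coe.2 (Finset.mem_image_of_mem _ hc), huu2 c hc⟩
  choose Tb hTb1 hTb2 using hfinG
  choose! us hus1 hus2 using hS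
  obtain ⟨n, y, hy0, hy, hyT, hyB⟩ := h4 ((S.image us) ∪
      (S0.image (algebraMap A K)).biUnion Tb) (by
    intro u hu
    rcases Finset.mem_union.1 hu with h | h
    · obtain ⟨b, hb, rfl⟩ := Finset.mem_image.1 h
      exact hus1 b hb
    · obtain ⟨b, -, hb⟩ := Finset.mem_biUnion.1 h
      exact hTb1 b u hb)
  have htr : Algebra.trdeg (IntermediateField.adjoin k (⋃ i, (E i : Set K))) K =
      (d : Cardinal.{u}) := by
    have h6 : Algebra.IsAlgebraic (⊤ : IntermediateField k K) K :=
      ⟨fun b => isAlgebraic_algebraMap (⟨b, trivial⟩ : (⊤ : IntermediateField k K))⟩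
    have h7 : Algebra.trdeg (⊤ : IntermediateField k K) K = 0 := trdeg_eq_zero
    rw [h5, h7, add_zero]
  refine resolvable_of_bound (p := p) (d := d) hE hy0 ?_ htr ?_ A S ?_ hA
  · rw [eq_top_iff, ← hgenK, IntermediateField.adjoin_le_iff]
    intro b hb
    have h6 : IntermediateField.adjoin k (Units.val '' (Tb b : Set Kˣ)) ≤
        IntermediateField.adjoin k (Set.range y ∪ ⋃ i, (E i : Set K)) := by
      rw [IntermediateField.adjoin_le_iff]
      rintro _ ⟨u, hu, rfl⟩
      obtain ⟨a, ⟨v, hv, rfl⟩, e, he⟩ := hyT u (Finset.mem_union_right _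
        (Finset.mem_biUnion.2 ⟨b, Finset.mem_coe.1 hb, Finset.mem_coe.1 hu⟩))
      rw [he]
      refine mul_mem (prod_mem fun i _ => IntermediateField.subset_adjoin k _
        (Or.inr (Set.mem_iUnion.2 ⟨i, (v i).2⟩))) ?_
      unfold mon
      refine prod_mem fun j _ => ?_
      have h7 : y j ∈ IntermediateField.adjoin k (Set.range y ∪ ⋃ i, (E i : Set K)) :=
        IntermediateField.subset_adjoin k _ (Or.inl ⟨j, rfl⟩)
      exact zpow_mem h7 _
    exact h6 (hTb2 b)
  · intro Γ κ _ _ _ _ _ l z w ζ D h
    exact hyB Γ κ _ l z w ζ D h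
  · intro b hb
    rw [hus2 b hb]
    obtain ⟨a, ⟨v, hv, rfl⟩, e, he⟩ := hyT _ (Finset.mem_union_left _
      (Finset.mem_image_of_mem us hb))
    exact ⟨v, e, hv, he⟩

end

end Pool.Agent.T6.H12
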